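import Pool.Agent.Helper63.Defs46c

set_option autoImplicit false
set_option linter.unusedSectionVars false

open MeasureTheory Filter Topology Asymptotics Metric
open scoped ENNReal NNReal

namespace Pool.Agent.Helper63.SCV

theorem half_diam {a b c M x₀ : ℝ} (ha : 0 < a) (hx₀ : x₀ = -b / (2 * a))
    {x y : ℝ} (hx : |a * x ^ 2 + b * x + c| ≤ M) (hy : |a * y ^ 2 + b * y + c| ≤ M)
    (hside : (x₀ ≤ x ∧ x₀ ≤ y) ∨ (x ≤ x₀ ∧ y ≤ x₀)) : |x - y| ≤ Real.sqrt (2 * M / a) := by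
  refine Real.abs_le_sqrt ?_
  rw [le_div_iff₀ ha]
  have hb : b = -(2 * a * x₀) := by rw [hx₀]; field_simp
  rw [abs_le] at hx hy
  have hdiff : (a * x ^ 2 + b * x + c) - (a * y ^ 2 + b * y + c) =
      a * (x - y) * ((x - x₀) + (y - x₀)) := by rw [hb]; ring
  have h1 : (a * x ^ 2 + b * x + c) - (a * y ^ 2 + b * y + c) ≤ 2 * M := by linarith [hx.2, hy.1]
  have h2 : (a * y ^ 2 + b * y + c) - (a * x ^ 2 + b * x + c) ≤ 2 * M := by linarith [hy.2, hx.1]
  rcases hside with ⟨h3, h4⟩ | ⟨h3, h4⟩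
  · rcases le_total y x with h5 | h5
    · have : (x - y) ^ 2 ≤ (x - y) * ((x - x₀) + (y - x₀)) := by nlinarith
      nlinarith
    · have : (x - y) ^ 2 ≤ (y - x) * ((x - x₀) + (y - x₀)) := by nlinarith
      nlinarith
  · rcases le_total y x with h5 | h5
    · have : (x - y) ^ 2 ≤ -((x - y) * ((x - x₀) + (y - x₀))) := by nlinarith
      nlinarith
    · have : (x - y) ^ 2 ≤ -((y - x) * ((x - x₀) + (y - x₀))) := by nlinarith
      nlinarith

/-- Sublevel sets of real quadratic polynomials. -/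
theorem volume_sublevel {a b c M : ℝ} (ha : 0 < a) :
    volume {x : ℝ | |a * x ^ 2 + b * x + c| ≤ M} ≤ ENNReal.ofReal (2 * Real.sqrt (2 * M / a)) := by
  set x₀ : ℝ := -b / (2 * a) with hx₀
  set S : Set ℝ := {x : ℝ | |a * x ^ 2 + b * x + c| ≤ M} with hS
  have hcov : S ⊆ (S ∩ Set.Ici x₀) ∪ (S ∩ Set.Iic x₀) := by
    intro x hx
    rcases le_total x₀ x with h | h
    · exact Or.inl ⟨hx, h⟩
    · exact Or.inr ⟨hx, h⟩
  have hs : 0 ≤ Real.sqrt (2 * M / a) := Real.sqrt_nonneg _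
  have h1 : volume (S ∩ Set.Ici x₀) ≤ ENNReal.ofReal (Real.sqrt (2 * M / a)) := by
    refine (Real.volume_le_diam _).trans ?_
    refine Metric.ediam_le fun x hx y hy => ?_
    rw [edist_dist, Real.dist_eq]
    exact ENNReal.ofReal_le_ofReal (half_diam ha hx₀ hx.1 hy.1 (Or.inl ⟨hx.2, hy.2⟩))
  have h2 : volume (S ∩ Set.Iic x₀) ≤ ENNReal.ofReal (Real.sqrt (2 * M / a)) := by
    refine (Real.volume_le_diam _).trans ?_
    refine Metric.ediam_le fun x hx y hy => ?_
    rw [edist_dist, Real.dist_eq]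
    exact ENNReal.ofReal_le_ofReal (half_diam ha hx₀ hx.1 hy.1 (Or.inr ⟨hx.2, hy.2⟩))
  calc volume S ≤ volume ((S ∩ Set.Ici x₀) ∪ (S ∩ Set.Iic x₀)) := measure_mono hcov
    _ ≤ volume (S ∩ Set.Ici x₀) + volume (S ∩ Set.Iic x₀) := measure_union_le _ _
    _ ≤ ENNReal.ofReal (Real.sqrt (2 * M / a)) + ENNReal.ofReal (Real.sqrt (2 * M / a)) :=
        add_le_add h1 h2
    _ = ENNReal.ofReal (2 * Real.sqrt (2 * M / a)) := by
        rw [← ENNReal.ofReal_add hs hs]; ring_nf

/-- Area of the part of a disc where a real polynomial of degree two is small. -/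
theorem area_sublevel {Q : ℂ → ℝ} {a M T : ℝ} (ha : 0 < a)
    (hQ : ∀ y : ℝ, ∃ b c : ℝ, ∀ x : ℝ, Q (x + y * Complex.I) = a * x ^ 2 + b * x + c)
    {S : Set ℂ} (hS : MeasurableSet S) (hST : ∀ ζ ∈ S, ‖ζ‖ < T ∧ |Q ζ| ≤ M) :
    volume S ≤ ENNReal.ofReal (4 * T * Real.sqrt (2 * M / a)) := by
  have hmp := Complex.volume_preserving_equiv_real_prod.symm
  have h1 : volume S = (volume : Measure (ℝ × ℝ)) (Complex.measurableEquivRealProd.symm ⁻¹' S) :=
    (hmp.measure_preimage hS.nullMeasurableSet).symm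
  have hmeas : MeasurableSet (Complex.measurableEquivRealProd.symm ⁻¹' S) :=
    Complex.measurableEquivRealProd.symm.measurable hS
  rw [h1, Measure.volume_eq_prod, Measure.prod_apply_symm hmeas]
  have h2 : ∀ y : ℝ, volume ((fun x : ℝ => (x, y)) ⁻¹'
      (Complex.measurableEquivRealProd.symm ⁻¹' S)) ≤
      (Set.Icc (-T) T).indicator (fun _ => ENNReal.ofReal (2 * Real.sqrt (2 * M / a))) y := by
    intro y
    by_cases hy : y ∈ Set.Icc (-T) T
    · rw [Set.indicator_of_mem hy]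
      obtain ⟨b, c, hbc⟩ := hQ y
      refine le_trans (measure_mono ?_) (volume_sublevel (b := b) (c := c) ha)
      intro x hx
      have hx' : (⟨x, y⟩ : ℂ) ∈ S := hx
      have h3 := (hST _ hx').2
      have h4 : (⟨x, y⟩ : ℂ) = x + y * Complex.I := by
        apply Complex.ext <;> simp
      rw [h4, hbc] at h3
      exact h3
    · rw [Set.indicator_of_notMem hy]
      refine le_of_eq ?_
      have : ((fun x : ℝ => (x, y)) ⁻¹' (Complex.measurableEquivRealProd.symm ⁻¹' S)) = ∅ := by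
        ext x
        simp only [Set.mem_preimage, Set.mem_empty_iff_false, iff_false]
        intro hx
        have hx' : (⟨x, y⟩ : ℂ) ∈ S := hx
        have h3 := (hST _ hx').1
        have h4 : |y| ≤ ‖(⟨x, y⟩ : ℂ)‖ := Complex.abs_im_le_norm ⟨x, y⟩
        have h5 := abs_le.mp (h4.trans h3.le)
        exact hy ⟨h5.1, h5.2⟩
      rw [this, measure_empty]
  calc ∫⁻ y, volume ((fun x : ℝ => (x, y)) ⁻¹' (Complex.measurableEquivRealProd.symm ⁻¹' S))
      ≤ ∫⁻ y, (Set.Icc (-T) T).indicator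
          (fun _ => ENNReal.ofReal (2 * Real.sqrt (2 * M / a))) y := lintegral_mono h2
    _ = ENNReal.ofReal (2 * Real.sqrt (2 * M / a)) * ENNReal.ofReal (T - -T) := by
        rw [lintegral_indicator measurableSet_Icc, setLIntegral_const, Real.volume_Icc]
    _ = ENNReal.ofReal (4 * T * Real.sqrt (2 * M / a)) := by
        rw [← ENNReal.ofReal_mul (by positivity)]
        ring_nf

end Pool.Agent.Helper63.SCV
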