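import Pool.Agent.Helper63.Core46c

set_option autoImplicit false
set_option linter.unusedSectionVars false

open MeasureTheory Filter Topology Asymptotics Metric
open scoped ENNReal NNReal ContDiff

namespace Pool.Agent.Helper63.SCV

variable {n : ℕ}

/-- Defining function of a Euclidean ball. -/
noncomputable def rball (c : Cn n) (ρ : ℝ) (z : Cn n) : ℝ := ∑ i, ‖z i - c i‖ ^ 2 - ρ ^ 2

theorem contDiff_rball (c : Cn n) (ρ : ℝ) (k : WithTop ℕ∞) : ContDiff ℝ k (rball c ρ) := by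
  unfold rball
  refine ContDiff.sub (ContDiff.sum fun i _ => ?_) contDiff_const
  have h1 : ContDiff ℝ k fun z : Cn n => z i - c i := by fun_prop
  exact (contDiff_norm_sq ℝ).comp h1

theorem norm_sq_line (a b : ℂ) (s : ℝ) :
    ‖a + s • b‖ ^ 2 = ‖a‖ ^ 2 + s * (2 * (a.re * b.re + a.im * b.im)) + s ^ 2 * ‖b‖ ^ 2 := by
  simp only [← Complex.normSq_eq_norm_sq, Complex.normSq_apply, Complex.add_re, Complex.add_im,
    Complex.real_smul, Complex.mul_re, Complex.mul_im, Complex.ofReal_re, Complex.ofReal_im]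
  ring

theorem rball_line (c p v : Cn n) (ρ s : ℝ) :
    rball c ρ (p + s • v) = rball c ρ p +
      s * (∑ i, 2 * ((p i - c i).re * (v i).re + (p i - c i).im * (v i).im)) +
      s ^ 2 * ∑ i, ‖v i‖ ^ 2 := by
  unfold rball
  have h1 : ∀ i, ‖(p + s • v) i - c i‖ ^ 2 = ‖p i - c i‖ ^ 2 +
      s * (2 * ((p i - c i).re * (v i).re + (p i - c i).im * (v i).im)) + s ^ 2 * ‖v i‖ ^ 2 := by
    intro i
    rw [← norm_sq_line]
    congr 2
    simp only [Pi.add_apply, Pi.smul_apply]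
    ring
  simp only [h1, Finset.sum_add_distrib, Finset.mul_sum]
  ring

theorem hasDerivAt_quad (A B C s : ℝ) :
    HasDerivAt (fun s : ℝ => A + s * B + s ^ 2 * C) (B + 2 * s * C) s := by
  have h0 : HasDerivAt (fun s : ℝ => A + s * B) B s := by
    simpa using ((hasDerivAt_id s).mul_const B).const_add A
  have h0' : HasDerivAt (fun s : ℝ => s ^ 2 * C) (2 * s * C) s := by
    simpa using (hasDerivAt_pow 2 s).mul_const C
  exact h0.add h0'

theorem iteratedDeriv_quad (A B C : ℝ) :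
    iteratedDeriv 2 (fun s : ℝ => A + s * B + s ^ 2 * C) 0 = 2 * C := by
  have h1 : deriv (fun s : ℝ => A + s * B + s ^ 2 * C) = fun s => B + 2 * s * C := by
    funext s
    exact (hasDerivAt_quad A B C s).deriv
  rw [show (2 : ℕ) = 1 + 1 from rfl, iteratedDeriv_succ, iteratedDeriv_one, h1]
  have h2 : HasDerivAt (fun s : ℝ => B + 2 * s * C) (2 * C) 0 := by
    have := (((hasDerivAt_id (0 : ℝ)).const_mul 2).mul_const C).const_add B
    simpa using this
  exact h2.deriv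

theorem leviForm_rball (c p ξ : Cn n) (ρ : ℝ) : leviForm (rball c ρ) p ξ = ∑ i, ‖ξ i‖ ^ 2 := by
  unfold leviForm
  simp only [rball_line, iteratedDeriv_quad]
  have h1 : ∀ i, ‖(Complex.I • ξ) i‖ ^ 2 = ‖ξ i‖ ^ 2 := by
    intro i
    simp
  simp only [h1]
  ring

theorem levi_pos_rball (c p : Cn n) (ρ : ℝ) {ξ : Cn n} (hξ : ξ ≠ 0) :
    0 < leviForm (rball c ρ) p ξ := by
  rw [leviForm_rball]
  obtain ⟨i, hi⟩ : ∃ i, ξ i ≠ 0 := by
    by_contra hcon
    push Not at hcon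
    exact hξ (funext hcon)
  refine Finset.sum_pos' (fun i _ => by positivity) ⟨i, Finset.mem_univ _, ?_⟩
  have := norm_pos_iff.mpr hi
  positivity

theorem fderiv_rball_ne_zero {c p : Cn n} {ρ : ℝ} (hρ : 0 < ρ) (hp : rball c ρ p = 0) :
    fderiv ℝ (rball c ρ) p ≠ 0 := by
  intro h0
  have hd : HasFDerivAt (rball c ρ) (0 : Cn n →L[ℝ] ℝ) (p + (0 : ℝ) • (p - c)) := by
    rw [← h0]
    simpa using (((contDiff_rball c ρ 1).differentiable (by norm_num)) p).hasFDerivAt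
  have h1 : HasDerivAt (fun s : ℝ => p + s • (p - c)) (p - c) 0 := by
    simpa using ((hasDerivAt_id (0 : ℝ)).smul_const (p - c)).const_add p
  have h2 : HasDerivAt (fun s : ℝ => rball c ρ (p + s • (p - c)))
      ((0 : Cn n →L[ℝ] ℝ) (p - c)) 0 :=
    HasFDerivAt.comp_hasDerivAt (f := fun s : ℝ => p + s • (p - c)) (0 : ℝ) hd h1
  have h3 : (fun s : ℝ => rball c ρ (p + s • (p - c))) = fun s : ℝ => rball c ρ p +
      s * (∑ i, 2 * ((p i - c i).re * ((p - c) i).re + (p i - c i).im * ((p - c) i).im)) +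
      s ^ 2 * ∑ i, ‖(p - c) i‖ ^ 2 := by
    funext s
    exact rball_line c p (p - c) ρ s
  rw [h3] at h2
  have h4 := (hasDerivAt_quad (rball c ρ p)
    (∑ i, 2 * ((p i - c i).re * ((p - c) i).re + (p i - c i).im * ((p - c) i).im))
    (∑ i, ‖(p - c) i‖ ^ 2) 0).unique h2
  have h5 : ∑ i, 2 * ((p i - c i).re * ((p - c) i).re + (p i - c i).im * ((p - c) i).im) =
      2 * ∑ i, ‖p i - c i‖ ^ 2 := by
    rw [Finset.mul_sum]
    refine Finset.sum_congr rfl fun i _ => ?_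
    rw [← Complex.normSq_eq_norm_sq, Complex.normSq_apply]
    rfl
  rw [h5] at h4
  simp only [mul_zero, zero_mul, add_zero, zero_apply] at h4
  unfold rball at hp
  have : 0 < ρ ^ 2 := by positivity
  linarith

theorem isOpen_rball (c : Cn n) (ρ : ℝ) : IsOpen {z : Cn n | ∑ i, ‖z i - c i‖ ^ 2 < ρ ^ 2} :=
  isOpen_lt (by fun_prop) continuous_const

theorem mem_rball {c : Cn n} {ρ : ℝ} (z : Cn n) :
    z ∈ {z : Cn n | ∑ i, ‖z i - c i‖ ^ 2 < ρ ^ 2} ↔ rball c ρ z < 0 := by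
  unfold rball
  rw [Set.mem_ofPred_eq, sub_neg]

theorem isBounded_rball (c : Cn n) {ρ : ℝ} (hρ : 0 < ρ) :
    Bornology.IsBounded {z : Cn n | ∑ i, ‖z i - c i‖ ^ 2 < ρ ^ 2} := by
  refine (Metric.isBounded_closedBall (x := c) (r := ρ)).subset fun z hz => ?_
  rw [mem_closedBall, dist_pi_le_iff hρ.le]
  intro i
  rw [dist_eq_norm]
  have h1 : ‖z i - c i‖ ^ 2 ≤ ∑ i, ‖z i - c i‖ ^ 2 :=
    Finset.single_le_sum (f := fun i => ‖z i - c i‖ ^ 2) (fun i _ => by positivity)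
      (Finset.mem_univ i)
  have h2 : ‖z i - c i‖ ^ 2 ≤ ρ ^ 2 := h1.trans (le_of_lt hz)
  exact abs_le_of_sq_le_sq' h2 hρ.le |>.2

theorem rball_isLocal {c p : Cn n} {ρ : ℝ} (hρ : 0 < ρ)
    (hp : p ∈ frontier {z : Cn n | ∑ i, ‖z i - c i‖ ^ 2 < ρ ^ 2}) :
    IsLocalDefiningFunction {z : Cn n | ∑ i, ‖z i - c i‖ ^ 2 < ρ ^ 2} p (rball c ρ) := by
  have h0 : rball c ρ p = 0 := eq_zero_of_frontier (isOpen_rball c ρ) hp
    (contDiff_rball c ρ 0).continuous (Eventually.of_forall fun z => mem_rball z)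
  refine ⟨Set.univ, isOpen_univ, Set.mem_univ _, (contDiff_rball c ρ _).contDiffOn, ?_,
    fderiv_rball_ne_zero hρ h0⟩
  ext z
  simp only [Set.inter_univ, Set.mem_univ, true_and]
  exact mem_rball z

end Pool.Agent.Helper63.SCV
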