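import Pool.Agent.Helper63.Montel46c

set_option autoImplicit false
set_option linter.unusedSectionVars false

open MeasureTheory Filter Topology Asymptotics Metric
open scoped ENNReal NNReal

namespace Pool.Agent.Helper63.SCV

variable {n : ℕ}

theorem enorm_sq_eq (x : ℂ) : ‖x‖ₑ ^ 2 = ENNReal.ofReal (‖x‖ ^ 2) := by
  rw [ENNReal.ofReal_pow (norm_nonneg _), ofReal_norm]

theorem mass_eq {Ω : Set (Cn n)} (f : Cn n → ℂ) :
    mass Ω f = ∫⁻ z in Ω, ENNReal.ofReal (‖f z‖ ^ 2) := by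
  unfold mass
  simp only [enorm_sq_eq]

theorem bergmanNormSq_eq_mass {Ω : Set (Cn n)} {f : Cn n → ℂ}
    (hf : AEStronglyMeasurable f (volume.restrict Ω)) :
    bergmanNormSq Ω f = (mass Ω f).toReal := by
  have h0 : AEStronglyMeasurable (fun z => ‖f z‖ ^ 2) (volume.restrict Ω) := hf.norm.pow 2
  unfold bergmanNormSq
  rw [mass_eq, integral_eq_lintegral_of_nonneg_ae (ae_of_all _ fun z => by positivity) h0]

theorem inBergman_iff_mass {Ω : Set (Cn n)} (hΩ : IsOpen Ω) {f : Cn n → ℂ} :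
    InBergman Ω f ↔ DifferentiableOn ℂ f Ω ∧ mass Ω f < ⊤ := by
  unfold InBergman
  refine and_congr_right fun hd => ?_
  have hm : AEStronglyMeasurable f (volume.restrict Ω) :=
    hd.continuousOn.aestronglyMeasurable hΩ.measurableSet
  have h0 : AEStronglyMeasurable (fun z => ‖f z‖ ^ 2) (volume.restrict Ω) := hm.norm.pow 2
  have h1 : HasFiniteIntegral (fun z => ‖f z‖ ^ 2) (volume.restrict Ω) ↔ mass Ω f < ⊤ := by
    rw [mass_eq]
    unfold HasFiniteIntegral
    have : ∀ z, ‖‖f z‖ ^ 2‖ₑ = ENNReal.ofReal (‖f z‖ ^ 2) := fun z =>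
      Real.enorm_of_nonneg (by positivity)
    simp only [this]
  exact ⟨fun h => h1.mp h.2, fun h => ⟨h0, h1.mpr h⟩⟩

theorem sub_sq_bound (a b : ℂ) : ‖a - b‖ₑ ^ 2 ≤ 2 * (‖a‖ₑ ^ 2 + ‖b‖ₑ ^ 2) := by
  rw [enorm_sq_eq, enorm_sq_eq, enorm_sq_eq, ← ENNReal.ofReal_add (by positivity) (by positivity),
    ← ENNReal.ofReal_ofNat, ← ENNReal.ofReal_mul (by norm_num)]
  refine ENNReal.ofReal_le_ofReal ?_
  have h1 : ‖a - b‖ ≤ ‖a‖ + ‖b‖ := norm_sub_le a b
  have h2 : ‖a - b‖ ^ 2 ≤ (‖a‖ + ‖b‖) ^ 2 := pow_le_pow_left₀ (norm_nonneg _) h1 2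
  nlinarith [sq_nonneg (‖a‖ - ‖b‖)]

theorem mass_mono {A B : Set (Cn n)} (h : A ⊆ B) (f : Cn n → ℂ) : mass A f ≤ mass B f :=
  lintegral_mono_set h

theorem mass_sub_le {Ω : Set (Cn n)} (hΩ : IsOpen Ω) {f g : Cn n → ℂ}
    (hf : DifferentiableOn ℂ f Ω) :
    mass Ω (fun z => f z - g z) ≤ 2 * (mass Ω f + mass Ω g) := by
  have hm : AEMeasurable f (volume.restrict Ω) :=
    (hf.continuousOn.aestronglyMeasurable hΩ.measurableSet).aemeasurable
  calc mass Ω (fun z => f z - g z) ≤ ∫⁻ z in Ω, 2 * (‖f z‖ₑ ^ 2 + ‖g z‖ₑ ^ 2) :=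
        lintegral_mono fun z => sub_sq_bound _ _
    _ = 2 * ∫⁻ z in Ω, (‖f z‖ₑ ^ 2 + ‖g z‖ₑ ^ 2) := by
        rw [lintegral_const_mul' _ _ (by norm_num)]
    _ = 2 * (mass Ω f + mass Ω g) := by
        rw [lintegral_add_left' (hm.enorm.pow_const 2)]
        rfl

/-- Compactness of the restriction operator from small mass near the contact point. -/
theorem compact_of_mass {Ω₁ Ω₂ : Set (Cn n)} (h12 : Ω₂ ⊆ Ω₁) (hΩ₁ : IsOpen Ω₁)
    (hΩ₂ : IsOpen Ω₂) (hbd : Bornology.IsBounded Ω₂) {p : Cn n}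
    (hcl : closure Ω₂ \ {p} ⊆ Ω₁)
    (H : ∀ ε : ℝ≥0∞, ε ≠ 0 → ∃ U : Set (Cn n), IsOpen U ∧ p ∈ U ∧
      ∀ f : Cn n → ℂ, DifferentiableOn ℂ f Ω₁ → mass (Ω₂ ∩ U) f ≤ ε * mass Ω₁ f) :
    RestrictionIsCompact Ω₁ Ω₂ := by
  intro f hf hCex
  obtain ⟨C, hC⟩ := hCex
  set C' : ℝ≥0∞ := ENNReal.ofReal C with hC'
  have hC't : C' ≠ ⊤ := ENNReal.ofReal_ne_top
  have hd : ∀ j, DifferentiableOn ℂ (f j) Ω₁ := fun j => (hf j).1
  have hmeas : ∀ j, AEStronglyMeasurable (f j) (volume.restrict Ω₁) := fun j =>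
    (hd j).continuousOn.aestronglyMeasurable hΩ₁.measurableSet
  have hm : ∀ j, mass Ω₁ (f j) ≤ C' := by
    intro j
    have h1 := hC j
    rw [bergmanNormSq_eq_mass (hmeas j)] at h1
    have h2 := ((inBergman_iff_mass hΩ₁).mp (hf j)).2
    rw [hC']
    exact (ENNReal.le_ofReal_iff_toReal_le h2.ne (ENNReal.toReal_nonneg.trans h1)).mpr h1
  obtain ⟨g, φ, hφ, hgd, hlim⟩ := montel hΩ₁ hd hC't hm
  -- Fatou
  have hmg : mass Ω₁ g ≤ C' := by
    calc mass Ω₁ g = ∫⁻ z in Ω₁, liminf (fun j => ‖f (φ j) z‖ₑ ^ 2) atTop := by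
          unfold mass
          refine setLIntegral_congr_fun hΩ₁.measurableSet fun z hz => ?_
          have h1 : Tendsto (fun j => ‖f (φ j) z‖ₑ ^ 2) atTop (𝓝 (‖g z‖ₑ ^ 2)) :=
            ((ENNReal.continuous_pow 2).tendsto _).comp ((hlim z hz).enorm)
          exact h1.liminf_eq.symm
      _ ≤ liminf (fun j => ∫⁻ z in Ω₁, ‖f (φ j) z‖ₑ ^ 2) atTop :=
          lintegral_liminf_le' fun j => ((hmeas (φ j)).enorm.pow_const 2)
      _ ≤ C' := by
          refine liminf_le_of_frequently_le' ?_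
          exact Eventually.frequently (Eventually.of_forall fun j => hm (φ j))
  have hdiffmass : ∀ j, mass Ω₁ (fun z => f (φ j) z - g z) ≤ 4 * C' := by
    intro j
    refine (mass_sub_le hΩ₁ (hd (φ j))).trans ?_
    calc 2 * (mass Ω₁ (f (φ j)) + mass Ω₁ g) ≤ 2 * (C' + C') := by
          gcongr
          exact hm (φ j)
      _ = 4 * C' := by ring
  have hconv : Tendsto (fun j => mass Ω₂ (fun z => f (φ j) z - g z)) atTop (𝓝 0) := by
    rw [ENNReal.tendsto_nhds_zero]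
    intro ε hε
    have hε0 : ε ≠ 0 := hε.ne'
    by_cases hεt : ε = ⊤
    · subst hεt; exact Eventually.of_forall fun j => le_top
    -- the part near `p`
    have hden0 : (2 * (4 * C' + 1)) ≠ 0 := by simp
    have hdent : (2 * (4 * C' + 1)) ≠ ⊤ := by
      refine ENNReal.mul_ne_top (by norm_num) (ENNReal.add_ne_top.mpr ⟨?_, by norm_num⟩)
      exact ENNReal.mul_ne_top (by norm_num) hC't
    obtain ⟨U, hU, hpU, hUm⟩ := H (ε / (2 * (4 * C' + 1)))
      (ENNReal.div_ne_zero.mpr ⟨hε0, hdent⟩)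
    have hnear : ∀ j, mass (Ω₂ ∩ U) (fun z => f (φ j) z - g z) ≤ ε / 2 := by
      intro j
      refine (hUm _ ((hd (φ j)).sub hgd)).trans ?_
      calc ε / (2 * (4 * C' + 1)) * mass Ω₁ (fun z => f (φ j) z - g z)
          ≤ ε / (2 * (4 * C' + 1)) * (4 * C' + 1) := by
            gcongr
            exact (hdiffmass j).trans le_self_add
        _ = ε / 2 := by
            have h4 : (4 * C' + 1) ≠ 0 := by simp
            have h4t : (4 * C' + 1) ≠ ⊤ := by
              refine ENNReal.add_ne_top.mpr ⟨ENNReal.mul_ne_top (by norm_num) hC't, by norm_num⟩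
            rw [ENNReal.div_eq_inv_mul, ENNReal.mul_inv (Or.inl (by norm_num))
              (Or.inl (by norm_num)), ENNReal.div_eq_inv_mul]
            calc 2⁻¹ * (4 * C' + 1)⁻¹ * ε * (4 * C' + 1)
                = 2⁻¹ * ε * ((4 * C' + 1)⁻¹ * (4 * C' + 1)) := by ring
              _ = 2⁻¹ * ε := by rw [ENNReal.inv_mul_cancel h4 h4t, mul_one]
    -- the part away from `p`
    have hKc : IsCompact (closure Ω₂ \ U) :=
      (isCompact_of_isClosed_isBounded isClosed_closure hbd.closure).diff hU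
    have hKΩ : closure Ω₂ \ U ⊆ Ω₁ := by
      rintro z ⟨hz1, hz2⟩
      refine hcl ⟨hz1, ?_⟩
      rintro rfl
      exact hz2 hpU
    obtain ⟨s, hs, hsub⟩ := hKc.exists_thickening_subset_open hΩ₁ hKΩ
    have hball : ∀ z ∈ Ω₂ \ U, ball z s ⊆ Ω₁ := by
      rintro z ⟨hz1, hz2⟩
      refine (ball_subset_thickening ?_ s).trans hsub
      exact ⟨subset_closure hz1, hz2⟩
    set B : ℝ≥0∞ := 2 * (ENNReal.ofReal (bnd n C' s ^ 2) + ENNReal.ofReal (bnd n C' s ^ 2))
      with hB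
    have hfar : Tendsto (fun j => mass (Ω₂ \ U) (fun z => f (φ j) z - g z)) atTop (𝓝 0) := by
      have hmeasset : MeasurableSet (Ω₂ \ U) := hΩ₂.measurableSet.diff hU.measurableSet
      have h1 := tendsto_lintegral_of_dominated_convergence' (μ := volume.restrict (Ω₂ \ U))
        (F := fun j z => ‖f (φ j) z - g z‖ₑ ^ 2) (f := fun _ => 0) (fun _ => B) ?_ ?_ ?_ ?_
      · unfold mass
        simpa using h1
      · intro j
        have h2 : AEStronglyMeasurable (fun z => f (φ j) z - g z) (volume.restrict Ω₁) :=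
          (((hd (φ j)).sub hgd).continuousOn).aestronglyMeasurable hΩ₁.measurableSet
        have h3 := h2.mono_measure (Measure.restrict_mono
          (Set.sdiff_subset.trans h12 : Ω₂ \ U ⊆ Ω₁) le_rfl)
        exact h3.enorm.pow_const 2
      · intro j
        filter_upwards [ae_restrict_mem hmeasset] with z hz
        refine (sub_sq_bound _ _).trans ?_
        rw [hB, enorm_sq_eq, enorm_sq_eq]
        gcongr
        · exact norm_le_bnd hΩ₁ (hd (φ j)) hC't (hm (φ j)) hs (hball z hz)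
        · exact norm_le_bnd hΩ₁ hgd hC't hmg hs (hball z hz)
      · rw [lintegral_const, Measure.restrict_apply_univ]
        refine ENNReal.mul_ne_top ?_ ?_
        · exact ENNReal.mul_ne_top (by norm_num)
            (ENNReal.add_ne_top.mpr ⟨ENNReal.ofReal_ne_top, ENNReal.ofReal_ne_top⟩)
        · exact (hbd.subset Set.sdiff_subset).measure_lt_top.ne
      · filter_upwards [ae_restrict_mem hmeasset] with z hz
        have h4 : Tendsto (fun j => f (φ j) z - g z) atTop (𝓝 0) := by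
          have := (hlim z (h12 hz.1)).sub_const (g z)
          simpa using this
        have h5 := ((ENNReal.continuous_pow 2).tendsto _).comp h4.enorm
        simpa [Function.comp_def] using h5
    rw [ENNReal.tendsto_nhds_zero] at hfar
    filter_upwards [hfar (ε / 2) (ENNReal.half_pos hε0)] with j hj
    have hsplit : mass Ω₂ (fun z => f (φ j) z - g z) =
        mass (Ω₂ ∩ U) (fun z => f (φ j) z - g z) + mass (Ω₂ \ U) (fun z => f (φ j) z - g z) :=
      (lintegral_inter_add_sdiff _ _ hU.measurableSet).symm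
    rw [hsplit]
    calc mass (Ω₂ ∩ U) (fun z => f (φ j) z - g z) + mass (Ω₂ \ U) (fun z => f (φ j) z - g z)
        ≤ ε / 2 + ε / 2 := add_le_add (hnear j) hj
      _ = ε := ENNReal.add_halves ε
  refine ⟨g, φ, ?_, hφ, ?_⟩
  · exact (inBergman_iff_mass hΩ₂).mpr ⟨hgd.mono h12, (mass_mono h12 g).trans_lt
      (hmg.trans_lt hC't.lt_top)⟩
  · have h6 : ∀ j, bergmanNormSq Ω₂ (fun z => f (φ j) z - g z) =
        (mass Ω₂ (fun z => f (φ j) z - g z)).toReal := fun j =>
      bergmanNormSq_eq_mass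
        ((((hd (φ j)).sub hgd).mono h12).continuousOn.aestronglyMeasurable hΩ₂.measurableSet)
    simp only [h6]
    have h7 := (ENNReal.tendsto_toReal (ENNReal.zero_ne_top)).comp hconv
    simpa [Function.comp_def] using h7

end Pool.Agent.Helper63.SCV
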