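import Pool.Agent.Helper63.Flat46c

set_option autoImplicit false
set_option linter.unusedSectionVars false

open MeasureTheory Filter Topology Asymptotics Metric
open scoped ENNReal NNReal

namespace Pool.Agent.Helper63.SCV

variable {n : ℕ}

theorem mass_concave {Ω B : Set (Cn n)} (hΩ : IsOpen Ω) (hB : IsOpen B) (hBΩ : B ⊆ Ω)
    {r : Cn n → ℝ} (hr : ContDiff ℝ 2 r) {p : Cn n}
    (hrΩ : ∀ᶠ z in 𝓝 p, z ∈ Ω ↔ r z < 0)
    {ν ξ : Cn n} (hν : fderiv ℝ r p ν = 1) (hξ : cx (fderiv ℝ r p) ξ = 0) (hξ0 : ξ ≠ 0)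
    (hlevi : levi2 r p ξ < 0) {ε : ℝ≥0∞} (hε : ε ≠ 0) :
    ∃ U : Set (Cn n), IsOpen U ∧ p ∈ U ∧ ∀ f : Cn n → ℂ, DifferentiableOn ℂ f Ω →
      mass (B ∩ U) f ≤ ε * mass Ω f := by
  have hν0 := cx_ne_zero hν
  obtain ⟨α, L, hL, hαp, hα0⟩ := exists_alpha hr hν0 hξ
  have hαc : Continuous α := hL.continuous
  have hpi := Real.pi_pos
  have hξn : 0 < ‖ξ‖ := norm_pos_iff.mpr hξ0
  set κ : ℂ := (((fderiv ℝ (fderiv ℝ r) p ξ ξ -
          fderiv ℝ (fderiv ℝ r) p (Complex.I • ξ) (Complex.I • ξ)) / 4 : ℝ) : ℂ) -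
        Complex.I * (((fderiv ℝ (fderiv ℝ r) p ξ (Complex.I • ξ) +
          fderiv ℝ (fderiv ℝ r) p (Complex.I • ξ) ξ) / 4 : ℝ) : ℂ) with hκ
  set β : ℂ := -κ / cx (fderiv ℝ r p) ν with hβdef
  have hβ : β * cx (fderiv ℝ r p) ν = -κ := div_mul_cancel₀ _ hν0
  set l : ℝ := levi2 r p ξ with hl
  have hS1 := (expand_one (β := β) hr hαc hαp hα0 hβ).bound
    (show (0 : ℝ) < -l / 2 by linarith)
  have hS3 := (tendsto_FF (ξ := ξ) (ν := ν) (β := β) (p := p) hαc).eventually hrΩ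
  have hev := hS1.and hS3
  rw [nhds_prod_eq, Filter.eventually_prod_iff] at hev
  obtain ⟨P, hP, Q, hQ, hPQ⟩ := hev
  obtain ⟨η₀, hη₀, hη₀Q⟩ := Metric.eventually_nhds_iff_ball.mp hQ
  set η : ℝ := min η₀ (min (1 / (2 * (L * ‖ν‖ + 1))) (‖ξ‖ / (4 * (‖β‖ * ‖ν‖ + 1)))) with hη
  have hη0 : 0 < η := lt_min hη₀ (lt_min (by positivity) (by positivity))
  have hη1 : η ≤ η₀ := min_le_left _ _
  have hη2 : η ≤ 1 / (2 * (L * ‖ν‖ + 1)) := (min_le_right _ _).trans (min_le_left _ _)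
  have hη3 : η ≤ ‖ξ‖ / (4 * (‖β‖ * ‖ν‖ + 1)) := (min_le_right _ _).trans (min_le_right _ _)
  have hLν : ∀ ζ : ℂ, ‖ζ‖ ≤ η → ‖ζ‖ * (L * ‖ν‖) ≤ 1 / 2 := by
    intro ζ hζ
    calc ‖ζ‖ * (L * ‖ν‖) ≤ 1 / (2 * (L * ‖ν‖ + 1)) * (L * ‖ν‖ + 1) := by
          gcongr
          · exact hζ.trans hη2
          · linarith
      _ = 1 / 2 := by
          have : (L : ℝ) * ‖ν‖ + 1 ≠ 0 := by positivity
          field_simp
  obtain ⟨x, hx0, hx⟩ := exists_pos_real n hε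
  set τ : ℝ := ‖ξ‖ * η * Real.sqrt x / 8 with hτ
  have hτ0 : 0 < τ := by positivity
  obtain ⟨U, hU, hUo, hpU⟩ := _root_.eventually_nhds_iff.mp
    (hP.and (hrΩ.and (ball_mem_nhds p hτ0)))
  refine ⟨U, hUo, hpU, fun f hf => ?_⟩
  -- the kernel
  set v : Cn n × ℂ → Cn n := fun x => x.1 - p - (x.2 • ξ + (x.2 ^ 2 * β) • ν) with hv
  have hvc : Continuous v := by fun_prop
  set S : Set (Cn n × ℂ) := {x | ‖v x‖ ≤ 2 * τ ∧ ‖x.2‖ < η} with hS
  have hSm : MeasurableSet S := by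
    have h1 : IsClosed {x : Cn n × ℂ | ‖v x‖ ≤ 2 * τ} := isClosed_le hvc.norm continuous_const
    have h2 : IsOpen {x : Cn n × ℂ | ‖x.2‖ < η} := isOpen_lt (by fun_prop) continuous_const
    exact h1.measurableSet.inter h2.measurableSet
  set k : Cn n × ℂ → ℝ≥0∞ := S.indicator fun _ => (volume (ball (0 : ℂ) η))⁻¹ with hk
  have hkm : Measurable k := measurable_const.indicator hSm
  refine (mass_le_of_discs hΩ (A := B ∩ U) (hB.measurableSet.inter hUo.measurableSet)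
    (Set.inter_subset_left.trans hBΩ) (F := FF ξ ν α β) (continuous_FF hαc) (η := η)
    FF_zero FF_diff ?_ (s := fun _ => η) ?_ ?_ ?_ (k := k) hkm ?_
    (ε := ENNReal.ofReal x) ?_ hf).trans ?_
  · intro ζ hζ
    rw [mem_ball_zero_iff] at hζ
    exact anti_FF hL (hLν ζ hζ.le)
  · intro w _
    exact hη0
  · intro w _
    exact le_rfl
  · intro w hw ζ hζ
    obtain ⟨hPw, hΩw, hw3⟩ := hU w hw.2
    have hζη : ζ ∈ ball (0 : ℂ) η₀ := ball_subset_ball hη1 hζ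
    obtain ⟨h1, h3⟩ := hPQ hPw (hη₀Q ζ hζη)
    simp only [norm_pow, Real.norm_eq_abs, abs_norm] at h1
    have hl' : (1 / 4) * (fderiv ℝ (fderiv ℝ r) p ξ ξ +
        fderiv ℝ (fderiv ℝ r) p (Complex.I • ξ) (Complex.I • ξ)) = l := rfl
    rw [hl'] at h1
    have h4 := (abs_le.mp h1).2
    have h5 : r w < 0 := hΩw.mp (hBΩ hw.1)
    refine h3.mpr ?_
    have h6 : l * ‖ζ‖ ^ 2 ≤ 0 := mul_nonpos_of_nonpos_of_nonneg hlevi.le (by positivity)
    have h7 : -l / 2 * ‖ζ‖ ^ 2 = -(l * ‖ζ‖ ^ 2) / 2 := by ring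
    rw [h7] at h4
    linarith only [h4, h5, h6]
  · intro w hw ζ hζ
    obtain ⟨hPw, hΩw, hw3⟩ := hU w hw.2
    rw [mem_ball_zero_iff] at hζ
    have hw4 : ‖w - p‖ < τ := by
      rw [← dist_eq_norm]; exact hw3
    have hmem : (FF ξ ν α β (w, ζ), ζ) ∈ S := by
      refine ⟨?_, hζ⟩
      have h1 : v (FF ξ ν α β (w, ζ), ζ) = (w - p) + (ζ * α w) • ν := by
        simp only [hv, FF, uu, add_smul]
        abel
      have h2 : ‖α w‖ ≤ L * ‖w - p‖ := by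
        have h3 := hL.dist_le_mul w p
        rwa [dist_eq_norm, dist_eq_norm, hαp, sub_zero] at h3
      rw [h1]
      calc ‖(w - p) + (ζ * α w) • ν‖ ≤ ‖w - p‖ + ‖(ζ * α w) • ν‖ := norm_add_le _ _
        _ = ‖w - p‖ + ‖ζ‖ * ‖α w‖ * ‖ν‖ := by rw [norm_smul, norm_mul]
        _ ≤ ‖w - p‖ + ‖ζ‖ * (L * ‖w - p‖) * ‖ν‖ := by gcongr
        _ = ‖w - p‖ + (‖ζ‖ * (L * ‖ν‖)) * ‖w - p‖ := by ring
        _ ≤ ‖w - p‖ + 1 / 2 * ‖w - p‖ := by
            gcongr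
            exact hLν ζ hζ.le
        _ ≤ 2 * τ := by linarith
    rw [hk, Set.indicator_of_mem hmem]
  · intro z _
    have hSz : MeasurableSet {ζ : ℂ | (z, ζ) ∈ S} := hSm.preimage (by fun_prop)
    have hvol : volume {ζ : ℂ | (z, ζ) ∈ S} ≤ ENNReal.ofReal (Real.pi * (8 * τ / ‖ξ‖) ^ 2) := by
      by_cases hne : ∃ ζ₀ : ℂ, (z, ζ₀) ∈ S
      · obtain ⟨ζ₀, hζ₀⟩ := hne
        have hsub : {ζ : ℂ | (z, ζ) ∈ S} ⊆ closedBall ζ₀ (8 * τ / ‖ξ‖) := by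
          intro ζ hζ
          rw [mem_closedBall, dist_eq_norm, le_div_iff₀ hξn]
          have h1 : ‖v (z, ζ₀) - v (z, ζ)‖ ≤ 4 * τ := by
            calc ‖v (z, ζ₀) - v (z, ζ)‖ ≤ ‖v (z, ζ₀)‖ + ‖v (z, ζ)‖ := norm_sub_le _ _
              _ ≤ 2 * τ + 2 * τ := add_le_add hζ₀.1 hζ.1
              _ = 4 * τ := by ring
          have h2 : v (z, ζ₀) - v (z, ζ) = (ζ - ζ₀) • ξ + ((ζ - ζ₀) * ((ζ + ζ₀) * β)) • ν := by
            simp only [hv]
            have e1 : (ζ - ζ₀) * ((ζ + ζ₀) * β) = ζ ^ 2 * β - ζ₀ ^ 2 * β := by ring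
            rw [e1, sub_smul, sub_smul]
            abel
          have h3 : ‖((ζ - ζ₀) * ((ζ + ζ₀) * β)) • ν‖ ≤ ‖ζ - ζ₀‖ * (‖ξ‖ / 2) := by
            have h4 : ‖ζ + ζ₀‖ ≤ 2 * η := by
              calc ‖ζ + ζ₀‖ ≤ ‖ζ‖ + ‖ζ₀‖ := norm_add_le _ _
                _ ≤ η + η := add_le_add hζ.2.le hζ₀.2.le
                _ = 2 * η := by ring
            rw [norm_smul, norm_mul, norm_mul]
            calc ‖ζ - ζ₀‖ * (‖ζ + ζ₀‖ * ‖β‖) * ‖ν‖
                ≤ ‖ζ - ζ₀‖ * ((2 * (‖ξ‖ / (4 * (‖β‖ * ‖ν‖ + 1)))) * ‖β‖) * ‖ν‖ := by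
                  gcongr
                  exact h4.trans (by linarith)
              _ = ‖ζ - ζ₀‖ * ((‖ξ‖ / 2) * (‖β‖ * ‖ν‖ / (‖β‖ * ‖ν‖ + 1))) := by
                  field_simp
                  ring
              _ ≤ ‖ζ - ζ₀‖ * ((‖ξ‖ / 2) * 1) := by
                  gcongr
                  rw [div_le_one (by positivity)]
                  linarith
              _ = ‖ζ - ζ₀‖ * (‖ξ‖ / 2) := by ring
          have h5 : ‖(ζ - ζ₀) • ξ‖ - ‖((ζ - ζ₀) * ((ζ + ζ₀) * β)) • ν‖ ≤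
              ‖v (z, ζ₀) - v (z, ζ)‖ := by
            rw [h2]
            have := norm_sub_norm_le ((ζ - ζ₀) • ξ) (-(((ζ - ζ₀) * ((ζ + ζ₀) * β)) • ν))
            rwa [norm_neg, sub_neg_eq_add] at this
          rw [norm_smul] at h5
          linarith
        calc volume {ζ : ℂ | (z, ζ) ∈ S} ≤ volume (closedBall ζ₀ (8 * τ / ‖ξ‖)) :=
              measure_mono hsub
          _ = ENNReal.ofReal (Real.pi * (8 * τ / ‖ξ‖) ^ 2) := by
              rw [Complex.volume_closedBall, mul_comm, ENNReal.ofReal_mul Real.pi_pos.le,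
                ← ENNReal.ofReal_pow (by positivity)]
              congr 1
              rw [← NNReal.coe_real_pi, ENNReal.ofReal_coe_nnreal]
      · have : {ζ : ℂ | (z, ζ) ∈ S} = ∅ := by
          ext ζ
          simp only [Set.mem_ofPred_eq, Set.mem_empty_iff_false, iff_false]
          exact fun h => hne ⟨ζ, h⟩
        rw [this, measure_empty]
        exact zero_le
    calc ∫⁻ ζ in ball (0 : ℂ) η, k (z, ζ) ≤ ∫⁻ ζ, k (z, ζ) := setLIntegral_le_lintegral _ _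
      _ = ∫⁻ ζ, {ζ : ℂ | (z, ζ) ∈ S}.indicator (fun _ => (volume (ball (0 : ℂ) η))⁻¹) ζ := rfl
      _ = (volume (ball (0 : ℂ) η))⁻¹ * volume {ζ : ℂ | (z, ζ) ∈ S} :=
          lintegral_indicator_const hSz _
      _ ≤ ENNReal.ofReal (1 / (Real.pi * η ^ 2)) *
            ENNReal.ofReal (Real.pi * (8 * τ / ‖ξ‖) ^ 2) := by
          rw [volume_ball_inv hη0]
          gcongr
      _ = ENNReal.ofReal x := by
          rw [← ENNReal.ofReal_mul (by positivity)]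
          congr 1
          have h8 : 8 * τ / ‖ξ‖ = η * Real.sqrt x := by
            rw [hτ]; field_simp
          rw [h8, mul_pow, Real.sq_sqrt hx0.le]
          field_simp
  · gcongr

end Pool.Agent.Helper63.SCV
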