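import Pool.Agent.Helper63.Flat46c

set_option autoImplicit false
set_option linter.unusedSectionVars false

open MeasureTheory Filter Topology Asymptotics Metric
open scoped ENNReal NNReal

namespace Pool.Agent.Helper63.SCV

variable {n : ℕ}

theorem mass_flat {Ω B : Set (Cn n)} (hΩ : IsOpen Ω) (hB : IsOpen B) (hBΩ : B ⊆ Ω)
    {r rB : Cn n → ℝ} (hr : ContDiff ℝ 2 r) (hrB : ContDiff ℝ 2 rB) {p : Cn n}
    (hrΩ : ∀ᶠ z in 𝓝 p, z ∈ Ω ↔ r z < 0) (hrBB : ∀ᶠ z in 𝓝 p, z ∈ B ↔ rB z < 0)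
    (hrp : r p = 0) {ν ξ : Cn n} (hν : fderiv ℝ r p ν = 1) (hξ : cx (fderiv ℝ r p) ξ = 0)
    {lam : ℝ} (hlam : 0 < lam) (hg : fderiv ℝ rB p = lam • fderiv ℝ r p)
    (hlevi : levi2 r p ξ = 0)
    (ha : 0 < fderiv ℝ (fderiv ℝ fun z => rB z - lam * r z) p ξ ξ)
    {ε : ℝ≥0∞} (hε : ε ≠ 0) :
    ∃ U : Set (Cn n), IsOpen U ∧ p ∈ U ∧ ∀ f : Cn n → ℂ, DifferentiableOn ℂ f Ω →
      mass (B ∩ U) f ≤ ε * mass Ω f := by
  have hν0 := cx_ne_zero hν
  have hdr : fderiv ℝ r p ≠ 0 := by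
    intro h0
    rw [h0] at hν
    simp at hν
  obtain ⟨α, L, hL, hαp, hα0⟩ := exists_alpha hr hν0 hξ
  have hαc : Continuous α := hL.continuous
  set κ : ℂ := (((fderiv ℝ (fderiv ℝ r) p ξ ξ -
          fderiv ℝ (fderiv ℝ r) p (Complex.I • ξ) (Complex.I • ξ)) / 4 : ℝ) : ℂ) -
        Complex.I * (((fderiv ℝ (fderiv ℝ r) p ξ (Complex.I • ξ) +
          fderiv ℝ (fderiv ℝ r) p (Complex.I • ξ) ξ) / 4 : ℝ) : ℂ) with hκ
  set β : ℂ := -κ / cx (fderiv ℝ r p) ν with hβdef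
  have hβ : β * cx (fderiv ℝ r p) ν = -κ := div_mul_cancel₀ _ hν0
  obtain ⟨C, hC0, hC⟩ := depth_compare hr hrB hdr hrp hrΩ hrBB hBΩ
  set g : Cn n → ℝ := fun z => rB z - lam * r z with hgdef
  have hgC : ContDiff ℝ 2 g := hrB.sub (contDiff_const.mul hr)
  have hgp : fderiv ℝ g p = 0 := by
    have h1 : HasFDerivAt g (fderiv ℝ rB p - lam • fderiv ℝ r p) p :=
      ((hrB.differentiable (by norm_num)) p).hasFDerivAt.sub
        (((hr.differentiable (by norm_num)) p).hasFDerivAt.const_mul lam)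
    rw [h1.fderiv, hg, sub_self]
  set H := fderiv ℝ (fderiv ℝ g) p with hH
  set a : ℝ := 1 / 2 * H ξ ξ with hadef
  have ha0 : 0 < a := by positivity
  set M : ℝ := 2 * (C + lam + 1) with hM
  have hM0 : 0 < M := by positivity
  have hpi := Real.pi_pos
  obtain ⟨x, hx0, hx⟩ := exists_pos_real n hε
  set K : ℝ := 16 * Real.sqrt (M / a) / (Real.pi * x) + 1 with hK
  have hK0 : 0 < K := by positivity
  have hKx : 16 * Real.sqrt (M / a) / (Real.pi * K) ≤ x := by
    rw [div_le_iff₀ (by positivity)]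
    have h1 : 16 * Real.sqrt (M / a) = (16 * Real.sqrt (M / a) / (Real.pi * x)) *
        (Real.pi * x) := by field_simp
    calc 16 * Real.sqrt (M / a) = (16 * Real.sqrt (M / a) / (Real.pi * x)) *
        (Real.pi * x) := h1
      _ ≤ K * (Real.pi * x) := by gcongr; rw [hK]; linarith
      _ = x * (Real.pi * K) := by ring
  -- expansions
  have hS1 := (expand_one (β := β) hr hαc hαp hα0 hβ).bound
    (show (0 : ℝ) < 1 / (2 * K ^ 2) by positivity)
  have hS2 := (expand_two (ξ := ξ) (ν := ν) (β := β) hgC hL hαp hgp).bound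
    (show (0 : ℝ) < 1 / K ^ 2 by positivity)
  have hS3 := (tendsto_FF (ξ := ξ) (ν := ν) (β := β) (p := p) hαc).eventually hrΩ
  have hev := hS1.and (hS2.and hS3)
  rw [nhds_prod_eq, Filter.eventually_prod_iff] at hev
  obtain ⟨P, hP, Q, hQ, hPQ⟩ := hev
  obtain ⟨η₀, hη₀, hη₀Q⟩ := Metric.eventually_nhds_iff_ball.mp hQ
  set η : ℝ := min η₀ (1 / (2 * (L * ‖ν‖ + 1))) with hη
  have hη0 : 0 < η := lt_min hη₀ (by positivity)
  have hsmall : ∀ᶠ w in 𝓝 p, K * Real.sqrt (-r w) < η := by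
    have h1 : Continuous fun w => K * Real.sqrt (-r w) := by
      have := hr.continuous
      fun_prop
    have h2 := h1.tendsto p
    simp only [hrp, neg_zero, Real.sqrt_zero, mul_zero] at h2
    exact h2.eventually (gt_mem_nhds hη0)
  obtain ⟨U, hU, hUo, hpU⟩ := _root_.eventually_nhds_iff.mp
    (hP.and (hsmall.and (hrΩ.and (hrBB.and hC))))
  refine ⟨U, hUo, hpU, fun f hf => ?_⟩
  -- depth
  have hdepth : ∀ w ∈ B ∩ U, 0 < -r w := by
    intro w hw
    have := (hU w hw.2).2.2.1.mp (hBΩ hw.1)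
    linarith
  -- the polynomial and the kernel
  set q : Cn n × ℂ → ℝ := fun x => g x.1 - fderiv ℝ g x.1 (x.2 • ξ + (x.2 * α x.1) • ν) +
    (1 / 2) * H (x.2 • ξ) (x.2 • ξ) with hq
  have hqc : Continuous q := by
    have hc1 : Continuous (fun x : Cn n × ℂ => fderiv ℝ g x.1) :=
      (hgC.continuous_fderiv (by norm_num)).comp continuous_fst
    have hc2 : Continuous fun x : Cn n × ℂ => x.2 • ξ + (x.2 * α x.1) • ν := by fun_prop
    have hc3 : Continuous fun x : Cn n × ℂ => x.2 • ξ := by fun_prop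
    exact ((hgC.continuous.comp continuous_fst).sub (hc1.clm_apply hc2)).add
      (continuous_const.mul ((H.continuous.comp hc3).clm_apply hc3))
  set S : Set (Cn n × ℂ) := {x | 0 < -r x.1 ∧ ‖x.2‖ ^ 2 < 2 * K ^ 2 * (-r x.1) ∧
    |q x| ≤ M * (-r x.1)} with hS
  have hrc : Continuous fun x : Cn n × ℂ => -r x.1 := (hr.continuous.comp continuous_fst).neg
  have hSm : MeasurableSet S := by
    have h1 : IsOpen {x : Cn n × ℂ | 0 < -r x.1} := isOpen_lt continuous_const hrc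
    have h2 : IsOpen {x : Cn n × ℂ | ‖x.2‖ ^ 2 < 2 * K ^ 2 * (-r x.1)} :=
      isOpen_lt (by fun_prop) (continuous_const.mul hrc)
    have h3 : IsClosed {x : Cn n × ℂ | |q x| ≤ M * (-r x.1)} :=
      isClosed_le hqc.abs (continuous_const.mul hrc)
    exact h1.measurableSet.inter (h2.measurableSet.inter h3.measurableSet)
  set k : Cn n × ℂ → ℝ≥0∞ := S.indicator fun x =>
    ENNReal.ofReal (2 / (Real.pi * K ^ 2 * (-r x.1))) with hk
  have hkm : Measurable k := by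
    refine Measurable.indicator ?_ hSm
    refine ENNReal.measurable_ofReal.comp ?_
    exact measurable_const.div (continuous_const.mul hrc).measurable
  -- main facts about `F(w,ζ)`
  have hmain : ∀ w ∈ B ∩ U, ∀ ζ ∈ ball (0 : ℂ) (K * Real.sqrt (-r w)),
      FF ξ ν α β (w, ζ) ∈ Ω ∧ (-r w) / 2 ≤ -r (FF ξ ν α β (w, ζ)) ∧
      -r (FF ξ ν α β (w, ζ)) ≤ 2 * (-r w) ∧ ‖ζ‖ ^ 2 < K ^ 2 * (-r w) ∧
      |q (FF ξ ν α β (w, ζ), ζ)| ≤ (C + lam + 1) * (-r w) := by
    intro w hw ζ hζ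
    have hd := hdepth w hw
    set D : ℝ := -r w with hD
    obtain ⟨hPw, hsw, hΩw, hBw, hCw⟩ := hU w hw.2
    rw [mem_ball_zero_iff] at hζ
    have hζη : ζ ∈ ball (0 : ℂ) η₀ := by
      rw [mem_ball_zero_iff]
      exact hζ.trans (hsw.trans_le (min_le_left _ _))
    obtain ⟨h1, h2, h3⟩ := hPQ hPw (hη₀Q ζ hζη)
    have hζ2 : ‖ζ‖ ^ 2 < K ^ 2 * D := by
      have h4 : ‖ζ‖ ^ 2 < (K * Real.sqrt D) ^ 2 := by
        gcongr
      rwa [mul_pow, Real.sq_sqrt hd.le] at h4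
    simp only [norm_pow, Real.norm_eq_abs, abs_norm] at h1 h2
    unfold levi2 at hlevi
    rw [hlevi, zero_mul, sub_zero] at h1
    have h5 : 1 / (2 * K ^ 2) * ‖ζ‖ ^ 2 ≤ D / 2 := by
      calc 1 / (2 * K ^ 2) * ‖ζ‖ ^ 2 ≤ 1 / (2 * K ^ 2) * (K ^ 2 * D) := by gcongr
        _ = D / 2 := by field_simp
    have h6 := abs_le.mp (h1.trans h5)
    have h7 : r (FF ξ ν α β (w, ζ)) < 0 := by linarith [h6.2]
    have h8 : 1 / K ^ 2 * ‖ζ‖ ^ 2 ≤ D := by
      calc 1 / K ^ 2 * ‖ζ‖ ^ 2 ≤ 1 / K ^ 2 * (K ^ 2 * D) := by gcongr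
        _ = D := by field_simp
    have h9 := abs_le.mp (h2.trans h8)
    have h10 : |g w| ≤ (C + lam) * D := by
      have h11 : rB w < 0 := hBw.mp hw.1
      have h12 := hCw hw.1
      have h13 : r w = -D := by rw [hD, neg_neg]
      have h14 : 0 < lam * D := mul_pos hlam hd
      have h15 : 0 ≤ C * D := mul_nonneg hC0 hd.le
      have h16 : (C + lam) * D = C * D + lam * D := by ring
      have h17 : g w = rB w + lam * D := by
        simp only [hgdef]
        rw [h13]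
        ring
      rw [abs_le, h16, h17]
      constructor
      · linarith only [h12, h14]
      · linarith only [h11, h15]
    have h11 := abs_le.mp h10
    refine ⟨h3.mpr h7, by linarith [h6.2], by linarith [h6.1], hζ2, ?_⟩
    rw [abs_le]
    simp only [hq]
    constructor
    · linarith [h9.1, h9.2, h11.1, h11.2]
    · linarith [h9.1, h9.2, h11.1, h11.2]
  refine (mass_le_of_discs hΩ (A := B ∩ U) (hB.measurableSet.inter hUo.measurableSet)
    (Set.inter_subset_left.trans hBΩ) (F := FF ξ ν α β) (continuous_FF hαc) (η := η)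
    FF_zero FF_diff ?_ (s := fun w => K * Real.sqrt (-r w)) ?_ ?_ ?_ (k := k) hkm ?_
    (ε := ENNReal.ofReal x) ?_ hf).trans ?_
  · intro ζ hζ
    refine anti_FF hL ?_
    rw [mem_ball_zero_iff] at hζ
    have h1 : ‖ζ‖ ≤ 1 / (2 * (L * ‖ν‖ + 1)) := hζ.le.trans (min_le_right _ _)
    calc ‖ζ‖ * (L * ‖ν‖) ≤ 1 / (2 * (L * ‖ν‖ + 1)) * (L * ‖ν‖ + 1) := by
          gcongr
          linarith
      _ = 1 / 2 := by
          have : (L : ℝ) * ‖ν‖ + 1 ≠ 0 := by positivity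
          field_simp
  · intro w hw
    have := hdepth w hw
    positivity
  · intro w hw
    exact (hU w hw.2).2.1.le
  · intro w hw ζ hζ
    exact (hmain w hw ζ hζ).1
  · intro w hw ζ hζ
    have hd := hdepth w hw
    obtain ⟨h1, h2, h3, h4, h5⟩ := hmain w hw ζ hζ
    have h6 : 0 < -r (FF ξ ν α β (w, ζ)) := by linarith
    have hmem : (FF ξ ν α β (w, ζ), ζ) ∈ S := by
      refine ⟨h6, ?_, ?_⟩
      · simp only
        calc ‖ζ‖ ^ 2 < K ^ 2 * (-r w) := h4
          _ ≤ K ^ 2 * (2 * (-r (FF ξ ν α β (w, ζ)))) := by gcongr; linarith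
          _ = 2 * K ^ 2 * (-r (FF ξ ν α β (w, ζ))) := by ring
      · refine h5.trans ?_
        simp only [hM]
        calc (C + lam + 1) * (-r w) ≤ (C + lam + 1) * (2 * (-r (FF ξ ν α β (w, ζ)))) := by
              gcongr; linarith
          _ = 2 * (C + lam + 1) * (-r (FF ξ ν α β (w, ζ))) := by ring
    rw [hk, Set.indicator_of_mem hmem, volume_ball_inv (by positivity)]
    refine ENNReal.ofReal_le_ofReal ?_
    rw [mul_pow, Real.sq_sqrt hd.le]
    rw [div_le_div_iff₀ (by positivity) (by positivity)]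
    simp only [one_mul]
    calc Real.pi * K ^ 2 * (-r (FF ξ ν α β (w, ζ)))
        ≤ Real.pi * K ^ 2 * (2 * (-r w)) := by gcongr
      _ = 2 * (Real.pi * (K ^ 2 * (-r w))) := by ring
  · intro z _
    by_cases hz : 0 < -r z
    · calc ∫⁻ ζ in ball (0 : ℂ) η, k (z, ζ) ≤ ∫⁻ ζ, k (z, ζ) := setLIntegral_le_lintegral _ _
        _ = ∫⁻ ζ, {ζ : ℂ | ‖ζ‖ ^ 2 < 2 * K ^ 2 * (-r z) ∧ |q (z, ζ)| ≤ M * (-r z)}.indicator
              (fun _ => ENNReal.ofReal (2 / (Real.pi * K ^ 2 * (-r z)))) ζ := by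
            refine lintegral_congr fun ζ => ?_
            by_cases hζ : ζ ∈ {ζ : ℂ | ‖ζ‖ ^ 2 < 2 * K ^ 2 * (-r z) ∧ |q (z, ζ)| ≤ M * (-r z)}
            · rw [Set.indicator_of_mem hζ, hk, Set.indicator_of_mem]
              exact ⟨hz, hζ.1, hζ.2⟩
            · rw [Set.indicator_of_notMem hζ, hk, Set.indicator_of_notMem]
              intro hmem
              exact hζ ⟨hmem.2.1, hmem.2.2⟩
        _ ≤ ENNReal.ofReal (16 * Real.sqrt (M / a) / (Real.pi * K)) := by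
            refine kernel_integral (Q := fun ζ => q (z, ζ)) ha0 hK0 hz hM0.le
              (hqc.comp (by fun_prop)) ?_
            intro y
            exact quad_poly H z y
        _ ≤ ENNReal.ofReal x := ENNReal.ofReal_le_ofReal hKx
    · have h0 : ∀ ζ : ℂ, k (z, ζ) = 0 := by
        intro ζ
        rw [hk, Set.indicator_of_notMem]
        intro hmem
        exact hz hmem.1
      simp [h0]
  · gcongr

end Pool.Agent.Helper63.SCV
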