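import Pool.Agent.Helper63.DefsLevi46c
import Pool.Agent.Helper63.MassFlat46c
import Pool.Agent.Helper63.MassConcave46c
import Pool.Agent.Helper63.Criterion46c

set_option autoImplicit false
set_option linter.unusedSectionVars false

open MeasureTheory Filter Topology Asymptotics Metric
open scoped ENNReal NNReal

namespace Pool.Agent.Helper63.SCV

variable {n : ℕ}

theorem iteratedDeriv_line {r : Cn n → ℝ} (hr : ContDiff ℝ 2 r) (p ξ : Cn n) :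
    iteratedDeriv 2 (fun s : ℝ => r (p + s • ξ)) 0 = fderiv ℝ (fderiv ℝ r) p ξ ξ := by
  have hline : ∀ s : ℝ, HasDerivAt (fun s : ℝ => p + s • ξ) ξ s := by
    intro s
    simpa using ((hasDerivAt_id s).smul_const ξ).const_add p
  have h1 : deriv (fun s : ℝ => r (p + s • ξ)) = fun s => fderiv ℝ r (p + s • ξ) ξ := by
    funext s
    have e3 : HasFDerivAt r (fderiv ℝ r (p + s • ξ)) (p + s • ξ) :=
      ((hr.differentiable (by norm_num)) _).hasFDerivAt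
    exact (e3.comp_hasDerivAt s (hline s)).deriv
  have h2 : ContDiff ℝ 1 (fderiv ℝ r) := hr.fderiv_right (by norm_num)
  rw [show (2 : ℕ) = 1 + 1 from rfl, iteratedDeriv_succ, iteratedDeriv_one, h1]
  have h3 : HasFDerivAt (fderiv ℝ r) (fderiv ℝ (fderiv ℝ r) p) (p + (0 : ℝ) • ξ) := by
    simpa using ((h2.differentiable (by norm_num)) p).hasFDerivAt
  have h4 : HasDerivAt (fun s : ℝ => fderiv ℝ r (p + s • ξ))
      (fderiv ℝ (fderiv ℝ r) p ξ) 0 := h3.comp_hasDerivAt (0 : ℝ) (hline 0)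
  have h5 := h4.clm_apply (hasDerivAt_const (0 : ℝ) ξ)
  simpa using h5.deriv

theorem leviForm_eq {r : Cn n → ℝ} (hr : ContDiff ℝ 2 r) (p ξ : Cn n) :
    leviForm r p ξ = levi2 r p ξ := by
  unfold leviForm levi2
  rw [iteratedDeriv_line hr, iteratedDeriv_line hr]

theorem leviForm_congr {r s : Cn n → ℝ} {p : Cn n} (h : r =ᶠ[𝓝 p] s) (ξ : Cn n) :
    leviForm r p ξ = leviForm s p ξ := by
  have h1 : ∀ v : Cn n, (fun t : ℝ => r (p + t • v)) =ᶠ[𝓝 0] fun t : ℝ => s (p + t • v) := by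
    intro v
    have h2 : Tendsto (fun t : ℝ => p + t • v) (𝓝 0) (𝓝 p) := by
      have : Continuous fun t : ℝ => p + t • v := by fun_prop
      simpa using this.tendsto 0
    exact h2.eventually h
  unfold leviForm
  rw [(h1 ξ).iteratedDeriv_eq 2, (h1 _).iteratedDeriv_eq 2]

/-- Globalisation of a local defining function. -/
theorem exists_global {Ω : Set (Cn n)} {p : Cn n} {r : Cn n → ℝ}
    (h : IsLocalDefiningFunction Ω p r) :
    ∃ s : Cn n → ℝ, ContDiff ℝ 2 s ∧ r =ᶠ[𝓝 p] s ∧ (∀ᶠ z in 𝓝 p, z ∈ Ω ↔ s z < 0) ∧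
      fderiv ℝ s p ≠ 0 := by
  obtain ⟨U, hU, hpU, hr, hΩU, hd⟩ := h
  obtain ⟨η, hη, hball⟩ := Metric.isOpen_iff.mp hU p hpU
  let b : ContDiffBump p := ⟨η / 4, η / 2, by positivity, by linarith⟩
  have hrs : r =ᶠ[𝓝 p] fun z => b z * r z := by
    filter_upwards [b.eventuallyEq_one] with z hz
    have hz' : b z = 1 := hz
    simp [hz']
  refine ⟨fun z => b z * r z, ?_, hrs, ?_, ?_⟩
  · rw [contDiff_iff_contDiffAt]
    intro z
    by_cases hz : z ∈ U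
    · have h1 : ContDiffAt ℝ 2 r z :=
        ((hr.contDiffAt (hU.mem_nhds hz)).of_le (WithTop.coe_le_coe.mpr (show (2 : ℕ∞) ≤ ⊤ from le_top)))
      exact b.contDiff.contDiffAt.mul h1
    · have h1 : z ∉ tsupport b := by
        rw [b.tsupport_eq]
        intro hcon
        refine hz (hball ?_)
        rw [mem_closedBall] at hcon
        rw [mem_ball]
        calc dist z p ≤ η / 2 := hcon
          _ < η := by linarith
      have h2 : (fun z => b z * r z) =ᶠ[𝓝 z] fun _ => 0 := by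
        have h3 := notMem_tsupport_iff_eventuallyEq.mp h1
        filter_upwards [h3] with y hy
        simp [hy]
      exact contDiffAt_const.congr_of_eventuallyEq h2
  · filter_upwards [hrs, hU.mem_nhds hpU] with z hz hzU
    rw [← hz]
    have h1 : z ∈ Ω ∩ U ↔ z ∈ {z | z ∈ U ∧ r z < 0} := by rw [hΩU]
    simp only [Set.mem_inter_iff, Set.mem_ofPred_eq] at h1
    tauto
  · rw [← hrs.fderiv_eq]
    exact hd

theorem eq_zero_of_frontier {Ω : Set (Cn n)} (hΩ : IsOpen Ω) {p : Cn n} (hp : p ∈ frontier Ω)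
    {s : Cn n → ℝ} (hs : Continuous s) (h : ∀ᶠ z in 𝓝 p, z ∈ Ω ↔ s z < 0) : s p = 0 := by
  have h1 : p ∉ Ω := by
    rw [hΩ.frontier_eq] at hp
    exact hp.2
  have h2 : ¬ s p < 0 := fun hc => h1 (h.self_of_nhds.mpr hc)
  refine le_antisymm ?_ (not_lt.mp h2)
  by_contra hcon
  push Not at hcon
  have h3 : ∀ᶠ z in 𝓝 p, 0 < s z := hs.continuousAt.eventually (lt_mem_nhds hcon)
  have h4 : ∃ᶠ z in 𝓝 p, z ∈ Ω := mem_closure_iff_frequently.mp hp.1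
  obtain ⟨z, hz1, hz2, hz3⟩ := (h4.and_eventually (h.and h3)).exists
  have := hz2.mp hz1
  linarith

theorem levi2_I (r : Cn n → ℝ) (p ξ : Cn n) : levi2 r p (Complex.I • ξ) = levi2 r p ξ := by
  unfold levi2
  have h1 : Complex.I • (Complex.I • ξ) = -ξ := by
    rw [smul_smul, Complex.I_mul_I, neg_one_smul]
  rw [h1]
  simp only [map_neg, neg_apply, neg_neg]
  ring

theorem cx_zero_iff (a : Cn n →L[ℝ] ℝ) (ξ : Cn n) :
    cx a ξ = 0 ↔ a ξ = 0 ∧ a (Complex.I • ξ) = 0 := by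
  unfold cx
  rw [Complex.ext_iff]
  simp

theorem mass_small {Ω B : Set (Cn n)} (hΩ : IsOpen Ω) (hB : IsOpen B) (hBΩ : B ⊆ Ω)
    {r rB : Cn n → ℝ} (hr : ContDiff ℝ 2 r) (hrB : ContDiff ℝ 2 rB) {p : Cn n}
    (hrΩ : ∀ᶠ z in 𝓝 p, z ∈ Ω ↔ r z < 0) (hrBB : ∀ᶠ z in 𝓝 p, z ∈ B ↔ rB z < 0)
    (hrp : r p = 0) (hdr : fderiv ℝ r p ≠ 0) {ξ : Cn n} (hξ0 : ξ ≠ 0)
    {lam : ℝ} (hlam : 0 < lam) (hg : fderiv ℝ rB p = lam • fderiv ℝ r p)
    (hξ : cx (fderiv ℝ r p) ξ = 0)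
    (hlevi : levi2 r p ξ ≤ 0) (hleviB : 0 < levi2 rB p ξ) (ε : ℝ≥0∞) (hε : ε ≠ 0) :
    ∃ U : Set (Cn n), IsOpen U ∧ p ∈ U ∧ ∀ f : Cn n → ℂ, DifferentiableOn ℂ f Ω →
      mass (B ∩ U) f ≤ ε * mass Ω f := by
  obtain ⟨ν, hν⟩ := exists_transversal hdr
  rcases hlevi.lt_or_eq with h0 | h0
  · exact mass_concave hΩ hB hBΩ hr hrΩ hν hξ hξ0 h0 hε
  · have h1 : ContDiff ℝ 1 (fderiv ℝ r) := hr.fderiv_right (by norm_num)
    have h2 : ContDiff ℝ 1 (fderiv ℝ rB) := hrB.fderiv_right (by norm_num)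
    have h3 : fderiv ℝ (fun z => rB z - lam * r z) = fun z => fderiv ℝ rB z -
        lam • fderiv ℝ r z := by
      funext z
      exact (((hrB.differentiable (by norm_num)) z).hasFDerivAt.sub
        (((hr.differentiable (by norm_num)) z).hasFDerivAt.const_mul lam)).fderiv
    have h4 : fderiv ℝ (fderiv ℝ fun z => rB z - lam * r z) p =
        fderiv ℝ (fderiv ℝ rB) p - lam • fderiv ℝ (fderiv ℝ r) p := by
      rw [h3]
      exact (((h2.differentiable (by norm_num)) p).hasFDerivAt.sub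
        (((h1.differentiable (by norm_num)) p).hasFDerivAt.const_smul lam)).fderiv
    have h5 : 0 < fderiv ℝ (fderiv ℝ fun z => rB z - lam * r z) p ξ ξ +
        fderiv ℝ (fderiv ℝ fun z => rB z - lam * r z) p (Complex.I • ξ) (Complex.I • ξ) := by
      rw [h4]
      simp only [sub_apply, smul_apply, smul_eq_mul]
      unfold levi2 at h0 hleviB
      have h6 : fderiv ℝ (fderiv ℝ r) p ξ ξ +
        fderiv ℝ (fderiv ℝ r) p (Complex.I • ξ) (Complex.I • ξ) = 0 := by linarith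
      have h7 : lam * fderiv ℝ (fderiv ℝ r) p ξ ξ +
        lam * fderiv ℝ (fderiv ℝ r) p (Complex.I • ξ) (Complex.I • ξ) = 0 := by
        rw [← mul_add, h6, mul_zero]
      linarith
    by_cases h6 : 0 < fderiv ℝ (fderiv ℝ fun z => rB z - lam * r z) p ξ ξ
    · exact mass_flat hΩ hB hBΩ hr hrB hrΩ hrBB hrp hν hξ hlam hg h0 h6 hε
    · have h7 : 0 < fderiv ℝ (fderiv ℝ fun z => rB z - lam * r z) p
          (Complex.I • ξ) (Complex.I • ξ) := by linarith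
      refine mass_flat hΩ hB hBΩ hr hrB hrΩ hrBB hrp hν (ξ := Complex.I • ξ) ?_ hlam hg ?_ h7 hε
      · rw [cx_zero_iff] at hξ ⊢
        refine ⟨hξ.2, ?_⟩
        have h8 : Complex.I • (Complex.I • ξ) = -ξ := by
          rw [smul_smul, Complex.I_mul_I, neg_one_smul]
        rw [h8, map_neg, hξ.1, neg_zero]
      · rw [levi2_I, h0]

theorem closure_diff_subset {Ω₁ Ω₂ : Set (Cn n)} {p : Cn n} (hΩ₁ : IsOpen Ω₁) (h12 : Ω₂ ⊆ Ω₁)
    (hp : frontier Ω₁ ∩ frontier Ω₂ = {p}) : closure Ω₂ \ {p} ⊆ Ω₁ := by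
  rintro z ⟨hz1, hz2⟩
  by_contra hcon
  have h1 : z ∈ frontier Ω₁ := by
    rw [hΩ₁.frontier_eq]
    exact ⟨closure_mono h12 hz1, hcon⟩
  have h2 : z ∈ frontier Ω₂ := by
    refine ⟨hz1, fun h => hcon (h12 (interior_subset h))⟩
  have h3 : z ∈ frontier Ω₁ ∩ frontier Ω₂ := ⟨h1, h2⟩
  rw [hp] at h3
  exact hz2 h3

theorem core {Ω₁ Ω₂ : Set (Cn n)} {p : Cn n} (hΩ₁ : IsOpen Ω₁) (hΩ₂ : IsOpen Ω₂)
    (hb : Bornology.IsBounded Ω₂) (h12 : Ω₂ ⊆ Ω₁) (hp : frontier Ω₁ ∩ frontier Ω₂ = {p})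
    {r₂ : Cn n → ℝ} (h₂ : IsLocalDefiningFunction Ω₂ p r₂)
    (hlevi : ∀ ξ : Cn n, ξ ≠ 0 → fderiv ℝ r₂ p ξ = 0 → fderiv ℝ r₂ p (Complex.I • ξ) = 0 →
      0 < leviForm r₂ p ξ)
    (hR : ¬ RestrictionIsCompact Ω₁ Ω₂) {r₁ : Cn n → ℝ} (h₁ : IsLocalDefiningFunction Ω₁ p r₁)
    {ξ : Cn n} (hξ : ξ ≠ 0) (hξ1 : fderiv ℝ r₁ p ξ = 0)
    (hξ2 : fderiv ℝ r₁ p (Complex.I • ξ) = 0) : 0 < leviForm r₁ p ξ := by
  by_contra hneg
  push Not at hneg
  apply hR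
  have hpf : p ∈ frontier Ω₁ ∩ frontier Ω₂ := by rw [hp]; rfl
  obtain ⟨s₁, hs₁, hrs₁, hs₁Ω, hds₁⟩ := exists_global h₁
  obtain ⟨s₂, hs₂, hrs₂, hs₂Ω, hds₂⟩ := exists_global h₂
  have hs₁p : s₁ p = 0 := eq_zero_of_frontier hΩ₁ hpf.1 hs₁.continuous hs₁Ω
  have hs₂p : s₂ p = 0 := eq_zero_of_frontier hΩ₂ hpf.2 hs₂.continuous hs₂Ω
  have himp : ∀ᶠ z in 𝓝 p, s₂ z < 0 → s₁ z < 0 := by
    filter_upwards [hs₁Ω, hs₂Ω] with z h3 h4 h5
    exact h3.mp (h12 (h4.mpr h5))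
  obtain ⟨lam, hlam, hlin⟩ := fderiv_proportional ((hs₁.differentiable (by norm_num)) p)
    ((hs₂.differentiable (by norm_num)) p) hs₁p hs₂p hds₁ hds₂ himp
  rw [hrs₁.fderiv_eq] at hξ1 hξ2
  have hξc : cx (fderiv ℝ s₁ p) ξ = 0 := (cx_zero_iff _ _).mpr ⟨hξ1, hξ2⟩
  have hl1 : levi2 s₁ p ξ ≤ 0 := by
    rw [← leviForm_eq hs₁, ← leviForm_congr hrs₁]
    exact hneg
  have hl2 : 0 < levi2 s₂ p ξ := by
    rw [← leviForm_eq hs₂, ← leviForm_congr hrs₂]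
    refine hlevi ξ hξ ?_ ?_
    · rw [hrs₂.fderiv_eq, hlin, smul_apply, hξ1, smul_zero]
    · rw [hrs₂.fderiv_eq, hlin, smul_apply, hξ2, smul_zero]
  exact compact_of_mass h12 hΩ₁ hΩ₂ hb (closure_diff_subset hΩ₁ h12 hp)
    (mass_small hΩ₁ hΩ₂ h12 hs₁ hs₂ hs₁Ω hs₂Ω hs₁p hds₁ hξ hlam hlin hξc hl1 hl2)

end Pool.Agent.Helper63.SCV
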