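import Mathlib

/-!
Definitions for problem MP_46c13c_an (restriction operators between Bergman spaces
and D'Angelo type).  Everything takes place in `ℂⁿ = Fin n → ℂ`, with Lebesgue measure
`volume`.
-/

set_option autoImplicit false

open MeasureTheory Filter Topology
open scoped ENNReal ContDiff

namespace Pool.Agent.Helper63.SCV

/-- Complex Euclidean space `ℂⁿ`. -/
abbrev Cn (n : ℕ) : Type := Fin n → ℂ

/-- `r` is a `C^∞` local defining function of `Ω` near `p`: on some open neighbourhood `U`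
of `p` it is `C^∞`, `Ω ∩ U = {z ∈ U : r z < 0}`, and `dr(p) ≠ 0`. -/
def IsLocalDefiningFunction {n : ℕ} (Ω : Set (Cn n)) (p : Cn n) (r : Cn n → ℝ) : Prop :=
  ∃ U : Set (Cn n), IsOpen U ∧ p ∈ U ∧ ContDiffOn ℝ ∞ r U ∧
    Ω ∩ U = {z | z ∈ U ∧ r z < 0} ∧ fderiv ℝ r p ≠ 0

/-- The sub-mean value property of plurisubharmonic functions: for every closed affine disc
`{a + ζ b : |ζ| ≤ 1}` contained in `Ω`, the value of `φ` at the centre is at most the average
of `φ` over the boundary circle.  (A continuous function on the open set `Ω` is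
plurisubharmonic iff it has this property.) -/
def HasSubMeanValueProperty {n : ℕ} (φ : Cn n → ℝ) (Ω : Set (Cn n)) : Prop :=
  ∀ a b : Cn n, (∀ ζ : ℂ, ‖ζ‖ ≤ 1 → a + ζ • b ∈ Ω) →
    φ a ≤ Real.circleAverage (fun ζ : ℂ => φ (a + ζ • b)) 0 1

/-- An open set is pseudoconvex if it has a continuous plurisubharmonic exhaustion function. -/
def IsPseudoconvex {n : ℕ} (Ω : Set (Cn n)) : Prop :=
  ∃ φ : Cn n → ℝ, ContinuousOn φ Ω ∧ HasSubMeanValueProperty φ Ω ∧
    ∀ c : ℝ, IsCompact {z | z ∈ Ω ∧ φ z ≤ c}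

/-- Smooth bounded pseudoconvex domains. -/
structure IsSmoothBoundedPseudoconvex {n : ℕ} (Ω : Set (Cn n)) : Prop where
  isOpen : IsOpen Ω
  isConnected : IsConnected Ω
  isBounded : Bornology.IsBounded Ω
  smooth_boundary : ∀ p ∈ frontier Ω, ∃ r : Cn n → ℝ, IsLocalDefiningFunction Ω p r
  pseudoconvex : IsPseudoconvex Ω

/-- `f` restricts to an element of the Bergman space `A²(Ω)`: it is holomorphic on `Ω` and
square integrable over `Ω`. -/
def InBergman {n : ℕ} (Ω : Set (Cn n)) (f : Cn n → ℂ) : Prop :=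
  DifferentiableOn ℂ f Ω ∧ IntegrableOn (fun z => ‖f z‖ ^ 2) Ω volume

/-- The square of the norm of `A²(Ω)`. -/
noncomputable def bergmanNormSq {n : ℕ} (Ω : Set (Cn n)) (f : Cn n → ℂ) : ℝ :=
  ∫ z in Ω, ‖f z‖ ^ 2

/-- For `Ω₂ ⊆ Ω₁`: the restriction operator `R : A²(Ω₁) → A²(Ω₂)`, `R f = f|_{Ω₂}`, is
compact, i.e. every bounded sequence in `A²(Ω₁)` has a subsequence whose restrictions to `Ω₂`
converge in the norm of `A²(Ω₂)`. -/
def RestrictionIsCompact {n : ℕ} (Ω₁ Ω₂ : Set (Cn n)) : Prop :=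
  ∀ f : ℕ → Cn n → ℂ, (∀ j, InBergman Ω₁ (f j)) → (∃ C : ℝ, ∀ j, bergmanNormSq Ω₁ (f j) ≤ C) →
    ∃ (g : Cn n → ℂ) (φ : ℕ → ℕ), InBergman Ω₂ g ∧ StrictMono φ ∧
      Tendsto (fun j => bergmanNormSq Ω₂ (fun z => f (φ j) z - g z)) atTop (𝓝 0)

/-- Order of vanishing at `0`: the supremum of all `m` with `g(t) = O(|t|^m)` as `t → 0`. -/
noncomputable def vanishingOrder {E : Type*} [NormedAddCommGroup E] (g : ℂ → E) : ℕ∞ :=
  ⨆ (m : ℕ) (_ : g =O[𝓝 0] fun t : ℂ => ‖t‖ ^ m), (m : ℕ∞)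

/-- The D'Angelo (1-)type at `p`, computed with the local defining function `r`:
the supremum of `ν(r ∘ γ) / ν(γ - p)` over all nonconstant germs at `0` of holomorphic maps
`γ` into `ℂⁿ` with `γ 0 = p`. -/
noncomputable def dangeloType {n : ℕ} (r : Cn n → ℝ) (p : Cn n) : ℝ≥0∞ :=
  ⨆ (γ : ℂ → Cn n) (_ : AnalyticAt ℂ γ 0) (_ : γ 0 = p) (_ : ¬ ∀ᶠ t in 𝓝 0, γ t = p),
    ((vanishingOrder fun t => r (γ t) : ℕ∞) : ℝ≥0∞) /
      ((vanishingOrder fun t => γ t - p : ℕ∞) : ℝ≥0∞)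

end Pool.Agent.Helper63.SCV
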