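import Pool.Agent.Helper63.Defs46c

/-!
The Levi form and strict pseudoconvexity (for problem MP_46c13c_an, question Q2).
-/

set_option autoImplicit false

namespace Pool.Agent.Helper63.SCV

/-- The Levi form `∑ ∂²r/∂z_j∂z̄_k (p) ξ_j ξ̄_k` of the `C²` function `r` at `p`, in the
direction `ξ ∈ ℂⁿ`: it equals one quarter of the Laplacian at `ζ = 0` of the function
`ζ ↦ r (p + ζ ξ)` of one complex variable `ζ = s + i t`. -/
noncomputable def leviForm {n : ℕ} (r : Cn n → ℝ) (p ξ : Cn n) : ℝ :=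
  (1 / 4) * (iteratedDeriv 2 (fun s : ℝ => r (p + s • ξ)) 0 +
    iteratedDeriv 2 (fun t : ℝ => r (p + t • (Complex.I • ξ))) 0)

/-- The boundary of `Ω` is smooth and strictly pseudoconvex at `p`: there is a `C^∞` local
defining function at `p`, and for every such function `r` the Levi form of `r` at `p` is
positive on every nonzero vector `ξ` of the complex tangent space
`{ξ : dr(p)(ξ) = 0 = dr(p)(iξ)}`. -/
def IsStrictlyPseudoconvexAt {n : ℕ} (Ω : Set (Cn n)) (p : Cn n) : Prop :=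
  (∃ r : Cn n → ℝ, IsLocalDefiningFunction Ω p r) ∧
  ∀ r : Cn n → ℝ, IsLocalDefiningFunction Ω p r →
    ∀ ξ : Cn n, ξ ≠ 0 → fderiv ℝ r p ξ = 0 → fderiv ℝ r p (Complex.I • ξ) = 0 →
      0 < leviForm r p ξ

end Pool.Agent.Helper63.SCV
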