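import Pool.Agent.Helper63.Local46c

set_option autoImplicit false
set_option linter.unusedSectionVars false

open MeasureTheory Filter Topology Asymptotics Metric
open scoped ENNReal NNReal

namespace Pool.Agent.Helper63.SCV

variable {n : ℕ}

theorem contDiff_cx {r : Cn n → ℝ} (hr : ContDiff ℝ 2 r) (v : Cn n) :
    ContDiff ℝ 1 fun w => cx (fderiv ℝ r w) v := by
  have h1 : ContDiff ℝ 1 (fderiv ℝ r) := hr.fderiv_right (by norm_num)
  unfold cx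
  have h2 : ∀ u : Cn n, ContDiff ℝ 1 fun w => ((fderiv ℝ r w u : ℝ) : ℂ) := fun u =>
    Complex.ofRealCLM.contDiff.comp (h1.clm_apply contDiff_const)
  exact (h2 v).sub (contDiff_const.mul (h2 _))

/-- The correction making the discs tangent to the level sets. -/
theorem exists_alpha {r : Cn n → ℝ} (hr : ContDiff ℝ 2 r) {p ξ ν : Cn n}
    (hν : cx (fderiv ℝ r p) ν ≠ 0) (hξ : cx (fderiv ℝ r p) ξ = 0) :
    ∃ (α : Cn n → ℂ) (L : ℝ≥0), LipschitzWith L α ∧ α p = 0 ∧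
      ∀ᶠ w in 𝓝 p, cx (fderiv ℝ r w) ξ + α w * cx (fderiv ℝ r w) ν = 0 := by
  set α₀ : Cn n → ℂ := fun w => -cx (fderiv ℝ r w) ξ / cx (fderiv ℝ r w) ν with hα₀
  have h1 : ContDiffAt ℝ 1 α₀ p := by
    have h0 : α₀ = fun w => -cx (fderiv ℝ r w) ξ * (cx (fderiv ℝ r w) ν)⁻¹ := by
      funext w
      exact div_eq_mul_inv _ _
    rw [h0]
    exact ((contDiff_cx hr ξ).contDiffAt.neg).mul ((contDiff_cx hr ν).contDiffAt.inv hν)
  have h2 : HasStrictFDerivAt α₀ (fderiv ℝ α₀ p) p := h1.hasStrictFDerivAt (by norm_num)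
  obtain ⟨K, T, hT, hLip⟩ := h2.exists_lipschitzOnWith
  obtain ⟨α, hα, hαT⟩ := hLip.extend_finite_dimension
  refine ⟨α, _, hα, ?_, ?_⟩
  · rw [← hαT (mem_of_mem_nhds hT)]
    simp [hα₀, hξ]
  · have h3 : ∀ᶠ w in 𝓝 p, cx (fderiv ℝ r w) ν ≠ 0 :=
      ((contDiff_cx hr ν).continuous.continuousAt).eventually_ne hν
    filter_upwards [h3, hT] with w hw hwT
    rw [← hαT hwT, hα₀]
    field_simp
    ring

section
variable {ξ ν : Cn n} {α : Cn n → ℂ} {β : ℂ} {p : Cn n}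

theorem FF_zero (w : Cn n) : FF ξ ν α β (w, 0) = w := by simp [FF, uu]

theorem FF_diff (w : Cn n) : Differentiable ℂ fun ζ : ℂ => FF ξ ν α β (w, ζ) := by
  change Differentiable ℂ fun ζ : ℂ => w + (ζ • ξ + (ζ * α w + ζ ^ 2 * β) • ν)
  fun_prop

theorem anti_FF {L : ℝ≥0} (hL : LipschitzWith L α) {ζ : ℂ} (hζ : ‖ζ‖ * (L * ‖ν‖) ≤ 1 / 2) :
    AntilipschitzWith 2 fun w => FF ξ ν α β (w, ζ) := by
  refine AntilipschitzWith.of_le_mul_dist fun x y => ?_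
  have h1 : FF ξ ν α β (x, ζ) - FF ξ ν α β (y, ζ) = (x - y) - (ζ * (α y - α x)) • ν := by
    unfold FF uu
    simp only [add_smul, mul_sub, sub_smul]
    abel
  have h2 : ‖(ζ * (α y - α x)) • ν‖ ≤ 1 / 2 * ‖x - y‖ := by
    rw [norm_smul, norm_mul]
    have h3 := hL.dist_le_mul y x
    rw [dist_eq_norm, dist_eq_norm, norm_sub_rev y x] at h3
    calc ‖ζ‖ * ‖α y - α x‖ * ‖ν‖ ≤ ‖ζ‖ * (L * ‖x - y‖) * ‖ν‖ := by gcongr
      _ = (‖ζ‖ * (L * ‖ν‖)) * ‖x - y‖ := by ring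
      _ ≤ 1 / 2 * ‖x - y‖ := by gcongr
  rw [dist_eq_norm, dist_eq_norm, h1]
  have h4 : ‖x - y‖ - ‖(ζ * (α y - α x)) • ν‖ ≤ ‖(x - y) - (ζ * (α y - α x)) • ν‖ :=
    norm_sub_norm_le _ _
  push_cast
  linarith

end

end Pool.Agent.Helper63.SCV
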