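import Pool.Agent.Helper63.Defs46c

set_option autoImplicit false
set_option linter.unusedSectionVars false

open MeasureTheory Filter Topology
open scoped ENNReal ContDiff

namespace Pool.Agent.Helper63.SCV

variable {n : ℕ} [NeZero n] {ι : Type*} [Fintype ι]

/-- The function `z ↦ Re z₀ + ∑ |hᵢ(z)|²`. -/
noncomputable def rho (h : ι → Cn n → ℂ) (z : Cn n) : ℝ := (z 0).re + ∑ i, ‖h i z‖ ^ 2

/-- The domain `{rho < 0}`. -/
def dom (h : ι → Cn n → ℂ) : Set (Cn n) := {z | rho h z < 0}

/-- Structural hypotheses on the family `h`. -/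
structure Good (h : ι → Cn n → ℂ) (d : ι → ℕ) (a : Fin n → ℕ) : Prop where
  smooth : ∀ i, ContDiff ℂ ∞ (h i)
  one_le : ∀ i, 1 ≤ d i
  hom : ∀ i (t : ℝ) (z : Cn n), h i (t • z) = (t : ℂ) ^ d i * h i z
  a_zero : a 0 = 1
  a_pos : ∀ j, a j ≠ 0
  coord : ∀ j, ∃ i, ∀ z : Cn n, ‖h i z‖ = ‖z j‖ ^ a j

section
variable {h : ι → Cn n → ℂ} {d : ι → ℕ} {a : Fin n → ℕ}

theorem Good.contDiff_rho (H : Good h d a) : ContDiff ℝ ∞ (rho h) := by
  unfold rho
  refine ContDiff.add ?_ ?_
  · exact Complex.reCLM.contDiff.comp (contDiff_apply ℝ ℂ (0 : Fin n))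
  · exact ContDiff.sum fun i _ => ((H.smooth i).restrict_scalars ℝ).norm_sq ℝ

theorem Good.continuous_rho (H : Good h d a) : Continuous (rho h) :=
  H.contDiff_rho.continuous

theorem Good.rho_smul (H : Good h d a) (t : ℝ) (z : Cn n) :
    rho h (t • z) = t * (z 0).re + ∑ i, (t ^ 2) ^ d i * ‖h i z‖ ^ 2 := by
  unfold rho
  congr 1
  · simp
  · refine Finset.sum_congr rfl fun i _ => ?_
    rw [H.hom, norm_mul, norm_pow, Complex.norm_real, mul_pow, ← pow_mul, ← pow_mul,
      mul_comm (d i) 2, pow_mul, Real.norm_eq_abs, sq_abs, ← pow_mul]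

theorem Good.hasDerivAt (H : Good h d a) (z : Cn n) (t : ℝ) :
    HasDerivAt (fun s : ℝ => rho h (s • z))
      ((z 0).re + ∑ i, (2 * d i * t ^ (2 * d i - 1)) * ‖h i z‖ ^ 2) t := by
  have h1 : (fun s : ℝ => rho h (s • z)) =
      fun s : ℝ => s * (z 0).re + ∑ i, s ^ (2 * d i) * ‖h i z‖ ^ 2 := by
    funext s
    rw [H.rho_smul]
    simp only [pow_mul]
  rw [h1]
  refine HasDerivAt.add ?_ ?_
  · simpa using (hasDerivAt_id t).mul_const (z 0).re
  · refine HasDerivAt.fun_sum fun i _ => ?_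
    have := (hasDerivAt_pow (2 * d i) t).mul_const (‖h i z‖ ^ 2)
    simpa using this

theorem Good.sum_pos (H : Good h d a) {z : Cn n} (hz : z ≠ 0) : 0 < ∑ i, ‖h i z‖ ^ 2 := by
  obtain ⟨j, hj⟩ : ∃ j, z j ≠ 0 := by
    by_contra hcon
    push Not at hcon
    exact hz (funext hcon)
  obtain ⟨i, hi⟩ := H.coord j
  refine Finset.sum_pos' (fun i _ => by positivity) ⟨i, Finset.mem_univ i, ?_⟩
  rw [hi]
  have : 0 < ‖z j‖ := norm_pos_iff.mpr hj
  positivity

theorem Good.h_zero (H : Good h d a) (i : ι) : h i 0 = 0 := by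
  have h1 := H.hom i 0 0
  have h2 : d i ≠ 0 := Nat.one_le_iff_ne_zero.mp (H.one_le i)
  simpa [h2] using h1

theorem Good.rho_zero (H : Good h d a) : rho h (0 : Cn n) = 0 := by
  simp [rho, H.h_zero]

theorem Good.fderiv_rho_ne_zero (H : Good h d a) {z : Cn n} (hz : rho h z = 0) :
    fderiv ℝ (rho h) z ≠ 0 := by
  intro hcon
  have hdiff : DifferentiableAt ℝ (rho h) z :=
    (H.contDiff_rho.differentiable (by simp)) z
  by_cases h0 : z = 0
  · subst h0
    set w : Cn n := Pi.single 0 1 with hw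
    have h1 := H.hasDerivAt w 0
    have h2 : HasDerivAt (fun s : ℝ => rho h (s • w)) 0 0 := by
      have h3 : HasFDerivAt (rho h) (fderiv ℝ (rho h) 0) ((0 : ℝ) • w) := by
        simpa using hdiff.hasFDerivAt
      have h4 : HasDerivAt (fun s : ℝ => s • w) w 0 := by
        simpa using (hasDerivAt_id (0 : ℝ)).smul_const w
      have h5 := h3.comp_hasDerivAt (0 : ℝ) h4
      rw [hcon] at h5
      exact h5
    have h6 := h1.unique h2
    have h7 : ∀ i, (2 * (d i : ℝ) * (0 : ℝ) ^ (2 * d i - 1)) * ‖h i w‖ ^ 2 = 0 := by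
      intro i
      have : 2 * d i - 1 ≠ 0 := by have := H.one_le i; omega
      simp [this]
    rw [Finset.sum_eq_zero (fun i _ => h7 i)] at h6
    simp [hw] at h6
  · have h1 := H.hasDerivAt z 1
    have h2 : HasDerivAt (fun s : ℝ => rho h (s • z)) 0 1 := by
      have h3 : HasFDerivAt (rho h) (fderiv ℝ (rho h) z) ((1 : ℝ) • z) := by
        simpa using hdiff.hasFDerivAt
      have h4 : HasDerivAt (fun s : ℝ => s • z) z 1 := by
        simpa using (hasDerivAt_id (1 : ℝ)).smul_const z
      have h5 := h3.comp_hasDerivAt (1 : ℝ) h4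
      rw [hcon] at h5
      exact h5
    have h6 := h1.unique h2
    have h7 : ∑ i, ‖h i z‖ ^ 2 < ∑ i, (2 * (d i : ℝ) * (1 : ℝ) ^ (2 * d i - 1)) * ‖h i z‖ ^ 2 := by
      have h8 := H.sum_pos h0
      have h9 : ∑ i, 2 * ‖h i z‖ ^ 2 ≤
          ∑ i, (2 * (d i : ℝ) * (1 : ℝ) ^ (2 * d i - 1)) * ‖h i z‖ ^ 2 := by
        refine Finset.sum_le_sum fun i _ => ?_
        have h10 : (1 : ℝ) ≤ d i := by exact_mod_cast H.one_le i
        have h11 : 0 ≤ ‖h i z‖ ^ 2 := by positivity
        rw [one_pow]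
        nlinarith
      rw [← Finset.mul_sum] at h9
      linarith
    unfold rho at hz
    linarith

theorem Good.isOpen_dom (H : Good h d a) : IsOpen (dom h) :=
  isOpen_lt H.continuous_rho continuous_const

theorem Good.frontier_subset (H : Good h d a) : frontier (dom h) ⊆ {z | rho h z = 0} :=
  frontier_lt_subset_eq H.continuous_rho continuous_const

theorem Good.norm_h_zero_coord (H : Good h d a) (z : Cn n) :
    ‖z 0‖ ^ 2 ≤ ∑ i, ‖h i z‖ ^ 2 := by
  obtain ⟨i, hi⟩ := H.coord 0
  have h1 : ‖h i z‖ ^ 2 ≤ ∑ i, ‖h i z‖ ^ 2 :=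
    Finset.single_le_sum (f := fun i => ‖h i z‖ ^ 2) (fun i _ => by positivity)
      (Finset.mem_univ i)
  rwa [hi, H.a_zero, pow_one] at h1

theorem Good.coord_le (H : Good h d a) (z : Cn n) (j : Fin n) :
    (‖z j‖ ^ a j) ^ 2 ≤ ∑ i, ‖h i z‖ ^ 2 := by
  obtain ⟨i, hi⟩ := H.coord j
  have h1 : ‖h i z‖ ^ 2 ≤ ∑ i, ‖h i z‖ ^ 2 :=
    Finset.single_le_sum (f := fun i => ‖h i z‖ ^ 2) (fun i _ => by positivity)
      (Finset.mem_univ i)
  rwa [hi] at h1

theorem Good.norm_lt_one_of_rho_nonpos (H : Good h d a) {z : Cn n} (hz : rho h z ≤ 0) :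
    ‖z‖ ≤ 1 := by
  have h1 := H.norm_h_zero_coord z
  have h2 : -(z 0).re ≤ ‖z 0‖ := by
    have := Complex.abs_re_le_norm (z 0)
    exact (neg_le_abs _).trans this
  unfold rho at hz
  have h3 : ‖z 0‖ ≤ 1 := by
    by_contra hcon
    push Not at hcon
    nlinarith [norm_nonneg (z 0)]
  have h4 : ∑ i, ‖h i z‖ ^ 2 ≤ 1 := by linarith
  refine (pi_norm_le_iff_of_nonneg zero_le_one).mpr fun j => ?_
  have h5 := (H.coord_le z j).trans h4
  rw [← pow_mul] at h5
  by_contra hcon
  push Not at hcon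
  have h6 : a j * 2 ≠ 0 := by have := H.a_pos j; omega
  exact absurd h5 (not_le.mpr (one_lt_pow₀ hcon h6))

theorem Good.isBounded (H : Good h d a) : Bornology.IsBounded (dom h) := by
  refine (Metric.isBounded_closedBall (x := (0 : Cn n)) (r := 1)).subset fun z hz => ?_
  rw [mem_closedBall_zero_iff]
  exact H.norm_lt_one_of_rho_nonpos (le_of_lt hz)

theorem Good.smul_mem (H : Good h d a) {z : Cn n} (hz : z ∈ dom h) {t : ℝ} (ht0 : 0 < t)
    (ht1 : t ≤ 1) : t • z ∈ dom h := by
  show rho h (t • z) < 0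
  have hz' : rho h z < 0 := hz
  rw [H.rho_smul]
  have h1 : ∑ i, (t ^ 2) ^ d i * ‖h i z‖ ^ 2 ≤ ∑ i, t * ‖h i z‖ ^ 2 := by
    refine Finset.sum_le_sum fun i _ => ?_
    have h2 : (t ^ 2) ^ d i ≤ t := by
      rw [← pow_mul]
      calc t ^ (2 * d i) ≤ t ^ 1 := pow_le_pow_of_le_one ht0.le ht1 (by have := H.one_le i; omega)
        _ = t := pow_one t
    exact mul_le_mul_of_nonneg_right h2 (by positivity)
  rw [← Finset.mul_sum] at h1
  unfold rho at hz'
  nlinarith

theorem Good.neg_small (H : Good h d a) (w : Cn n) (hw : (w 0).re < 0) :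
    ∃ ε : ℝ, 0 < ε ∧ ∀ t : ℝ, 0 < t → t < ε → t • w ∈ dom h := by
  have h1 := H.hasDerivAt w 0
  have h7 : ∀ i, (2 * (d i : ℝ) * (0 : ℝ) ^ (2 * d i - 1)) * ‖h i w‖ ^ 2 = 0 := by
    intro i
    have : 2 * d i - 1 ≠ 0 := by have := H.one_le i; omega
    simp [this]
  simp only [h7, Finset.sum_const_zero, add_zero] at h1
  set S : ℝ := ∑ i, ‖h i w‖ ^ 2 with hS
  have hS0 : 0 ≤ S := Finset.sum_nonneg fun i _ => by positivity
  refine ⟨min 1 (-(w 0).re / (S + 1)), ?_, ?_⟩
  · have : 0 < -(w 0).re / (S + 1) := div_pos (by linarith) (by linarith)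
    exact lt_min one_pos this
  · intro t ht0 ht1
    have ht2 : t < 1 := ht1.trans_le (min_le_left _ _)
    have ht3 : t < -(w 0).re / (S + 1) := ht1.trans_le (min_le_right _ _)
    rw [lt_div_iff₀ (by linarith)] at ht3
    show rho h (t • w) < 0
    rw [H.rho_smul]
    have h2 : ∑ i, (t ^ 2) ^ d i * ‖h i w‖ ^ 2 ≤ ∑ i, t ^ 2 * ‖h i w‖ ^ 2 := by
      refine Finset.sum_le_sum fun i _ => ?_
      have h3 : (t ^ 2) ^ d i ≤ (t ^ 2) ^ 1 :=
        pow_le_pow_of_le_one (by positivity) (by nlinarith) (H.one_le i)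
      rw [pow_one] at h3
      exact mul_le_mul_of_nonneg_right h3 (by positivity)
    rw [← Finset.mul_sum, ← hS] at h2
    nlinarith

theorem Good.exists_mem (H : Good h d a) : (dom h).Nonempty := by
  obtain ⟨ε, hε, h1⟩ := H.neg_small (Pi.single 0 (-1)) (by simp)
  exact ⟨(ε / 2) • Pi.single 0 (-1), h1 _ (by linarith) (by linarith)⟩

theorem Good.zero_mem_frontier (H : Good h d a) : (0 : Cn n) ∈ frontier (dom h) := by
  rw [H.isOpen_dom.frontier_eq]
  refine ⟨?_, ?_⟩
  · obtain ⟨ε, hε, h1⟩ := H.neg_small (Pi.single 0 (-1)) (by simp)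
    have h2 : Tendsto (fun t : ℝ => t • (Pi.single 0 (-1) : Cn n)) (𝓝[>] 0) (𝓝 0) := by
      have h3 : Tendsto (fun t : ℝ => t • (Pi.single 0 (-1) : Cn n)) (𝓝 0) (𝓝 0) := by
        have : Continuous (fun t : ℝ => t • (Pi.single 0 (-1) : Cn n)) := by fun_prop
        simpa using this.tendsto 0
      exact h3.mono_left nhdsWithin_le_nhds
    refine mem_closure_of_tendsto h2 ?_
    have h4 : Set.Ioo (0 : ℝ) ε ∈ 𝓝[>] (0 : ℝ) := Ioo_mem_nhdsGT hε
    filter_upwards [h4] with t ht
    exact h1 t ht.1 ht.2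
  · intro h0
    have : rho h (0 : Cn n) < 0 := h0
    rw [H.rho_zero] at this
    exact lt_irrefl _ this

theorem Good.isConnected (H : Good h d a) : IsConnected (dom h) := by
  refine IsPathConnected.isConnected ?_
  obtain ⟨z, hz⟩ := H.exists_mem
  refine ⟨z, hz, fun {w} hw => ?_⟩
  -- real parts of the first coordinates are negative
  have hre : ∀ {u : Cn n}, u ∈ dom h → (u 0).re < 0 := by
    intro u hu
    have h1 : rho h u < 0 := hu
    have h2 : 0 ≤ ∑ i, ‖h i u‖ ^ 2 := Finset.sum_nonneg fun i _ => by positivity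
    unfold rho at h1
    linarith
  have hz0 := hre hz
  have hw0 := hre hw
  -- bound on the segment
  obtain ⟨C, hC⟩ : ∃ C : ℝ, ∀ s ∈ Set.Icc (0 : ℝ) 1,
      ∑ i, ‖h i ((1 - s) • z + s • w)‖ ^ 2 ≤ C := by
    have hcont : Continuous fun s : ℝ => ∑ i, ‖h i ((1 - s) • z + s • w)‖ ^ 2 := by
      refine continuous_finsetSum _ fun i _ => ?_
      have := (H.smooth i).continuous
      fun_prop
    obtain ⟨C, hC⟩ := (isCompact_Icc (a := (0 : ℝ)) (b := 1)).bddAbove_image hcont.continuousOn
    exact ⟨C, fun s hs => hC ⟨s, hs, rfl⟩⟩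
  set c : ℝ := min (-(z 0).re) (-(w 0).re) with hc
  have hc0 : 0 < c := lt_min (by linarith) (by linarith)
  have hC0 : 0 ≤ C := by
    refine le_trans ?_ (hC 0 ⟨le_rfl, zero_le_one⟩)
    exact Finset.sum_nonneg fun i _ => by positivity
  obtain ⟨t, ht0, ht1, ht2⟩ : ∃ t : ℝ, 0 < t ∧ t ≤ 1 ∧ t * C < c := by
    refine ⟨min 1 (c / (C + 1)), lt_min one_pos (by positivity), min_le_left _ _, ?_⟩
    have h1 : min 1 (c / (C + 1)) ≤ c / (C + 1) := min_le_right _ _
    have h2 : c / (C + 1) * C < c := by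
      rw [div_mul_eq_mul_div, div_lt_iff₀ (by linarith)]
      nlinarith
    nlinarith
  have key : ∀ {u : Cn n}, u ∈ dom h → JoinedIn (dom h) u (t • u) := by
    intro u hu
    refine JoinedIn.of_segment_subset ?_
    rw [segment_eq_image]
    rintro _ ⟨s, ⟨hs0, hs1⟩, rfl⟩
    have h1 : (1 - s) • u + s • t • u = ((1 - s) + s * t) • u := by
      rw [smul_smul, add_smul]
    simp only [h1]
    refine H.smul_mem hu ?_ ?_
    · by_cases hs : s = 1
      · subst hs; simpa using ht0
      · have : s < 1 := lt_of_le_of_ne hs1 hs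
        have : 0 ≤ s * t := by positivity
        linarith
    · nlinarith
  have mid : JoinedIn (dom h) (t • z) (t • w) := by
    refine JoinedIn.of_segment_subset ?_
    rw [segment_eq_image]
    rintro _ ⟨s, ⟨hs0, hs1⟩, rfl⟩
    have h1 : (1 - s) • t • z + s • t • w = t • ((1 - s) • z + s • w) := by
      rw [smul_add, smul_comm (1 - s) t z, smul_comm s t w]
    simp only [h1]
    show rho h (t • ((1 - s) • z + s • w)) < 0
    set u : Cn n := (1 - s) • z + s • w with hu
    rw [H.rho_smul]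
    have h2 : ∑ i, (t ^ 2) ^ d i * ‖h i u‖ ^ 2 ≤ ∑ i, t ^ 2 * ‖h i u‖ ^ 2 := by
      refine Finset.sum_le_sum fun i _ => ?_
      have h3 : (t ^ 2) ^ d i ≤ (t ^ 2) ^ 1 :=
        pow_le_pow_of_le_one (by positivity) (by nlinarith) (H.one_le i)
      rw [pow_one] at h3
      exact mul_le_mul_of_nonneg_right h3 (by positivity)
    rw [← Finset.mul_sum] at h2
    have h4 := hC s ⟨hs0, hs1⟩
    have h5 : (u 0).re = (1 - s) * (z 0).re + s * (w 0).re := by
      simp [hu]
    have h6 : (u 0).re ≤ -c := by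
      have h7 : c ≤ -(z 0).re := min_le_left _ _
      have h8 : c ≤ -(w 0).re := min_le_right _ _
      rw [h5]
      nlinarith
    have h9 : t ^ 2 * ∑ i, ‖h i u‖ ^ 2 ≤ t ^ 2 * C :=
      mul_le_mul_of_nonneg_left h4 (by positivity)
    nlinarith
  exact (key hz).trans (mid.trans (key hw).symm)

theorem Good.isLocalDefiningFunction (H : Good h d a) {p : Cn n} (hp : p ∈ frontier (dom h)) :
    IsLocalDefiningFunction (dom h) p (rho h) := by
  refine ⟨Set.univ, isOpen_univ, Set.mem_univ _, H.contDiff_rho.contDiffOn, ?_, ?_⟩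
  · ext z; simp [dom]
  · exact H.fderiv_rho_ne_zero (H.frontier_subset hp)

theorem Good.isPseudoconvex (H : Good h d a) : IsPseudoconvex (dom h) := by
  refine ⟨fun z => -(rho h z)⁻¹, ?_, ?_, ?_⟩
  · refine ContinuousOn.neg (ContinuousOn.inv₀ H.continuous_rho.continuousOn ?_)
    intro z hz
    exact ne_of_lt hz
  · intro p b hpb
    set u₀ : ℝ := rho h p with hu₀
    have hp : p ∈ dom h := by simpa using hpb 0 (by simp)
    have hu₀neg : u₀ < 0 := hp
    -- the entire function used for the comparison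
    set G : ℂ → ℂ := fun ζ => (p + ζ • b) 0 +
      ∑ i, 2 * (starRingEnd ℂ) (h i p) * h i (p + ζ • b) with hG
    have hGd : Differentiable ℂ G := by
      have h1 : ∀ i, Differentiable ℂ (h i) := fun i => (H.smooth i).differentiable (by simp)
      have h2 : Differentiable ℂ fun ζ : ℂ => p + ζ • b := by fun_prop
      refine Differentiable.add ?_ ?_
      · have h3 : (fun ζ : ℂ => (p + ζ • b) 0) = fun ζ : ℂ => p 0 + ζ * b 0 := by
          funext ζ; simp
        rw [h3]; fun_prop
      · refine Differentiable.fun_sum fun i _ => ?_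
        exact ((h1 i).comp h2).const_mul _
    have hGavg : Real.circleAverage G 0 1 = G 0 := by
      refine DiffContOnCl.circleAverage ?_
      exact hGd.diffContOnCl
    have hcont : Continuous fun ζ : ℂ => p + ζ • b := by fun_prop
    have hmem : ∀ ζ ∈ Metric.sphere (0 : ℂ) |1|, p + ζ • b ∈ dom h := by
      intro ζ hζ
      refine hpb ζ ?_
      rw [abs_one, mem_sphere_zero_iff_norm] at hζ
      exact hζ.le
    -- pointwise lower bound
    have hpoint : ∀ ζ ∈ Metric.sphere (0 : ℂ) |1|,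
        -(u₀)⁻¹ + (G ζ - G 0).re / u₀ ^ 2 ≤ -(rho h (p + ζ • b))⁻¹ := by
      intro ζ hζ
      have hu : rho h (p + ζ • b) < 0 := hmem ζ hζ
      set u : ℝ := rho h (p + ζ • b) with hudef
      have h1 : (G ζ - G 0).re ≤ u - u₀ := by
        have h2 : ∀ i, (2 * (starRingEnd ℂ) (h i p) * h i (p + ζ • b)
            - 2 * (starRingEnd ℂ) (h i p) * h i p).re ≤
            ‖h i (p + ζ • b)‖ ^ 2 - ‖h i p‖ ^ 2 := by
          intro i
          set x := h i (p + ζ • b)
          set y := h i p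
          have h3 : 0 ≤ ‖x - y‖ ^ 2 := by positivity
          rw [← Complex.normSq_eq_norm_sq] at h3 ⊢
          rw [← Complex.normSq_eq_norm_sq]
          simp only [Complex.normSq_apply, Complex.sub_re, Complex.sub_im, Complex.mul_re,
            Complex.mul_im, Complex.conj_re, Complex.conj_im, Complex.re_ofNat,
            Complex.im_ofNat] at h3 ⊢
          nlinarith
        have h4 : (G ζ - G 0).re = ((p + ζ • b) 0).re - (p 0).re +
            ∑ i, (2 * (starRingEnd ℂ) (h i p) * h i (p + ζ • b)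
            - 2 * (starRingEnd ℂ) (h i p) * h i p).re := by
          simp only [hG, zero_smul, add_zero, Complex.sub_re, Complex.add_re, Complex.re_sum,
            Finset.sum_sub_distrib]
          ring
        have h5 : u - u₀ = ((p + ζ • b) 0).re - (p 0).re +
            ∑ i, (‖h i (p + ζ • b)‖ ^ 2 - ‖h i p‖ ^ 2) := by
          simp only [hudef, hu₀, rho, Finset.sum_sub_distrib]
          ring
        rw [h4, h5]
        have := Finset.sum_le_sum fun i (_ : i ∈ Finset.univ) => h2 i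
        linarith
      have h6 : (G ζ - G 0).re / u₀ ^ 2 ≤ (u - u₀) / u₀ ^ 2 :=
        div_le_div_of_nonneg_right h1 (by positivity)
      have h7 : -(u₀)⁻¹ + (u - u₀) / u₀ ^ 2 ≤ -(u)⁻¹ := by
        have h8 : -(u)⁻¹ - (-(u₀)⁻¹ + (u - u₀) / u₀ ^ 2) = (u - u₀) ^ 2 / (-u * u₀ ^ 2) := by
          have hu1 : u ≠ 0 := hu.ne
          have hu2 : u₀ ≠ 0 := hu₀neg.ne
          field_simp
          ring
        have h9 : 0 ≤ (u - u₀) ^ 2 / (-u * u₀ ^ 2) := by
          have : 0 < -u := by linarith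
          positivity
        linarith
      linarith
    -- integrate
    have hL : Real.circleAverage (fun ζ : ℂ => -(u₀)⁻¹ + (G ζ - G 0).re / u₀ ^ 2) 0 1
        = -(u₀)⁻¹ := by
      have hGc : Continuous G := hGd.continuous
      have e1 : (fun ζ : ℂ => -(u₀)⁻¹ + (G ζ - G 0).re / u₀ ^ 2) =
          fun ζ : ℂ => (-(u₀)⁻¹ - (G 0).re / u₀ ^ 2) + (1 / u₀ ^ 2) • (Complex.reCLM (G ζ)) := by
        funext ζ
        simp only [Complex.sub_re, smul_eq_mul, Complex.reCLM_apply]
        ring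
      rw [e1, Real.circleAverage_fun_add, Real.circleAverage_const, Real.circleAverage_fun_smul]
      · have e2 : Real.circleAverage (fun ζ => Complex.reCLM (G ζ)) 0 1 =
            Complex.reCLM (Real.circleAverage G 0 1) := by
          have := Complex.reCLM.circleAverage_comp_comm (f := G) (c := 0) (R := 1)
            (hGc.continuousOn.circleIntegrable')
          exact this
        rw [e2, hGavg]
        simp only [Complex.reCLM_apply, smul_eq_mul]
        ring
      · exact (continuous_const.continuousOn).circleIntegrable'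
      · refine ContinuousOn.circleIntegrable' ?_
        have : Continuous fun ζ => (1 / u₀ ^ 2) • (Complex.reCLM (G ζ)) := by
          simp only [Complex.reCLM_apply]
          fun_prop
        exact this.continuousOn
    calc -(rho h p)⁻¹ = -(u₀)⁻¹ := rfl
      _ = Real.circleAverage (fun ζ : ℂ => -(u₀)⁻¹ + (G ζ - G 0).re / u₀ ^ 2) 0 1 := hL.symm
      _ ≤ Real.circleAverage (fun ζ : ℂ => -(rho h (p + ζ • b))⁻¹) 0 1 := by
        refine Real.circleAverage_mono ?_ ?_ hpoint
        · refine ContinuousOn.circleIntegrable' ?_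
          have hGc : Continuous G := hGd.continuous
          have : Continuous fun ζ : ℂ => -(u₀)⁻¹ + (G ζ - G 0).re / u₀ ^ 2 := by fun_prop
          exact this.continuousOn
        · refine ContinuousOn.circleIntegrable' ?_
          refine ContinuousOn.neg (ContinuousOn.inv₀ ?_ ?_)
          · exact (H.continuous_rho.comp hcont).continuousOn
          · intro ζ hζ
            exact ne_of_lt (hmem ζ hζ)
  · intro c
    by_cases hc : c ≤ 0
    · have : {z | z ∈ dom h ∧ -(rho h z)⁻¹ ≤ c} = ∅ := by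
        ext z
        simp only [Set.mem_ofPred_eq, Set.mem_empty_iff_false, iff_false, not_and, not_le]
        intro hz
        have h1 : rho h z < 0 := hz
        have h2 : (rho h z)⁻¹ < 0 := inv_lt_zero.mpr h1
        linarith
      rw [this]
      exact isCompact_empty
    · push Not at hc
      have : {z | z ∈ dom h ∧ -(rho h z)⁻¹ ≤ c} = {z | rho h z ≤ -c⁻¹} := by
        ext z
        simp only [Set.mem_ofPred_eq]
        constructor
        · rintro ⟨hz, h2⟩
          have h1 : rho h z < 0 := hz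
          have h3 : (-(rho h z))⁻¹ ≤ c := by rw [inv_neg]; exact h2
          have h4 : 0 < -(rho h z) := by linarith
          have h5 : c⁻¹ ≤ -(rho h z) := by
            rw [inv_le_comm₀ hc h4]
            exact h3
          linarith
        · intro h2
          have h0 : 0 < c⁻¹ := inv_pos.mpr hc
          have h1 : rho h z < 0 := by linarith
          refine ⟨h1, ?_⟩
          have h4 : 0 < -(rho h z) := by linarith
          have h5 : c⁻¹ ≤ -(rho h z) := by linarith
          rw [← inv_neg]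
          rwa [inv_le_comm₀ hc h4] at h5
      rw [this]
      refine Metric.isCompact_of_isClosed_isBounded ?_ ?_
      · exact isClosed_le H.continuous_rho continuous_const
      · refine (Metric.isBounded_closedBall (x := (0 : Cn n)) (r := 1)).subset fun z hz => ?_
        rw [mem_closedBall_zero_iff]
        refine H.norm_lt_one_of_rho_nonpos ?_
        have h0 : 0 < c⁻¹ := inv_pos.mpr hc
        have : rho h z ≤ -c⁻¹ := hz
        linarith

theorem Good.isSmoothBoundedPseudoconvex (H : Good h d a) :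
    IsSmoothBoundedPseudoconvex (dom h) where
  isOpen := H.isOpen_dom
  isConnected := H.isConnected
  isBounded := H.isBounded
  smooth_boundary := fun _ hp => ⟨rho h, H.isLocalDefiningFunction hp⟩
  pseudoconvex := H.isPseudoconvex

end

end Pool.Agent.Helper63.SCV
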