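import Pool.Agent.Helper63.Taylor46c

set_option autoImplicit false
set_option linter.unusedSectionVars false

open MeasureTheory Filter Topology Asymptotics Metric
open scoped ENNReal NNReal

namespace Pool.Agent.Helper63.SCV

variable {n : ℕ}

/-- The displacement of the analytic discs. -/
noncomputable def uu (ξ ν : Cn n) (α : Cn n → ℂ) (β : ℂ) (x : Cn n × ℂ) : Cn n :=
  x.2 • ξ + (x.2 * α x.1 + x.2 ^ 2 * β) • ν

/-- The family of analytic discs. -/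
noncomputable def FF (ξ ν : Cn n) (α : Cn n → ℂ) (β : ℂ) (x : Cn n × ℂ) : Cn n :=
  x.1 + uu ξ ν α β x

section
variable {ξ ν : Cn n} {α : Cn n → ℂ} {β : ℂ} {p : Cn n}

theorem continuous_uu (hα : Continuous α) : Continuous (uu ξ ν α β) := by
  unfold uu
  fun_prop

theorem continuous_FF (hα : Continuous α) : Continuous (FF ξ ν α β) :=
  continuous_fst.add (continuous_uu hα)

theorem tendsto_snd' : Tendsto (fun x : Cn n × ℂ => x.2) (𝓝 (p, 0)) (𝓝 0) :=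
  continuous_snd.tendsto (p, (0 : ℂ))

theorem tendsto_fst' : Tendsto (fun x : Cn n × ℂ => x.1) (𝓝 (p, 0)) (𝓝 p) :=
  continuous_fst.tendsto (p, (0 : ℂ))

theorem tendsto_uu (hα : Continuous α) : Tendsto (uu ξ ν α β) (𝓝 (p, 0)) (𝓝 0) := by
  have := (continuous_uu (ξ := ξ) (ν := ν) (β := β) hα).tendsto (p, 0)
  simpa [uu] using this

theorem tendsto_FF (hα : Continuous α) : Tendsto (FF ξ ν α β) (𝓝 (p, 0)) (𝓝 p) := by
  have := (continuous_FF (ξ := ξ) (ν := ν) (β := β) hα).tendsto (p, 0)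
  simpa [FF, uu] using this

theorem isBigO_snd_sq (β : ℂ) (ν : Cn n) :
    (fun x : Cn n × ℂ => (x.2 ^ 2 * β) • ν) =O[𝓝 (p, 0)] fun x => ‖x.2‖ ^ 2 := by
  refine IsBigO.of_bound (‖β‖ * ‖ν‖) (Eventually.of_forall fun x => ?_)
  rw [norm_smul, norm_mul, norm_pow, norm_pow, norm_norm]
  exact le_of_eq (by ring)

/-- `u - ζ ξ = o(ζ)`. -/
theorem uu_sub (hα : Continuous α) (hαp : α p = 0) :
    (fun x : Cn n × ℂ => uu ξ ν α β x - x.2 • ξ) =o[𝓝 (p, 0)] fun x => ‖x.2‖ := by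
  have h1 : (fun x : Cn n × ℂ => uu ξ ν α β x - x.2 • ξ) =
      fun x : Cn n × ℂ => (α x.1 + x.2 * β) • (x.2 • ν) := by
    funext x
    unfold uu
    rw [add_sub_cancel_left, smul_smul]
    congr 1
    ring
  rw [h1]
  have h2 : Tendsto (fun x : Cn n × ℂ => α x.1 + x.2 * β) (𝓝 (p, 0)) (𝓝 0) := by
    have : Continuous fun x : Cn n × ℂ => α x.1 + x.2 * β := by fun_prop
    simpa [hαp] using this.tendsto (p, 0)
  have h3 : (fun x : Cn n × ℂ => x.2 • ν) =O[𝓝 (p, 0)] fun x => ‖x.2‖ := by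
    refine IsBigO.of_bound ‖ν‖ (Eventually.of_forall fun x => ?_)
    rw [norm_smul, norm_norm, mul_comm]
  have h4 := ((isLittleO_one_iff ℝ).mpr h2).smul_isBigO h3
  simpa using h4

theorem uu_isBigO (hα : Continuous α) (hαp : α p = 0) :
    (fun x : Cn n × ℂ => uu ξ ν α β x) =O[𝓝 (p, 0)] fun x => ‖x.2‖ := by
  have h1 : (fun x : Cn n × ℂ => x.2 • ξ) =O[𝓝 (p, 0)] fun x => ‖x.2‖ := by
    refine IsBigO.of_bound ‖ξ‖ (Eventually.of_forall fun x => ?_)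
    rw [norm_smul, norm_norm, mul_comm]
  have h2 := (uu_sub (ξ := ξ) (ν := ν) (β := β) hα hαp).isBigO.add h1
  simpa using h2

/-- Quadratic part. -/
theorem quad_uu (H : Cn n →L[ℝ] Cn n →L[ℝ] ℝ) (hα : Continuous α) (hαp : α p = 0) :
    (fun x : Cn n × ℂ => H (uu ξ ν α β x) (uu ξ ν α β x) - H (x.2 • ξ) (x.2 • ξ))
      =o[𝓝 (p, 0)] fun x => ‖x.2‖ ^ 2 := by
  have h1 : (fun x : Cn n × ℂ => H (uu ξ ν α β x) (uu ξ ν α β x) - H (x.2 • ξ) (x.2 • ξ)) =
      fun x : Cn n × ℂ => H (uu ξ ν α β x - x.2 • ξ) (uu ξ ν α β x) +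
        H (x.2 • ξ) (uu ξ ν α β x - x.2 • ξ) := by
    funext x
    simp only [map_sub, sub_apply]
    ring
  rw [h1]
  have hu := uu_isBigO (ξ := ξ) (ν := ν) (β := β) (p := p) hα hαp
  have hs := uu_sub (ξ := ξ) (ν := ν) (β := β) (p := p) hα hαp
  have hz : (fun x : Cn n × ℂ => x.2 • ξ) =O[𝓝 (p, 0)] fun x => ‖x.2‖ := by
    refine IsBigO.of_bound ‖ξ‖ (Eventually.of_forall fun x => ?_)
    rw [norm_smul, norm_norm, mul_comm]
  have hsq : (fun x : Cn n × ℂ => ‖x.2‖ ^ 2) = fun x => ‖x.2‖ * ‖x.2‖ := by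
    funext x; ring
  rw [hsq]
  refine IsLittleO.add ?_ ?_
  · have h2 : (fun x : Cn n × ℂ => H (uu ξ ν α β x - x.2 • ξ) (uu ξ ν α β x)) =O[𝓝 (p, 0)]
        fun x => ‖uu ξ ν α β x - x.2 • ξ‖ * ‖uu ξ ν α β x‖ := by
      refine IsBigO.of_bound ‖H‖ (Eventually.of_forall fun x => ?_)
      rw [norm_mul, norm_norm, norm_norm, ← mul_assoc]
      exact (ContinuousLinearMap.le_opNorm _ _).trans
        (mul_le_mul_of_nonneg_right (H.le_opNorm _) (norm_nonneg _))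
    refine h2.trans_isLittleO ?_
    exact hs.norm_left.mul_isBigO hu.norm_left
  · have h2 : (fun x : Cn n × ℂ => H (x.2 • ξ) (uu ξ ν α β x - x.2 • ξ)) =O[𝓝 (p, 0)]
        fun x => ‖x.2 • ξ‖ * ‖uu ξ ν α β x - x.2 • ξ‖ := by
      refine IsBigO.of_bound ‖H‖ (Eventually.of_forall fun x => ?_)
      rw [norm_mul, norm_norm, norm_norm, ← mul_assoc]
      exact (ContinuousLinearMap.le_opNorm _ _).trans
        (mul_le_mul_of_nonneg_right (H.le_opNorm _) (norm_nonneg _))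
    refine h2.trans_isLittleO ?_
    exact hz.norm_left.mul_isLittleO hs.norm_left

/-- A continuous family of functionals applied to a quadratically small vector. -/
theorem apply_small {a : Cn n × ℂ → Cn n →L[ℝ] ℝ} {v : Cn n × ℂ → Cn n}
    (ha : Tendsto a (𝓝 (p, 0)) (𝓝 0)) (hv : v =O[𝓝 (p, 0)] fun x => ‖x.2‖ ^ 2) :
    (fun x : Cn n × ℂ => a x (v x)) =o[𝓝 (p, 0)] fun x => ‖x.2‖ ^ 2 := by
  have h2 : (fun x : Cn n × ℂ => a x (v x)) =O[𝓝 (p, 0)] fun x => ‖a x‖ * ‖v x‖ := by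
    refine IsBigO.of_bound 1 (Eventually.of_forall fun x => ?_)
    rw [norm_mul, norm_norm, norm_norm, one_mul]
    exact ContinuousLinearMap.le_opNorm _ _
  refine h2.trans_isLittleO ?_
  have h3 : (fun x : Cn n × ℂ => ‖a x‖) =o[𝓝 (p, 0)] fun _ => (1 : ℝ) := by
    rw [isLittleO_one_iff]
    simpa using ha.norm
  have h4 := h3.mul_isBigO hv.norm_left
  simpa using h4

/-- Expansion of `r` along the discs. -/
theorem expand_one {r : Cn n → ℝ} (hr : ContDiff ℝ 2 r) (hα : Continuous α) (hαp : α p = 0)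
    (hα0 : ∀ᶠ w in 𝓝 p, cx (fderiv ℝ r w) ξ + α w * cx (fderiv ℝ r w) ν = 0)
    (hβ : β * cx (fderiv ℝ r p) ν =
      -((((fderiv ℝ (fderiv ℝ r) p ξ ξ -
          fderiv ℝ (fderiv ℝ r) p (Complex.I • ξ) (Complex.I • ξ)) / 4 : ℝ) : ℂ) -
        Complex.I * (((fderiv ℝ (fderiv ℝ r) p ξ (Complex.I • ξ) +
          fderiv ℝ (fderiv ℝ r) p (Complex.I • ξ) ξ) / 4 : ℝ) : ℂ))) :
    (fun x : Cn n × ℂ => r (FF ξ ν α β x) - r x.1 -
      (1 / 4) * (fderiv ℝ (fderiv ℝ r) p ξ ξ +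
        fderiv ℝ (fderiv ℝ r) p (Complex.I • ξ) (Complex.I • ξ)) * ‖x.2‖ ^ 2)
      =o[𝓝 (p, 0)] fun x => ‖x.2‖ ^ 2 := by
  set H := fderiv ℝ (fderiv ℝ r) p with hH
  set lam : ℝ := (1 / 4) * (H ξ ξ + H (Complex.I • ξ) (Complex.I • ξ)) with hlam
  set κ : ℂ := (((H ξ ξ - H (Complex.I • ξ) (Complex.I • ξ)) / 4 : ℝ) : ℂ) -
        Complex.I * (((H ξ (Complex.I • ξ) + H (Complex.I • ξ) ξ) / 4 : ℝ) : ℂ) with hκ
  -- the three error terms
  have hT : (fun x : Cn n × ℂ => r (x.1 + uu ξ ν α β x) - r x.1 -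
      fderiv ℝ r x.1 (uu ξ ν α β x) - (1 / 2) * H (uu ξ ν α β x) (uu ξ ν α β x))
      =o[𝓝 (p, 0)] fun x => ‖x.2‖ ^ 2 := by
    have h1 : Tendsto (fun x : Cn n × ℂ => (x.1, uu ξ ν α β x)) (𝓝 (p, 0)) (𝓝 (p, 0)) :=
      tendsto_fst'.prodMk_nhds (tendsto_uu hα)
    have h2 := (taylor_two hr p).comp_tendsto h1
    refine IsLittleO.trans_isBigO h2 ?_
    exact (uu_isBigO (ξ := ξ) (ν := ν) (β := β) (p := p) hα hαp).norm_left.pow 2
  have hE2 : (fun x : Cn n × ℂ => (fderiv ℝ r x.1 - fderiv ℝ r p) ((x.2 ^ 2 * β) • ν))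
      =o[𝓝 (p, 0)] fun x => ‖x.2‖ ^ 2 := by
    refine apply_small ?_ (isBigO_snd_sq β ν)
    have hc : Continuous (fderiv ℝ r) := hr.continuous_fderiv (by norm_num)
    have h1 : Continuous fun x : Cn n × ℂ => fderiv ℝ r x.1 - fderiv ℝ r p :=
      (hc.comp continuous_fst).sub continuous_const
    simpa using h1.tendsto (p, 0)
  have hE3 := (quad_uu (ξ := ξ) (ν := ν) (β := β) (p := p) H hα hαp).const_mul_left (1 / 2)
  have hsum := (hT.add hE2).add hE3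
  refine hsum.congr' ?_ EventuallyEq.rfl
  have hev : ∀ᶠ x : Cn n × ℂ in 𝓝 (p, 0),
      cx (fderiv ℝ r x.1) ξ + α x.1 * cx (fderiv ℝ r x.1) ν = 0 :=
    tendsto_fst'.eventually hα0
  filter_upwards [hev] with x hx
  have e1 : fderiv ℝ r x.1 (uu ξ ν α β x) = fderiv ℝ r x.1 ((x.2 ^ 2 * β) • ν) := by
    have : uu ξ ν α β x = (x.2 • ξ + (x.2 * α x.1) • ν) + (x.2 ^ 2 * β) • ν := by
      unfold uu
      rw [add_smul]
      abel
    rw [this, map_add, apply_combo _ _ _ _ _ hx, zero_add]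
  have e2 : fderiv ℝ r p ((x.2 ^ 2 * β) • ν) = -(κ * x.2 ^ 2).re := by
    rw [apply_smul_eq, mul_assoc, hβ, ← Complex.neg_re]
    congr 1
    ring
  have e3 := quad_decomp H ξ x.2
  have e4 : FF ξ ν α β x = x.1 + uu ξ ν α β x := rfl
  rw [e4, sub_apply, e2, e1]
  rw [← hκ, ← hlam] at e3
  linarith

/-- Expansion of `g` backwards along the discs. -/
theorem expand_two {g : Cn n → ℝ} (hg : ContDiff ℝ 2 g) {L : ℝ≥0} (hL : LipschitzWith L α)
    (hαp : α p = 0) (hgp : fderiv ℝ g p = 0) :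
    (fun x : Cn n × ℂ => g x.1 - (g (FF ξ ν α β x) -
      fderiv ℝ g (FF ξ ν α β x) (x.2 • ξ + (x.2 * α (FF ξ ν α β x)) • ν) +
      (1 / 2) * fderiv ℝ (fderiv ℝ g) p (x.2 • ξ) (x.2 • ξ)))
      =o[𝓝 (p, 0)] fun x => ‖x.2‖ ^ 2 := by
  have hα : Continuous α := hL.continuous
  set H := fderiv ℝ (fderiv ℝ g) p with hH
  have hT : (fun x : Cn n × ℂ => g (FF ξ ν α β x + -uu ξ ν α β x) - g (FF ξ ν α β x) -
      fderiv ℝ g (FF ξ ν α β x) (-uu ξ ν α β x) - (1 / 2) * H (-uu ξ ν α β x) (-uu ξ ν α β x))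
      =o[𝓝 (p, 0)] fun x => ‖x.2‖ ^ 2 := by
    have h1 : Tendsto (fun x : Cn n × ℂ => (FF ξ ν α β x, -uu ξ ν α β x)) (𝓝 (p, 0))
        (𝓝 (p, 0)) := by
      have h0 : Tendsto (fun x => -uu ξ ν α β x) (𝓝 (p, 0)) (𝓝 0) := by
        simpa using (tendsto_uu (ξ := ξ) (ν := ν) (β := β) (p := p) hα).neg
      exact (tendsto_FF hα).prodMk_nhds h0
    have h2 := (taylor_two hg p).comp_tendsto h1
    refine IsLittleO.trans_isBigO h2 ?_
    have h3 := (uu_isBigO (ξ := ξ) (ν := ν) (β := β) (p := p) hα hαp).norm_left.pow 2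
    refine IsBigO.congr_left h3 fun x => ?_
    simp
  have hE2 : (fun x : Cn n × ℂ => fderiv ℝ g (FF ξ ν α β x)
      ((x.2 * (α (FF ξ ν α β x) - α x.1) - x.2 ^ 2 * β) • ν))
      =o[𝓝 (p, 0)] fun x => ‖x.2‖ ^ 2 := by
    refine apply_small ?_ ?_
    · have hc : Continuous (fderiv ℝ g) := hg.continuous_fderiv (by norm_num)
      have h0 : FF ξ ν α β (p, 0) = p := by simp [FF, uu]
      have h1 := (hc.comp (continuous_FF (ξ := ξ) (ν := ν) (β := β) hα)).tendsto (p, 0)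
      rw [Function.comp_apply, h0, hgp] at h1
      exact h1
    · have h1 : (fun x : Cn n × ℂ => x.2 * (α (FF ξ ν α β x) - α x.1)) =O[𝓝 (p, 0)]
          fun x => ‖x.2‖ ^ 2 := by
        have h2 : (fun x : Cn n × ℂ => α (FF ξ ν α β x) - α x.1) =O[𝓝 (p, 0)]
            fun x => ‖x.2‖ := by
          have h3 : (fun x : Cn n × ℂ => α (FF ξ ν α β x) - α x.1) =O[𝓝 (p, 0)]
              fun x => uu ξ ν α β x := by
            refine IsBigO.of_bound L (Eventually.of_forall fun x => ?_)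
            have h4 := hL.dist_le_mul (FF ξ ν α β x) x.1
            rw [dist_eq_norm, dist_eq_norm] at h4
            have h5 : FF ξ ν α β x - x.1 = uu ξ ν α β x := by
              unfold FF; rw [add_sub_cancel_left]
            rwa [h5] at h4
          exact h3.trans (uu_isBigO hα hαp)
        have h6 : (fun x : Cn n × ℂ => x.2) =O[𝓝 (p, 0)] fun x => ‖x.2‖ :=
          (isBigO_refl _ _).norm_right
        have h7 := h6.mul h2
        refine h7.congr_right fun x => ?_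
        ring
      have h8 : (fun x : Cn n × ℂ => x.2 ^ 2 * β) =O[𝓝 (p, 0)] fun x => ‖x.2‖ ^ 2 := by
        refine IsBigO.of_bound ‖β‖ (Eventually.of_forall fun x => ?_)
        rw [norm_mul, norm_pow, norm_pow, norm_norm, mul_comm]
      have h9 := h1.sub h8
      have h10 : (fun x : Cn n × ℂ => (x.2 * (α (FF ξ ν α β x) - α x.1) - x.2 ^ 2 * β) • ν)
          =O[𝓝 (p, 0)] fun x : Cn n × ℂ => (x.2 * (α (FF ξ ν α β x) - α x.1) - x.2 ^ 2 * β) := by
        refine IsBigO.of_bound ‖ν‖ (Eventually.of_forall fun x => ?_)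
        rw [norm_smul, mul_comm]
      exact h10.trans h9
  have hE3 := (quad_uu (ξ := ξ) (ν := ν) (β := β) (p := p) H hα hαp).const_mul_left (1 / 2)
  have hsum := (hT.add hE2).add hE3
  refine hsum.congr_left fun x => ?_
  have e1 : FF ξ ν α β x + -uu ξ ν α β x = x.1 := by
    unfold FF; abel
  have e2 : uu ξ ν α β x = (x.2 • ξ + (x.2 * α (FF ξ ν α β x)) • ν) -
      (x.2 * (α (FF ξ ν α β x) - α x.1) - x.2 ^ 2 * β) • ν := by
    conv_lhs => unfold uu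
    rw [add_sub_assoc, ← sub_smul]
    congr 2
    ring
  have e3 : fderiv ℝ g (FF ξ ν α β x) (uu ξ ν α β x) =
      fderiv ℝ g (FF ξ ν α β x) (x.2 • ξ + (x.2 * α (FF ξ ν α β x)) • ν) -
      fderiv ℝ g (FF ξ ν α β x)
        ((x.2 * (α (FF ξ ν α β x) - α x.1) - x.2 ^ 2 * β) • ν) := by
    conv_lhs => rw [e2]
    rw [map_sub]
  rw [e1]
  simp only [map_neg, neg_apply, neg_neg, sub_neg_eq_add]
  rw [e3]
  ring

end

end Pool.Agent.Helper63.SCV
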