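import Pool.Agent.Helper63.Discs46c

set_option autoImplicit false
set_option linter.unusedSectionVars false

open MeasureTheory Filter Topology Asymptotics Metric
open scoped ENNReal NNReal

namespace Pool.Agent.Helper63.SCV

variable {n : ℕ}

theorem exists_pos_real (n : ℕ) {ε : ℝ≥0∞} (hε : ε ≠ 0) :
    ∃ x : ℝ, 0 < x ∧ cvol n * ENNReal.ofReal x ≤ ε := by
  have h1 : ε / cvol n ≠ 0 := ENNReal.div_ne_zero.mpr ⟨hε, cvol_ne_top n⟩
  obtain ⟨y, hy0, hy⟩ := ENNReal.lt_iff_exists_nnreal_btwn.mp (pos_iff_ne_zero.mpr h1)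
  refine ⟨y, by exact_mod_cast hy0, ?_⟩
  rw [ENNReal.ofReal_coe_nnreal]
  calc cvol n * y ≤ cvol n * (ε / cvol n) := by gcongr
    _ ≤ ε := ENNReal.mul_div_le

theorem kernel_integral {Q : ℂ → ℝ} {a K M D : ℝ} (ha : 0 < a) (hK : 0 < K) (hD : 0 < D)
    (hM : 0 ≤ M) (hQc : Continuous Q)
    (hQ : ∀ y : ℝ, ∃ b c : ℝ, ∀ x : ℝ, Q (x + y * Complex.I) = a * x ^ 2 + b * x + c) :
    ∫⁻ ζ, {ζ : ℂ | ‖ζ‖ ^ 2 < 2 * K ^ 2 * D ∧ |Q ζ| ≤ M * D}.indicator
      (fun _ => ENNReal.ofReal (2 / (Real.pi * K ^ 2 * D))) ζ ≤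
      ENNReal.ofReal (16 * Real.sqrt (M / a) / (Real.pi * K)) := by
  have hS : MeasurableSet {ζ : ℂ | ‖ζ‖ ^ 2 < 2 * K ^ 2 * D ∧ |Q ζ| ≤ M * D} := by
    have h1 : IsOpen {ζ : ℂ | ‖ζ‖ ^ 2 < 2 * K ^ 2 * D} :=
      isOpen_lt (by fun_prop) continuous_const
    have h2 : IsClosed {ζ : ℂ | |Q ζ| ≤ M * D} := isClosed_le hQc.abs continuous_const
    exact h1.measurableSet.inter h2.measurableSet
  rw [lintegral_indicator_const hS]
  have h3 := area_sublevel (Q := Q) (M := M * D) (T := Real.sqrt (2 * K ^ 2 * D)) ha hQ hS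
    (fun ζ hζ => ⟨Real.lt_sqrt_of_sq_lt hζ.1, hζ.2⟩)
  calc ENNReal.ofReal (2 / (Real.pi * K ^ 2 * D)) *
        volume {ζ : ℂ | ‖ζ‖ ^ 2 < 2 * K ^ 2 * D ∧ |Q ζ| ≤ M * D}
      ≤ ENNReal.ofReal (2 / (Real.pi * K ^ 2 * D)) *
        ENNReal.ofReal (4 * Real.sqrt (2 * K ^ 2 * D) * Real.sqrt (2 * (M * D) / a)) := by
        gcongr
    _ = ENNReal.ofReal (16 * Real.sqrt (M / a) / (Real.pi * K)) := by
        rw [← ENNReal.ofReal_mul (by positivity)]
        congr 1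
        have e1 : Real.sqrt (2 * K ^ 2 * D) = K * Real.sqrt (2 * D) := by
          rw [show 2 * K ^ 2 * D = K ^ 2 * (2 * D) by ring, Real.sqrt_mul (by positivity),
            Real.sqrt_sq hK.le]
        have e2 : Real.sqrt (2 * (M * D) / a) = Real.sqrt (2 * D) * Real.sqrt (M / a) := by
          rw [show 2 * (M * D) / a = (2 * D) * (M / a) by ring, Real.sqrt_mul (by positivity)]
        have e3 : Real.sqrt (2 * D) * Real.sqrt (2 * D) = 2 * D := Real.mul_self_sqrt (by positivity)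
        rw [e1, e2]
        have hpi := Real.pi_pos
        have e4 : 4 * (K * Real.sqrt (2 * D)) * (Real.sqrt (2 * D) * Real.sqrt (M / a)) =
            8 * K * D * Real.sqrt (M / a) := by
          calc 4 * (K * Real.sqrt (2 * D)) * (Real.sqrt (2 * D) * Real.sqrt (M / a)) =
              4 * K * (Real.sqrt (2 * D) * Real.sqrt (2 * D)) * Real.sqrt (M / a) := by ring
            _ = 8 * K * D * Real.sqrt (M / a) := by rw [e3]; ring
        rw [e4]
        field_simp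
        ring

/-- One quarter of the Laplacian of `r` along the complex line `ℂ ξ` at `p`. -/
noncomputable def levi2 (r : Cn n → ℝ) (p ξ : Cn n) : ℝ :=
  (1 / 4) * (fderiv ℝ (fderiv ℝ r) p ξ ξ +
    fderiv ℝ (fderiv ℝ r) p (Complex.I • ξ) (Complex.I • ξ))

theorem cx_re (a : Cn n →L[ℝ] ℝ) (v : Cn n) : (cx a v).re = a v := by
  simp [cx]

theorem cx_ne_zero {a : Cn n →L[ℝ] ℝ} {v : Cn n} (h : a v = 1) : cx a v ≠ 0 := by
  intro h0
  have := cx_re a v
  rw [h0, h] at this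
  simp at this

theorem volume_ball_inv {s : ℝ} (hs : 0 < s) :
    (volume (ball (0 : ℂ) s))⁻¹ = ENNReal.ofReal (1 / (Real.pi * s ^ 2)) := by
  have h1 : volume (ball (0 : ℂ) s) = ENNReal.ofReal (Real.pi * s ^ 2) := by
    rw [Complex.volume_ball, mul_comm, ENNReal.ofReal_mul Real.pi_pos.le,
      ← ENNReal.ofReal_pow hs.le]
    congr 1
    rw [← NNReal.coe_real_pi, ENNReal.ofReal_coe_nnreal]
  rw [h1, one_div, ENNReal.ofReal_inv_of_pos (by have := Real.pi_pos; positivity)]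

/-- The polynomial in `ζ` controlling `g = rB - lam r` along discs through `z`. -/
theorem quad_poly {g : Cn n → ℝ} {α : Cn n → ℂ} {ξ ν : Cn n} (H : Cn n →L[ℝ] Cn n →L[ℝ] ℝ)
    (z : Cn n) (y : ℝ) : ∃ b c : ℝ, ∀ x : ℝ,
      g z - fderiv ℝ g z (((x : ℂ) + y * Complex.I) • ξ +
        (((x : ℂ) + y * Complex.I) * α z) • ν) +
        (1 / 2) * H (((x : ℂ) + y * Complex.I) • ξ) (((x : ℂ) + y * Complex.I) • ξ) =
      (1 / 2 * H ξ ξ) * x ^ 2 + b * x + c := by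
  refine ⟨-fderiv ℝ g z (ξ + α z • ν) + (1 / 2) * y * (H ξ (Complex.I • ξ) +
    H (Complex.I • ξ) ξ), g z - y * fderiv ℝ g z (Complex.I • ξ + (Complex.I * α z) • ν) +
    (1 / 2) * y ^ 2 * H (Complex.I • ξ) (Complex.I • ξ), fun x => ?_⟩
  have e1 : ((x : ℂ) + y * Complex.I) • ξ = x • ξ + y • (Complex.I • ξ) := by
    funext j
    simp only [Pi.smul_apply, Pi.add_apply, smul_eq_mul, Complex.real_smul]
    ring
  have e2 : (((x : ℂ) + y * Complex.I) * α z) • ν = x • (α z • ν) +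
      y • ((Complex.I * α z) • ν) := by
    funext j
    simp only [Pi.smul_apply, Pi.add_apply, smul_eq_mul, Complex.real_smul]
    ring
  rw [e1, e2]
  simp only [map_add, map_smul, add_apply, smul_apply, smul_eq_mul]
  ring

end Pool.Agent.Helper63.SCV
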