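import Pool.Agent.Helper63.Montel46c

set_option autoImplicit false
set_option linter.unusedSectionVars false

open MeasureTheory Filter Topology Asymptotics Metric
open scoped ENNReal NNReal

namespace Pool.Agent.Helper63.SCV

variable {n : ℕ}

/-- The constant of the volume distortion estimate. -/
noncomputable def cvol (n : ℕ) : ℝ≥0∞ := (2 : ℝ≥0∞) ^ (Module.finrank ℝ (Cn n) : ℝ)

theorem cvol_ne_top (n : ℕ) : cvol n ≠ ⊤ := by
  unfold cvol
  exact ENNReal.rpow_ne_top_of_nonneg (by positivity) (by norm_num)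

theorem map_le_of_antilipschitz {F : Cn n → Cn n} (hF : AntilipschitzWith 2 F)
    (hFm : Measurable F) :
    Measure.map F (volume : Measure (Cn n)) ≤ cvol n • volume := by
  have hμ := Measure.isAddLeftInvariant_eq_smul (volume : Measure (Cn n))
    (Measure.hausdorffMeasure (Module.finrank ℝ (Cn n) : ℝ))
  set c := Measure.addHaarScalarFactor (volume : Measure (Cn n))
    (Measure.hausdorffMeasure (Module.finrank ℝ (Cn n) : ℝ)) with hc
  refine Measure.le_iff.mpr fun S hS => ?_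
  rw [Measure.map_apply hFm hS, Measure.smul_apply, smul_eq_mul]
  have h1 := hF.hausdorffMeasure_preimage_le
    (d := (Module.finrank ℝ (Cn n) : ℝ)) (by positivity) S
  have h2 : ∀ T : Set (Cn n), volume T = (c : ℝ≥0∞) *
      Measure.hausdorffMeasure (Module.finrank ℝ (Cn n) : ℝ) T := by
    intro T
    conv_lhs => rw [hμ]
    rfl
  rw [h2 (F ⁻¹' S), h2 S]
  calc (c : ℝ≥0∞) * Measure.hausdorffMeasure (Module.finrank ℝ (Cn n) : ℝ) (F ⁻¹' S)
      ≤ (c : ℝ≥0∞) * (((2 : ℝ≥0) : ℝ≥0∞) ^ (Module.finrank ℝ (Cn n) : ℝ) *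
          Measure.hausdorffMeasure (Module.finrank ℝ (Cn n) : ℝ) S) := by gcongr
    _ = cvol n * ((c : ℝ≥0∞) *
          Measure.hausdorffMeasure (Module.finrank ℝ (Cn n) : ℝ) S) := by
        unfold cvol
        rw [← mul_assoc, ← mul_assoc, mul_comm (c : ℝ≥0∞)]
        rfl

theorem lintegral_comp_le {F : Cn n → Cn n} (hF : AntilipschitzWith 2 F)
    (hFm : Measurable F) {Θ : Cn n → ℝ≥0∞} (hΘ : Measurable Θ) :
    ∫⁻ w, Θ (F w) ≤ cvol n * ∫⁻ z, Θ z := by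
  calc ∫⁻ w, Θ (F w) = ∫⁻ z, Θ z ∂(Measure.map F volume) := (lintegral_map hΘ hFm).symm
    _ ≤ ∫⁻ z, Θ z ∂(cvol n • volume) :=
        lintegral_mono' (map_le_of_antilipschitz hF hFm) le_rfl
    _ = cvol n * ∫⁻ z, Θ z := lintegral_smul_measure _ _

/-- Abstract Schur type estimate: mass of holomorphic functions on `A` is controlled by
averages over analytic discs. -/
theorem mass_le_of_discs {Ω A : Set (Cn n)} (hΩ : IsOpen Ω) (hAm : MeasurableSet A)
    (hAΩ : A ⊆ Ω)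
    {F : Cn n × ℂ → Cn n} (hFc : Continuous F) {η : ℝ}
    (hF0 : ∀ w, F (w, 0) = w)
    (hFhol : ∀ w, Differentiable ℂ fun ζ => F (w, ζ))
    (hanti : ∀ ζ ∈ ball (0 : ℂ) η, AntilipschitzWith 2 fun w => F (w, ζ))
    {s : Cn n → ℝ} (hs0 : ∀ w ∈ A, 0 < s w) (hsη : ∀ w ∈ A, s w ≤ η)
    (hFΩ : ∀ w ∈ A, ∀ ζ ∈ ball (0 : ℂ) (s w), F (w, ζ) ∈ Ω)
    {k : Cn n × ℂ → ℝ≥0∞} (hk : Measurable k)
    (hkF : ∀ w ∈ A, ∀ ζ ∈ ball (0 : ℂ) (s w),
      (volume (ball (0 : ℂ) (s w)))⁻¹ ≤ k (F (w, ζ), ζ))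
    {ε : ℝ≥0∞} (hint : ∀ z ∈ Ω, ∫⁻ ζ in ball (0 : ℂ) η, k (z, ζ) ≤ ε)
    {f : Cn n → ℂ} (hf : DifferentiableOn ℂ f Ω) :
    mass A f ≤ cvol n * ε * mass Ω f := by
  set g : Cn n → ℂ := Ω.indicator f with hg
  have hgm : Measurable g := measurable_indicator_of_continuousOn hΩ hf.continuousOn
  set G : Cn n × ℂ → ℝ≥0∞ := fun x => k x * ‖g x.1‖ₑ ^ 2 with hG
  have hGm : Measurable G := hk.mul ((hgm.comp measurable_fst).enorm.pow_const 2)
  -- pointwise estimate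
  have h1 : ∀ w ∈ A, ‖f w‖ₑ ^ 2 ≤ ∫⁻ ζ in ball (0 : ℂ) η, G (F (w, ζ), ζ) := by
    intro w hw
    have hFw : Continuous fun ζ => F (w, ζ) := hFc.comp (by fun_prop)
    have hd : DifferentiableOn ℂ (fun ζ => g (F (w, ζ))) (ball 0 (s w)) := by
      have h2 : DifferentiableOn ℂ (fun ζ => f (F (w, ζ))) (ball 0 (s w)) :=
        hf.comp (f := fun ζ => F (w, ζ)) (hFhol w).differentiableOn (hFΩ w hw)
      refine h2.congr fun ζ hζ => ?_
      rw [hg, Set.indicator_of_mem (hFΩ w hw ζ hζ)]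
    have h3 := smv_disc (h := fun ζ => g (F (w, ζ))) (s := s w) (hgm.comp hFw.measurable) hd
    have h4 : ‖(fun ζ => g (F (w, ζ))) 0‖ₑ = ‖f w‖ₑ := by
      simp only [hF0, hg, Set.indicator_of_mem (hAΩ hw)]
    rw [h4] at h3
    have hv0 : volume (ball (0 : ℂ) (s w)) ≠ 0 := (measure_ball_pos volume _ (hs0 w hw)).ne'
    have hvt : volume (ball (0 : ℂ) (s w)) ≠ ⊤ := measure_ball_lt_top.ne
    calc ‖f w‖ₑ ^ 2 = ‖f w‖ₑ ^ 2 * volume (ball (0 : ℂ) (s w)) *
          (volume (ball (0 : ℂ) (s w)))⁻¹ := by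
          rw [mul_assoc, ENNReal.mul_inv_cancel hv0 hvt, mul_one]
      _ ≤ (∫⁻ ζ in ball (0 : ℂ) (s w), ‖g (F (w, ζ))‖ₑ ^ 2) *
          (volume (ball (0 : ℂ) (s w)))⁻¹ := by gcongr
      _ = ∫⁻ ζ in ball (0 : ℂ) (s w), ‖g (F (w, ζ))‖ₑ ^ 2 *
          (volume (ball (0 : ℂ) (s w)))⁻¹ := by
          rw [lintegral_mul_const' _ _ (ENNReal.inv_ne_top.mpr hv0)]
      _ ≤ ∫⁻ ζ in ball (0 : ℂ) (s w), G (F (w, ζ), ζ) := by
          refine setLIntegral_mono' measurableSet_ball fun ζ hζ => ?_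
          rw [mul_comm]
          exact mul_le_mul_left (hkF w hw ζ hζ) _
      _ ≤ ∫⁻ ζ in ball (0 : ℂ) η, G (F (w, ζ), ζ) :=
          lintegral_mono_set (ball_subset_ball (hsη w hw))
  have hGF : Measurable fun x : Cn n × ℂ => G (F x, x.2) :=
    hGm.comp (hFc.measurable.prodMk measurable_snd)
  calc mass A f ≤ ∫⁻ w in A, ∫⁻ ζ in ball (0 : ℂ) η, G (F (w, ζ), ζ) :=
        setLIntegral_mono' hAm h1
    _ ≤ ∫⁻ w, ∫⁻ ζ in ball (0 : ℂ) η, G (F (w, ζ), ζ) := setLIntegral_le_lintegral _ _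
    _ = ∫⁻ ζ in ball (0 : ℂ) η, (∫⁻ w, G (F (w, ζ), ζ)) :=
        lintegral_lintegral_swap hGF.aemeasurable
    _ ≤ ∫⁻ ζ in ball (0 : ℂ) η, cvol n * ∫⁻ z, G (z, ζ) := by
        refine setLIntegral_mono' measurableSet_ball fun ζ hζ => ?_
        have hFζ : Measurable fun w => F (w, ζ) := (hFc.comp (by fun_prop)).measurable
        exact lintegral_comp_le (hanti ζ hζ) hFζ (Θ := fun z => G (z, ζ))
          (hGm.comp (by fun_prop))
    _ = cvol n * ∫⁻ ζ in ball (0 : ℂ) η, (∫⁻ z, G (z, ζ)) := by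
        rw [lintegral_const_mul' _ _ (cvol_ne_top n)]
    _ = cvol n * ∫⁻ z, ∫⁻ ζ in ball (0 : ℂ) η, G (z, ζ) := by
        congr 1
        exact lintegral_lintegral_swap (f := fun (ζ : ℂ) (z : Cn n) => G (z, ζ))
          ((hGm.comp measurable_swap).aemeasurable)
    _ ≤ cvol n * ∫⁻ z, ε * ‖g z‖ₑ ^ 2 := by
        gcongr with z
        by_cases hz : z ∈ Ω
        · calc ∫⁻ ζ in ball (0 : ℂ) η, G (z, ζ)
              = (∫⁻ ζ in ball (0 : ℂ) η, k (z, ζ)) * ‖g z‖ₑ ^ 2 := by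
                simp only [hG]
                rw [lintegral_mul_const]
                exact hk.comp (by fun_prop)
            _ ≤ ε * ‖g z‖ₑ ^ 2 := by
                gcongr
                exact hint z hz
        · have : g z = 0 := by simp [hg, hz]
          simp [hG, this]
    _ = cvol n * ε * ∫⁻ z, ‖g z‖ₑ ^ 2 := by
        rw [lintegral_const_mul _ (hgm.enorm.pow_const 2), mul_assoc]
    _ = cvol n * ε * mass Ω f := by
        congr 1
        have h5 : ∀ z, ‖g z‖ₑ ^ 2 = Ω.indicator (fun z => ‖f z‖ₑ ^ 2) z := by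
          intro z
          by_cases hz : z ∈ Ω <;> simp [hg, hz]
        simp only [h5]
        rw [lintegral_indicator hΩ.measurableSet]
        rfl

end Pool.Agent.Helper63.SCV
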