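import Pool.Agent.Helper63.Expand46c
import Pool.Agent.Helper63.Area46c
import Pool.Agent.Helper63.Schur46c

set_option autoImplicit false
set_option linter.unusedSectionVars false

open MeasureTheory Filter Topology Asymptotics Metric
open scoped ENNReal NNReal

namespace Pool.Agent.Helper63.SCV

variable {n : ℕ}

theorem exists_transversal {a : Cn n →L[ℝ] ℝ} (ha : a ≠ 0) : ∃ v : Cn n, a v = 1 := by
  obtain ⟨w, hw⟩ : ∃ w, a w ≠ 0 := by
    by_contra hcon
    push Not at hcon
    exact ha (ContinuousLinearMap.ext fun w => by simpa using hcon w)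
  exact ⟨(a w)⁻¹ • w, by simp [hw]⟩

/-- Depth with respect to the smaller domain is controlled by depth in the larger one. -/
theorem depth_compare {r rB : Cn n → ℝ} (hr : ContDiff ℝ 2 r) (hrB : ContDiff ℝ 2 rB)
    {p : Cn n} (hdr : fderiv ℝ r p ≠ 0) (hrp : r p = 0)
    {Ω B : Set (Cn n)} (hΩ : ∀ᶠ z in 𝓝 p, z ∈ Ω ↔ r z < 0)
    (hB : ∀ᶠ z in 𝓝 p, z ∈ B ↔ rB z < 0) (hBΩ : B ⊆ Ω) :
    ∃ C : ℝ, 0 ≤ C ∧ ∀ᶠ w in 𝓝 p, w ∈ B → -rB w ≤ C * (-r w) := by
  obtain ⟨v, hv⟩ := exists_transversal hdr
  have hv0 : 0 < ‖v‖ := by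
    rw [norm_pos_iff]
    rintro rfl
    simp at hv
  have hs : HasStrictFDerivAt r (fderiv ℝ r p) p := hr.contDiffAt.hasStrictFDerivAt (by norm_num)
  have hsB : HasStrictFDerivAt rB (fderiv ℝ rB p) p :=
    hrB.contDiffAt.hasStrictFDerivAt (by norm_num)
  obtain ⟨K, T, hT, hLip⟩ := hsB.exists_lipschitzOnWith
  have h1 := hs.isLittleO.bound (show (0 : ℝ) < 1 / (2 * ‖v‖) by positivity)
  rw [nhds_prod_eq, Filter.eventually_prod_self_iff'] at h1
  obtain ⟨W, hW, hWW⟩ := h1
  -- the shifted point
  have hshift : Tendsto (fun w => w + (2 * (-r w)) • v) (𝓝 p) (𝓝 p) := by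
    have hc : Continuous fun w => w + (2 * (-r w)) • v := by
      have := hr.continuous
      fun_prop
    have := hc.tendsto p
    simpa [hrp] using this
  refine ⟨K * (2 * ‖v‖), by positivity, ?_⟩
  filter_upwards [hΩ, hB, hshift.eventually hΩ, hshift.eventually hB, hW, hshift.eventually hW,
    hT, hshift.eventually hT] with w h2 h3 h4 h5 h6 h7 h8 h9 hwB
  have hδ : r w < 0 := h2.mp (hBΩ hwB)
  set δ : ℝ := -r w with hδdef
  have hδ0 : 0 < δ := by linarith
  set w' : Cn n := w + (2 * δ) • v with hw'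
  have h10 := hWW _ h7 _ h6
  simp only [hw', add_sub_cancel_left, map_smul, hv, norm_smul, Real.norm_eq_abs, smul_eq_mul,
    mul_one] at h10
  have h11 : |r w' - r w - 2 * δ| ≤ δ := by
    calc |r w' - r w - 2 * δ| ≤ 1 / (2 * ‖v‖) * (|2 * δ| * ‖v‖) := h10
      _ = δ := by rw [abs_of_pos (show 0 < 2 * δ by linarith)]; field_simp
  have h12 : 0 ≤ r w' := by
    have := (abs_le.mp h11).1
    linarith
  have h13 : w' ∉ B := fun hcon => by
    have := h4.mp (hBΩ hcon)
    linarith
  have h14 : 0 ≤ rB w' := by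
    by_contra hcon
    push Not at hcon
    exact h13 (h5.mpr hcon)
  have h15 := hLip.dist_le_mul w' h9 w h8
  have h15' : dist w' w = 2 * δ * ‖v‖ := by
    rw [dist_eq_norm, hw', add_sub_cancel_left, norm_smul, Real.norm_eq_abs,
      abs_of_pos (show 0 < 2 * δ by linarith)]
  rw [Real.dist_eq, h15'] at h15
  have h16 := (le_abs_self _).trans h15
  calc -rB w ≤ rB w' - rB w := by linarith
    _ ≤ K * (2 * δ * ‖v‖) := h16
    _ = K * (2 * ‖v‖) * δ := by ring

/-- The differentials of the two defining functions at the contact point are positively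
proportional. -/
theorem fderiv_proportional {r rB : Cn n → ℝ} {p : Cn n} (hr : DifferentiableAt ℝ r p)
    (hrB : DifferentiableAt ℝ rB p) (hrp : r p = 0) (hrBp : rB p = 0)
    (hdr : fderiv ℝ r p ≠ 0) (hdrB : fderiv ℝ rB p ≠ 0)
    (himp : ∀ᶠ z in 𝓝 p, rB z < 0 → r z < 0) :
    ∃ c : ℝ, 0 < c ∧ fderiv ℝ rB p = c • fderiv ℝ r p := by
  set a := fderiv ℝ r p with ha
  set b := fderiv ℝ rB p with hb
  have key : ∀ v : Cn n, b v < 0 → a v ≤ 0 := by
    intro v hv
    by_contra hcon
    push Not at hcon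
    have h1 : HasDerivAt (fun t : ℝ => p + t • v) v 0 := by
      simpa using ((hasDerivAt_id (0 : ℝ)).smul_const v).const_add p
    have hra : HasDerivAt (fun t : ℝ => r (p + t • v)) (a v) 0 := by
      have h2 : HasFDerivAt r a (p + (0 : ℝ) • v) := by simpa using hr.hasFDerivAt
      exact h2.comp_hasDerivAt (0 : ℝ) h1
    have hrb : HasDerivAt (fun t : ℝ => rB (p + t • v)) (b v) 0 := by
      have h2 : HasFDerivAt rB b (p + (0 : ℝ) • v) := by simpa using hrB.hasFDerivAt
      exact h2.comp_hasDerivAt (0 : ℝ) h1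
    have h3 := hra.tendsto_slope_zero_right
    have h4 := hrb.tendsto_slope_zero_right
    have h5 := h3.eventually (lt_mem_nhds hcon)
    have h6 := h4.eventually (gt_mem_nhds hv)
    have h7 : Tendsto (fun t : ℝ => p + t • v) (𝓝[>] 0) (𝓝 p) := by
      have : Tendsto (fun t : ℝ => p + t • v) (𝓝 0) (𝓝 p) := by
        simpa using h1.continuousAt.tendsto
      exact this.mono_left nhdsWithin_le_nhds
    have h8 := h7.eventually himp
    obtain ⟨t, h5, h6, h8, ht⟩ := (h5.and (h6.and (h8.and self_mem_nhdsWithin))).exists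
    have ht : 0 < t := ht
    simp only [zero_add, zero_smul, add_zero, hrp, hrBp, sub_zero, smul_eq_mul] at h5 h6
    have h9 : rB (p + t • v) < 0 := by
      by_contra hc
      push Not at hc
      have := mul_nonneg (inv_nonneg.mpr ht.le) hc
      linarith
    have h10 := h8 h9
    have h11 : t⁻¹ * r (p + t • v) < 0 := mul_neg_of_pos_of_neg (inv_pos.mpr ht) h10
    linarith
  obtain ⟨u, hu⟩ := exists_transversal hdrB
  have hker : ∀ v : Cn n, b v = 0 → a v = 0 := by
    have h1 : ∀ v : Cn n, b v = 0 → a v ≤ 0 := by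
      intro v hv
      by_contra hcon
      push Not at hcon
      -- perturb
      have h2 : ∀ s : ℝ, 0 < s → a v ≤ s * a u := by
        intro s hs
        have h3 := key (v - s • u) (by simp [map_sub, hv, hu, hs])
        simp only [map_sub, map_smul, smul_eq_mul] at h3
        linarith
      have h4 := h2 (a v / (2 * (|a u| + 1))) (by positivity)
      have h5 : a v / (2 * (|a u| + 1)) * a u ≤ a v / 2 := by
        calc a v / (2 * (|a u| + 1)) * a u ≤ a v / (2 * (|a u| + 1)) * (|a u| + 1) := by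
              gcongr
              linarith [le_abs_self (a u)]
          _ = a v / 2 := by
              have : |a u| + 1 ≠ 0 := by positivity
              field_simp
      linarith
    intro v hv
    have h2 := h1 v hv
    have h3 := h1 (-v) (by simp [hv])
    simp only [map_neg] at h3
    linarith
  have hau : 0 ≤ a u := by
    have := key (-u) (by simp [hu])
    simp only [map_neg] at this
    linarith
  have hab : ∀ v, a v = b v * a u := by
    intro v
    have h1 := hker (v - b v • u) (by simp [map_sub, hu])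
    simp only [map_sub, map_smul, smul_eq_mul] at h1
    linarith
  have hau' : a u ≠ 0 := by
    intro h0
    apply hdr
    ext v
    rw [hab v, h0]
    simp
  have hau'' : 0 < a u := lt_of_le_of_ne hau (Ne.symm hau')
  refine ⟨(a u)⁻¹, inv_pos.mpr hau'', ?_⟩
  ext v
  simp only [smul_apply, smul_eq_mul, hab v]
  field_simp

end Pool.Agent.Helper63.SCV
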