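import Pool.Agent.Helper63.Defs46c

set_option autoImplicit false
set_option linter.unusedSectionVars false

open MeasureTheory Filter Topology Asymptotics
open scoped ENNReal NNReal

namespace Pool.Agent.Helper63.SCV

variable {n : ℕ}

/-- Relation between the squared Bergman norm and `eLpNorm`. -/
theorem bergmanNormSq_eq {Ω : Set (Cn n)} {f : Cn n → ℂ}
    (hf : AEStronglyMeasurable f (volume.restrict Ω)) :
    bergmanNormSq Ω f = (eLpNorm f 2 (volume.restrict Ω)).toReal ^ 2 := by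
  unfold bergmanNormSq
  have h0 : AEStronglyMeasurable (fun z => ‖f z‖ ^ 2) (volume.restrict Ω) := hf.norm.pow 2
  rw [eLpNorm_eq_lintegral_rpow_enorm_toReal (by norm_num) (by norm_num),
    integral_eq_lintegral_of_nonneg_ae (ae_of_all _ fun z => by positivity) h0]
  have h1 : ∀ z, ENNReal.ofReal (‖f z‖ ^ 2) = ‖f z‖ₑ ^ (2 : ℝ) := by
    intro z
    rw [ENNReal.ofReal_pow (norm_nonneg _), ofReal_norm]
    norm_cast
  simp only [h1, ENNReal.toReal_ofNat]
  rw [← ENNReal.toReal_pow, ← ENNReal.rpow_natCast, ← ENNReal.rpow_mul]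
  norm_num

theorem inBergman_iff {Ω : Set (Cn n)} (hΩ : IsOpen Ω) {f : Cn n → ℂ} :
    InBergman Ω f ↔ DifferentiableOn ℂ f Ω ∧ MemLp f 2 (volume.restrict Ω) := by
  unfold InBergman
  constructor
  · rintro ⟨h1, h2⟩
    have hm : AEStronglyMeasurable f (volume.restrict Ω) :=
      h1.continuousOn.aestronglyMeasurable hΩ.measurableSet
    exact ⟨h1, (memLp_two_iff_integrable_sq_norm hm).mpr h2⟩
  · rintro ⟨h1, h2⟩
    exact ⟨h1, (memLp_two_iff_integrable_sq_norm h2.1).mp h2⟩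

/-- Criterion for non-compactness of the restriction operator. -/
theorem not_restrictionIsCompact_of_seq {Ω₁ Ω₂ : Set (Cn n)} (h : Ω₂ ⊆ Ω₁)
    (hΩ₁ : IsOpen Ω₁) (hΩ₂ : IsOpen Ω₂) (g : ℕ → Cn n → ℂ)
    (hol : ∀ m, DifferentiableOn ℂ (g m) Ω₁)
    {K κ : ℝ≥0∞} (hK : K ≠ ⊤) (hκ : κ ≠ 0)
    (hub : ∀ m, eLpNorm (g m) 2 (volume.restrict Ω₁) ≤ K)
    (hlb : ∀ m, κ ≤ eLpNorm (g m) 2 (volume.restrict Ω₂))
    (hlim : ∀ z ∈ Ω₂, Tendsto (fun m => g m z) atTop (𝓝 0)) :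
    ¬ RestrictionIsCompact Ω₁ Ω₂ := by
  intro hcomp
  have hmeas : ∀ m, AEStronglyMeasurable (g m) (volume.restrict Ω₁) := fun m =>
    (hol m).continuousOn.aestronglyMeasurable hΩ₁.measurableSet
  have hmem : ∀ m, MemLp (g m) 2 (volume.restrict Ω₁) := fun m =>
    ⟨hmeas m, (hub m).trans_lt hK.lt_top⟩
  have hmem2 : ∀ m, MemLp (g m) 2 (volume.restrict Ω₂) := fun m =>
    (hmem m).mono_measure (Measure.restrict_mono h le_rfl)
  obtain ⟨G, φ, hG, hφ, hlimG⟩ := hcomp g (fun m => (inBergman_iff hΩ₁).mpr ⟨hol m, hmem m⟩)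
    ⟨K.toReal ^ 2, fun m => by
      rw [bergmanNormSq_eq (hmeas m)]
      exact pow_le_pow_left₀ ENNReal.toReal_nonneg (ENNReal.toReal_mono hK (hub m)) 2⟩
  obtain ⟨-, hG2⟩ := (inBergman_iff hΩ₂).mp hG
  -- convergence in `L²`
  have hconv : Tendsto (fun j => eLpNorm (g (φ j) - G) 2 (volume.restrict Ω₂)) atTop (𝓝 0) := by
    have h1 : ∀ j, bergmanNormSq Ω₂ (fun z => g (φ j) z - G z) =
        (eLpNorm (g (φ j) - G) 2 (volume.restrict Ω₂)).toReal ^ 2 := fun j =>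
      bergmanNormSq_eq ((hmem2 (φ j)).sub hG2).1
    simp only [h1] at hlimG
    have h2 : Tendsto (fun j => (eLpNorm (g (φ j) - G) 2 (volume.restrict Ω₂)).toReal)
        atTop (𝓝 0) := by
      have h3 := hlimG.sqrt
      simpa [Real.sqrt_sq ENNReal.toReal_nonneg] using h3
    rw [← ENNReal.tendsto_toReal_iff (fun j => ((hmem2 (φ j)).sub hG2).2.ne)
      ENNReal.zero_ne_top]
    simpa using h2
  have hTM : TendstoInMeasure (volume.restrict Ω₂) (fun j => g (φ j)) atTop G :=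
    tendstoInMeasure_of_tendsto_eLpNorm (by norm_num) (fun j => (hmem2 (φ j)).1) hG2.1 hconv
  obtain ⟨ns, hns, hae⟩ := hTM.exists_seq_tendsto_ae
  have hG0 : G =ᵐ[volume.restrict Ω₂] 0 := by
    filter_upwards [hae, ae_restrict_mem hΩ₂.measurableSet] with z hz1 hz3
    have h4 : Tendsto (fun i => g (φ (ns i)) z) atTop (𝓝 0) :=
      (hlim z hz3).comp (hφ.tendsto_atTop.comp hns.tendsto_atTop)
    exact tendsto_nhds_unique hz1 h4
  have h5 : Tendsto (fun j => eLpNorm (g (φ j)) 2 (volume.restrict Ω₂)) atTop (𝓝 0) := by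
    refine hconv.congr fun j => ?_
    refine eLpNorm_congr_ae ?_
    filter_upwards [hG0] with z hz
    simp [hz]
  have h8 : κ ≤ 0 := ge_of_tendsto' h5 fun i => hlb (φ i)
  exact hκ (le_antisymm h8 zero_le)

/-- The diagonal dilation `z ↦ (m^{eⱼ} zⱼ)`. -/
noncomputable def dil (e : Fin n → ℕ) (m : ℝ) : Cn n →ₗ[ℂ] Cn n :=
  Matrix.toLin' (Matrix.diagonal fun j => ((m : ℂ) ^ e j))

theorem dil_apply (e : Fin n → ℕ) (m : ℝ) (z : Cn n) (j : Fin n) :
    dil e m z j = (m : ℂ) ^ e j * z j := by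
  simp [dil, Matrix.toLin'_apply, Matrix.mulVec_diagonal]

theorem det_dil (e : Fin n → ℕ) (m : ℝ) :
    LinearMap.det ((dil e m).restrictScalars ℝ) = (m ^ (∑ j, e j)) ^ 2 := by
  rw [LinearMap.det_restrictScalars, dil, LinearMap.det_toLin', Matrix.det_diagonal,
    Finset.prod_pow_eq_pow_sum, Algebra.norm_complex_eq]
  have h1 : (Complex.normSq.toMonoidHom : ℂ →* ℝ) ((m : ℂ) ^ ∑ j, e j) =
      Complex.normSq ((m : ℂ) ^ ∑ j, e j) := rfl
  rw [h1, map_pow, Complex.normSq_ofReal]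
  ring

theorem map_dil (e : Fin n → ℕ) {m : ℝ} (hm : 0 < m) :
    Measure.map (dil e m) (volume : Measure (Cn n)) =
      ENNReal.ofReal (((m ^ (∑ j, e j)) ^ 2)⁻¹) • volume := by
  have h1 : LinearMap.det ((dil e m).restrictScalars ℝ) ≠ 0 := by
    rw [det_dil]; positivity
  have h2 := Measure.map_linearMap_addHaar_eq_smul_addHaar (volume : Measure (Cn n)) h1
  rw [det_dil, abs_of_nonneg (by positivity)] at h2
  exact h2

theorem continuous_dil (e : Fin n → ℕ) (m : ℝ) : Continuous (dil e m) := by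
  have : Continuous fun z : Cn n => fun j => (m : ℂ) ^ e j * z j := by fun_prop
  convert this using 1
  funext z j
  rw [dil_apply]

/-- Change of variables for the `L²` norm under dilations. -/
theorem eLpNorm_dil (e : Fin n → ℕ) {m : ℝ} (hm : 0 < m) (Φ : Cn n → ℂ)
    (hΦ : Measurable Φ) {S : Set (Cn n)} (hS : MeasurableSet S) :
    eLpNorm (fun z => ((m ^ (∑ j, e j) : ℝ) : ℂ) • Φ (dil e m z)) 2
      (volume.restrict (dil e m ⁻¹' S)) = eLpNorm Φ 2 (volume.restrict S) := by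
  set D : ℝ := m ^ (∑ j, e j) with hD
  have hD0 : 0 < D := by positivity
  have h1 : (fun z => ((D : ℝ) : ℂ) • Φ (dil e m z)) = ((D : ℝ) : ℂ) • (Φ ∘ dil e m) := rfl
  rw [h1, eLpNorm_const_smul]
  have h2 : eLpNorm (Φ ∘ dil e m) 2 (volume.restrict (dil e m ⁻¹' S)) =
      eLpNorm Φ 2 ((Measure.map (dil e m) volume).restrict S) := by
    rw [Measure.restrict_map (continuous_dil e m).measurable hS, eLpNorm_map_measure]
    · exact hΦ.aestronglyMeasurable
    · exact (continuous_dil e m).measurable.aemeasurable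
  rw [h2, map_dil e hm, Measure.restrict_smul, eLpNorm_smul_measure_of_ne_top (by simp),
    smul_eq_mul, ← mul_assoc, ← hD]
  have h3 : ‖((D : ℝ) : ℂ)‖ₑ * ENNReal.ofReal ((D ^ 2)⁻¹) ^ (1 / (2 : ℝ≥0∞)).toReal = 1 := by
    have h4 : (1 / (2 : ℝ≥0∞)).toReal = 1 / 2 := by simp
    rw [h4, ENNReal.ofReal_rpow_of_pos (by positivity), ← ofReal_norm,
      ← ENNReal.ofReal_mul (norm_nonneg _), Complex.norm_real, Real.norm_eq_abs,
      abs_of_pos hD0, ← Real.sqrt_eq_rpow, Real.sqrt_inv, Real.sqrt_sq hD0.le,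
      mul_inv_cancel₀ hD0.ne', ENNReal.ofReal_one]
  rw [h3, one_mul]

end Pool.Agent.Helper63.SCV
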