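import Pool.Agent.Helper63.Defs46c

set_option autoImplicit false
set_option linter.unusedSectionVars false

open MeasureTheory Filter Topology Asymptotics
open scoped ENNReal ContDiff NNReal

namespace Pool.Agent.Helper63.SCV

variable {n : ℕ}

/-! ### Two local defining functions are comparable -/

theorem IsLocalDefiningFunction.contDiffAt {Ω : Set (Cn n)} {p : Cn n} {r : Cn n → ℝ}
    (hr : IsLocalDefiningFunction Ω p r) : ContDiffAt ℝ ∞ r p := by
  obtain ⟨U, hU, hpU, hc, -, -⟩ := hr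
  exact hc.contDiffAt (hU.mem_nhds hpU)

theorem IsLocalDefiningFunction.isBigO {Ω : Set (Cn n)} {p : Cn n} {r r' : Cn n → ℝ}
    (hp : p ∈ frontier Ω) (hr : IsLocalDefiningFunction Ω p r)
    (hr' : IsLocalDefiningFunction Ω p r') : r' =O[𝓝 p] r := by
  have hcr := hr.contDiffAt
  have hcr' := hr'.contDiffAt
  obtain ⟨U, hU, hpU, hcU, hΩU, hdr⟩ := hr
  obtain ⟨U', hU', hpU', hcU', hΩU', hdr'⟩ := hr'
  -- a transversal direction
  obtain ⟨v, hv⟩ : ∃ v : Cn n, fderiv ℝ r p v = 1 := by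
    obtain ⟨w, hw⟩ : ∃ w, fderiv ℝ r p w ≠ 0 := by
      by_contra hcon
      push Not at hcon
      exact hdr (ContinuousLinearMap.ext fun w => by simpa using hcon w)
    refine ⟨(fderiv ℝ r p w)⁻¹ • w, ?_⟩
    simp [hw]
  have hv0 : 0 < ‖v‖ := by
    rw [norm_pos_iff]
    rintro rfl
    simp at hv
  have hs := hcr.hasStrictFDerivAt (by simp)
  have hs' := hcr'.hasStrictFDerivAt (by simp)
  obtain ⟨K, T, hT, hLip⟩ := hs'.exists_lipschitzOnWith
  have h1 := hs.isLittleO.bound (show (0 : ℝ) < 1 / (2 * ‖v‖) by positivity)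
  rw [nhds_prod_eq, Filter.eventually_prod_self_iff'] at h1
  obtain ⟨W, hW, hWW⟩ := h1
  obtain ⟨δ, hδ, hball⟩ := Metric.mem_nhds_iff.mp
    (Filter.inter_mem (Filter.inter_mem (hU.mem_nhds hpU) (hU'.mem_nhds hpU'))
      (Filter.inter_mem hT hW))
  have hbU : ∀ {z}, z ∈ Metric.ball p δ → z ∈ U := fun hz => (hball hz).1.1
  have hbU' : ∀ {z}, z ∈ Metric.ball p δ → z ∈ U' := fun hz => (hball hz).1.2
  have hbT : ∀ {z}, z ∈ Metric.ball p δ → z ∈ T := fun hz => (hball hz).2.1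
  have hbW : ∀ {z}, z ∈ Metric.ball p δ → z ∈ W := fun hz => (hball hz).2.2
  -- estimate along the direction `v`
  have hmono : ∀ {z : Cn n} {s : ℝ}, z ∈ Metric.ball p δ → z + s • v ∈ Metric.ball p δ →
      |r (z + s • v) - r z - s| ≤ |s| / 2 := by
    intro z s hz hzs
    have h2 := hWW _ (hbW hzs) _ (hbW hz)
    simp only [add_sub_cancel_left, map_smul, hv, norm_smul, Real.norm_eq_abs, smul_eq_mul,
      mul_one] at h2
    calc |r (z + s • v) - r z - s| ≤ 1 / (2 * ‖v‖) * (|s| * ‖v‖) := h2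
      _ = |s| / 2 := by field_simp
  -- boundary points are zeros of r and r'
  have hrp : r p = 0 := by
    have hp1 : p ∉ interior Ω := hp.2
    have hp2 : p ∈ closure Ω := hp.1
    have hcont : ContinuousAt r p := hcr.continuousAt
    refine le_antisymm ?_ ?_
    · by_contra hcon
      push Not at hcon
      have h3 : ∀ᶠ z in 𝓝 p, 0 < r z ∧ z ∈ U :=
        (hcont.eventually_const_lt hcon).and (hU.mem_nhds hpU)
      rw [mem_closure_iff_frequently] at hp2
      obtain ⟨z, hz, h4, h5⟩ := (hp2.and_eventually h3).exists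
      have h6 : z ∈ {z | z ∈ U ∧ r z < 0} := hΩU ▸ (⟨hz, h5⟩ : z ∈ Ω ∩ U)
      exact absurd h6.2 (not_lt.mpr h4.le)
    · by_contra hcon
      push Not at hcon
      have h3 : ∀ᶠ z in 𝓝 p, r z < 0 ∧ z ∈ U :=
        (hcont.eventually_lt_const hcon).and (hU.mem_nhds hpU)
      refine hp1 (mem_interior_iff_mem_nhds.mpr ?_)
      filter_upwards [h3] with z hz
      have h6 : z ∈ Ω ∩ U := hΩU ▸ (⟨hz.2, hz.1⟩ : z ∈ {z | z ∈ U ∧ r z < 0})
      exact h6.1
  have hzero : ∀ {q : Cn n}, q ∈ Metric.ball p δ → r q = 0 → r' q = 0 := by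
    intro q hq hrq
    have hqΩ : q ∉ Ω := by
      intro hqΩ
      have h6 : q ∈ {z | z ∈ U ∧ r z < 0} := hΩU ▸ (⟨hqΩ, hbU hq⟩ : q ∈ Ω ∩ U)
      exact absurd h6.2 (by rw [hrq]; exact lt_irrefl _)
    refine le_antisymm ?_ ?_
    · -- approach q from inside
      have h3 : Tendsto (fun s : ℝ => q + (-s) • v) (𝓝[>] 0) (𝓝 q) := by
        have h4 : Tendsto (fun s : ℝ => q + (-s) • v) (𝓝 0) (𝓝 q) := by
          have : Continuous (fun s : ℝ => q + (-s) • v) := by fun_prop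
          simpa using this.tendsto 0
        exact h4.mono_left nhdsWithin_le_nhds
      have hcq : ContinuousAt r' q :=
        (hcU'.continuousOn).continuousAt (hU'.mem_nhds (hbU' hq))
      have h5 : Tendsto (fun s : ℝ => r' (q + (-s) • v)) (𝓝[>] 0) (𝓝 (r' q)) :=
        hcq.tendsto.comp h3
      refine le_of_tendsto h5 ?_
      have h6 : ∀ᶠ s : ℝ in 𝓝[>] 0, q + (-s) • v ∈ Metric.ball p δ :=
        h3.eventually (Metric.isOpen_ball.mem_nhds hq)
      filter_upwards [h6, self_mem_nhdsWithin] with s hs1 hs2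
      have hs2' : 0 < s := hs2
      have h7 := hmono hq hs1
      rw [hrq, abs_neg, abs_of_pos hs2'] at h7
      have h8 := (abs_le.mp h7).2
      have h9 : r (q + (-s) • v) < 0 := by linarith
      have h10 : q + (-s) • v ∈ Ω ∩ U :=
        hΩU ▸ (⟨hbU hs1, h9⟩ : q + (-s) • v ∈ {z | z ∈ U ∧ r z < 0})
      have h11 : q + (-s) • v ∈ {z | z ∈ U' ∧ r' z < 0} :=
        hΩU' ▸ (⟨h10.1, hbU' hs1⟩ : q + (-s) • v ∈ Ω ∩ U')
      exact h11.2.le
    · by_contra hcon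
      push Not at hcon
      have h11 : q ∈ Ω ∩ U' := hΩU' ▸ (⟨hbU' hq, hcon⟩ : q ∈ {z | z ∈ U' ∧ r' z < 0})
      exact hqΩ h11.1
  -- conclusion
  refine IsBigO.of_bound (2 * K * ‖v‖) ?_
  have h12 : ∀ᶠ z in 𝓝 p, |r z| < δ / (4 * ‖v‖) := by
    have h13 : Tendsto (fun z => |r z|) (𝓝 p) (𝓝 0) := by
      have := hcr.continuousAt.abs
      simpa [ContinuousAt, hrp] using this
    exact h13.eventually_lt_const (by positivity)
  filter_upwards [h12, Metric.ball_mem_nhds p (show 0 < δ / 2 by positivity)] with z hz1 hz2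
  have hzδ : z ∈ Metric.ball p δ := Metric.ball_subset_ball (by linarith) hz2
  set s : ℝ := -2 * r z with hsdef
  have hsabs : |s| = 2 * |r z| := by
    rw [hsdef, abs_mul]; norm_num
  have hin : ∀ τ ∈ Set.Icc (0 : ℝ) 1, z + (τ * s) • v ∈ Metric.ball p δ := by
    intro τ hτ
    rw [Metric.mem_ball, dist_eq_norm] at hz2 ⊢
    have e1 : z + (τ * s) • v - p = (z - p) + (τ * s) • v := by abel
    rw [e1]
    have h14 : ‖(τ * s) • v‖ < δ / 2 := by
      rw [norm_smul, Real.norm_eq_abs, abs_mul, hsabs, abs_of_nonneg hτ.1]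
      rw [lt_div_iff₀ (by positivity)] at hz1
      have h15 : τ * (2 * |r z|) ≤ 1 * (2 * |r z|) :=
        mul_le_mul_of_nonneg_right hτ.2 (by positivity)
      have h16 : τ * (2 * |r z|) * ‖v‖ ≤ 1 * (2 * |r z|) * ‖v‖ :=
        mul_le_mul_of_nonneg_right h15 hv0.le
      nlinarith
    calc ‖(z - p) + (τ * s) • v‖ ≤ ‖z - p‖ + ‖(τ * s) • v‖ := norm_add_le _ _
      _ < δ / 2 + δ / 2 := add_lt_add hz2 h14
      _ = δ := by ring
  have hcontφ : ContinuousOn (fun τ : ℝ => r (z + (τ * s) • v)) (Set.Icc 0 1) := by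
    refine ContinuousOn.comp (t := U) hcU.continuousOn ?_ ?_
    · fun_prop
    · intro τ hτ
      exact hbU (hin τ hτ)
  have hend := hmono hzδ (by simpa using hin 1 ⟨zero_le_one, le_rfl⟩)
  obtain ⟨τ, hτ, hτ0⟩ : ∃ τ ∈ Set.Icc (0 : ℝ) 1, r (z + (τ * s) • v) = 0 := by
    rw [hsabs] at hend
    have h17 := abs_le.mp hend
    by_cases hrz : 0 ≤ r z
    · have h18 : r (z + s • v) ≤ 0 := by
        rw [abs_of_nonneg hrz] at h17
        simp only [hsdef] at h17 ⊢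
        linarith [h17.2]
      have := intermediate_value_Icc' (zero_le_one' ℝ) hcontφ
      have h19 : (0 : ℝ) ∈ Set.Icc (r (z + ((1 : ℝ) * s) • v)) (r (z + ((0 : ℝ) * s) • v)) := by
        rw [one_mul, zero_mul, zero_smul, add_zero]
        exact ⟨h18, hrz⟩
      obtain ⟨τ, hτ, h20⟩ := this h19
      exact ⟨τ, hτ, h20⟩
    · push Not at hrz
      have h18 : 0 ≤ r (z + s • v) := by
        rw [abs_of_neg hrz] at h17
        simp only [hsdef] at h17 ⊢
        linarith [h17.1]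
      have := intermediate_value_Icc (zero_le_one' ℝ) hcontφ
      have h19 : (0 : ℝ) ∈ Set.Icc (r (z + ((0 : ℝ) * s) • v)) (r (z + ((1 : ℝ) * s) • v)) := by
        rw [one_mul, zero_mul, zero_smul, add_zero]
        exact ⟨hrz.le, h18⟩
      obtain ⟨τ, hτ, h20⟩ := this h19
      exact ⟨τ, hτ, h20⟩
  have hq := hin τ hτ
  have h21 := hzero hq hτ0
  have h22 := hLip.dist_le_mul z (hbT hzδ) _ (hbT hq)
  rw [h21, dist_zero_right] at h22
  have h23 : dist z (z + (τ * s) • v) = τ * |s| * ‖v‖ := by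
    rw [dist_eq_norm]
    have : z - (z + (τ * s) • v) = -((τ * s) • v) := by abel
    rw [this, norm_neg, norm_smul, Real.norm_eq_abs, abs_mul, abs_of_nonneg hτ.1]
  rw [h23, hsabs] at h22
  calc ‖r' z‖ ≤ K * (τ * (2 * |r z|) * ‖v‖) := h22
    _ ≤ K * (1 * (2 * |r z|) * ‖v‖) := by
        gcongr
        exact hτ.2
    _ = 2 * K * ‖v‖ * ‖r z‖ := by rw [Real.norm_eq_abs]; ring

/-! ### Orders of vanishing -/

theorem vanishingOrder_mono {E F : Type*} [NormedAddCommGroup E] [NormedAddCommGroup F]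
    {f : ℂ → E} {g : ℂ → F} (h : f =O[𝓝 0] g) : vanishingOrder g ≤ vanishingOrder f := by
  unfold vanishingOrder
  refine iSup_le fun m => iSup_le fun hm => ?_
  exact le_iSup_of_le m (le_iSup_of_le (h.trans hm) le_rfl)

theorem le_vanishingOrder {E : Type*} [NormedAddCommGroup E] {g : ℂ → E} {m : ℕ}
    (h : g =O[𝓝 0] fun t : ℂ => ‖t‖ ^ m) : (m : ℕ∞) ≤ vanishingOrder g :=
  le_iSup_of_le m (le_iSup_of_le h le_rfl)

/-- If `|g|` is at least `c |t|^k` for arbitrarily small nonzero `t`, the order of vanishing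
is at most `k`. -/
theorem vanishingOrder_le {E : Type*} [NormedAddCommGroup E] {g : ℂ → E} {k : ℕ} {c : ℝ}
    (hc : 0 < c) (h : ∃ᶠ t in 𝓝[≠] (0 : ℂ), c * ‖t‖ ^ k ≤ ‖g t‖) :
    vanishingOrder g ≤ k := by
  refine iSup_le fun m => iSup_le fun hm => ?_
  by_contra hcon
  have hkm : k < m := by
    have : ¬ ((m : ℕ∞) ≤ (k : ℕ∞)) := hcon
    rw [Nat.cast_le] at this
    omega
  obtain ⟨C, hC⟩ := hm.bound
  have hC' : ∀ᶠ t in 𝓝[≠] (0 : ℂ), ‖g t‖ ≤ C * ‖(‖t‖ ^ m : ℝ)‖ :=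
    hC.filter_mono nhdsWithin_le_nhds
  have hsmall : ∀ᶠ t in 𝓝[≠] (0 : ℂ), (|C| + 1) * ‖t‖ ^ (m - k) < c := by
    have h1 : Tendsto (fun t : ℂ => (|C| + 1) * ‖t‖ ^ (m - k)) (𝓝 0) (𝓝 0) := by
      have : Continuous fun t : ℂ => (|C| + 1) * ‖t‖ ^ (m - k) := by fun_prop
      have h2 := this.tendsto 0
      have h3 : m - k ≠ 0 := by omega
      simpa [h3] using h2
    exact (h1.eventually_lt_const hc).filter_mono nhdsWithin_le_nhds
  have hne : ∀ᶠ t in 𝓝[≠] (0 : ℂ), t ≠ 0 := self_mem_nhdsWithin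
  obtain ⟨t, ht1, ht2, ht3, ht4⟩ :=
    (h.and_eventually (hC'.and (hsmall.and hne))).exists
  have ht0 : 0 < ‖t‖ := norm_pos_iff.mpr ht4
  have h5 : c * ‖t‖ ^ k ≤ |C| * ‖t‖ ^ m := by
    refine (ht1.trans ht2).trans ?_
    rw [norm_pow, norm_norm]
    exact mul_le_mul_of_nonneg_right (le_abs_self C) (by positivity)
  have h6 : ‖t‖ ^ m = ‖t‖ ^ k * ‖t‖ ^ (m - k) := by
    rw [← pow_add]; congr 1; omega
  rw [h6] at h5
  have h7 : 0 < ‖t‖ ^ k := by positivity
  have h8 : 0 < ‖t‖ ^ (m - k) := by positivity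
  have h9 : c ≤ |C| * ‖t‖ ^ (m - k) := by
    by_contra hcon2
    push Not at hcon2
    nlinarith
  nlinarith

/-! ### Germs of holomorphic curves -/

/-- The order of a nonconstant germ. -/
theorem exists_order {γ : ℂ → Cn n} {p : Cn n} (hγ : AnalyticAt ℂ γ 0)
    (hnc : ¬ ∀ᶠ t in 𝓝 0, γ t = p) :
    ∃ (k : ℕ) (c : ℝ), 0 < c ∧ (∀ᶠ t in 𝓝 (0 : ℂ), c * ‖t‖ ^ k ≤ ‖γ t - p‖) ∧
      vanishingOrder (fun t => γ t - p) = k := by
  have h1 : AnalyticAt ℂ (fun t => γ t - p) 0 := hγ.sub analyticAt_const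
  have h2 : ¬ ∀ᶠ t in 𝓝 0, (fun t => γ t - p) t = 0 := by
    intro hcon
    exact hnc (hcon.mono fun t ht => sub_eq_zero.mp ht)
  obtain ⟨k, g, hg, hg0, hgk⟩ := h1.exists_eventuallyEq_pow_smul_nonzero_iff.mpr h2
  have hg0' : 0 < ‖g 0‖ := norm_pos_iff.mpr hg0
  have hlow : ∀ᶠ t in 𝓝 (0 : ℂ), ‖g 0‖ / 2 * ‖t‖ ^ k ≤ ‖γ t - p‖ := by
    have h3 : ∀ᶠ t in 𝓝 (0 : ℂ), ‖g 0‖ / 2 < ‖g t‖ :=
      hg.continuousAt.norm.eventually_const_lt (by linarith)
    filter_upwards [hgk, h3] with t ht1 ht2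
    have : γ t - p = (t - 0) ^ k • g t := ht1
    rw [this, sub_zero, norm_smul, norm_pow, mul_comm]
    exact mul_le_mul_of_nonneg_left ht2.le (by positivity)
  refine ⟨k, ‖g 0‖ / 2, by positivity, hlow, le_antisymm ?_ ?_⟩
  · refine vanishingOrder_le (c := ‖g 0‖ / 2) (by positivity) ?_
    exact (hlow.filter_mono nhdsWithin_le_nhds).frequently
  · refine le_vanishingOrder ?_
    refine IsBigO.of_bound (‖g 0‖ + 1) ?_
    have h3 : ∀ᶠ t in 𝓝 (0 : ℂ), ‖g t‖ < ‖g 0‖ + 1 :=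
      hg.continuousAt.norm.eventually_lt_const (by linarith)
    filter_upwards [hgk, h3] with t ht1 ht2
    have : γ t - p = (t - 0) ^ k • g t := ht1
    rw [this, sub_zero, norm_smul, norm_pow, norm_pow, norm_norm, mul_comm]
    exact mul_le_mul_of_nonneg_right ht2.le (by positivity)

/-- For a scalar analytic germ vanishing at `0` there is a direction along which its real
part is nonnegative. -/
theorem exists_direction {f : ℂ → ℂ} (hf : AnalyticAt ℂ f 0) (hf0 : f 0 = 0) :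
    ∃ w : ℂ, w ≠ 0 ∧ ∀ᶠ s : ℝ in 𝓝[>] 0, 0 ≤ (f ((s : ℂ) * w)).re := by
  by_cases hz : ∀ᶠ t in 𝓝 0, f t = 0
  · refine ⟨1, one_ne_zero, ?_⟩
    have h1 : Tendsto (fun s : ℝ => ((s : ℂ) * 1)) (𝓝[>] 0) (𝓝 0) := by
      have : Continuous (fun s : ℝ => ((s : ℂ) * 1)) := by fun_prop
      have h2 := this.tendsto 0
      simp only [Complex.ofReal_zero, zero_mul] at h2
      exact h2.mono_left nhdsWithin_le_nhds
    filter_upwards [h1.eventually hz] with s hs
    rw [hs]; simp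
  · obtain ⟨k, g, hg, hg0, hgk⟩ := hf.exists_eventuallyEq_pow_smul_nonzero_iff.mpr hz
    have hk : 0 < k := by
      rcases Nat.eq_zero_or_pos k with h | h
      · subst h
        have := hgk.self_of_nhds
        rw [hf0] at this
        simp at this
        exact absurd this.symm hg0
      · exact h
    obtain ⟨w, hw⟩ := IsAlgClosed.exists_pow_nat_eq ((starRingEnd ℂ) (g 0)) hk
    have hw0 : w ≠ 0 := by
      rintro rfl
      rw [zero_pow hk.ne'] at hw
      exact hg0 (by simpa using hw.symm)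
    refine ⟨w, hw0, ?_⟩
    have h1 : Tendsto (fun s : ℝ => ((s : ℂ) * w)) (𝓝[>] 0) (𝓝 0) := by
      have : Continuous (fun s : ℝ => ((s : ℂ) * w)) := by fun_prop
      have h2 := this.tendsto 0
      simp only [Complex.ofReal_zero, zero_mul] at h2
      exact h2.mono_left nhdsWithin_le_nhds
    have h3 : Tendsto (fun t : ℂ => ((starRingEnd ℂ) (g 0) * g t).re) (𝓝 0)
        (𝓝 ((starRingEnd ℂ) (g 0) * g 0).re) :=
      (Complex.continuous_re.tendsto _).comp (hg.continuousAt.tendsto.const_mul _)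
    have h4 : 0 < ((starRingEnd ℂ) (g 0) * g 0).re := by
      rw [mul_comm, Complex.mul_conj, Complex.ofReal_re]
      exact Complex.normSq_pos.mpr hg0
    have h5 := h3.eventually_const_lt h4
    filter_upwards [h1.eventually hgk, h1.eventually h5, self_mem_nhdsWithin] with s hs1 hs2 hs3
    have hs3' : (0 : ℝ) < s := hs3
    rw [hs1, sub_zero, smul_eq_mul, mul_pow, hw, mul_assoc, ← Complex.ofReal_pow,
      Complex.re_ofReal_mul]
    exact mul_nonneg (by positivity) hs2.le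

variable [NeZero n]

theorem vanishingOrder_comp_le {r : Cn n → ℝ} {L : ℕ} {c : ℝ} (hc : 0 < c)
    (hr : ∀ᶠ z in 𝓝 (0 : Cn n), (z 0).re + c * ‖z‖ ^ (2 * L) ≤ r z)
    {γ : ℂ → Cn n} (hγ : AnalyticAt ℂ γ 0) (hγ0 : γ 0 = 0)
    {k : ℕ} {c' : ℝ} (hc' : 0 < c') (hk : ∀ᶠ t in 𝓝 (0 : ℂ), c' * ‖t‖ ^ k ≤ ‖γ t - 0‖) :
    vanishingOrder (fun t => r (γ t)) ≤ ((2 * L * k : ℕ) : ℕ∞) := by
  have hf : AnalyticAt ℂ (fun t => γ t 0) 0 := by
    have h1 := (ContinuousLinearMap.proj (R := ℂ) (φ := fun _ : Fin n => ℂ) 0).analyticAt (γ 0)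
    exact h1.comp hγ
  obtain ⟨w, hw, hre⟩ := exists_direction hf (by simp [hγ0])
  refine vanishingOrder_le (c := c * c' ^ (2 * L)) (by positivity) ?_
  have h1 : Tendsto (fun s : ℝ => ((s : ℂ) * w)) (𝓝[>] 0) (𝓝[≠] 0) := by
    rw [tendsto_nhdsWithin_iff]
    constructor
    · have : Continuous (fun s : ℝ => ((s : ℂ) * w)) := by fun_prop
      have h2 := this.tendsto 0
      simp only [Complex.ofReal_zero, zero_mul] at h2
      exact h2.mono_left nhdsWithin_le_nhds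
    · filter_upwards [self_mem_nhdsWithin] with s hs
      have hs' : (0 : ℝ) < s := hs
      simp [hw, hs'.ne']
  have h2 : Tendsto γ (𝓝[≠] (0 : ℂ)) (𝓝 0) := by
    have := hγ.continuousAt.tendsto
    rw [hγ0] at this
    exact this.mono_left nhdsWithin_le_nhds
  refine h1.frequently ?_
  refine Eventually.frequently ?_
  filter_upwards [hre, (h1.eventually (hk.filter_mono nhdsWithin_le_nhds)),
    (h1.eventually (h2.eventually hr))] with s hs1 hs2 hs3
  set t : ℂ := (s : ℂ) * w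
  rw [sub_zero] at hs2
  have h3 : c * (c' * ‖t‖ ^ k) ^ (2 * L) ≤ c * ‖γ t‖ ^ (2 * L) := by
    gcongr
  calc c * c' ^ (2 * L) * ‖t‖ ^ (2 * L * k) = c * (c' * ‖t‖ ^ k) ^ (2 * L) := by
        rw [mul_pow, ← pow_mul, mul_comm k (2 * L), mul_assoc]
    _ ≤ c * ‖γ t‖ ^ (2 * L) := h3
    _ ≤ r (γ t) := by linarith
    _ ≤ ‖r (γ t)‖ := Real.le_norm_self _

/-- Computation of the D'Angelo type at `0` of a domain having a defining function `r₀` with
`Re z₀ + c ‖z‖^{2L} ≤ r₀` near `0` and a complex line through `0` along which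
`r₀ = O(|t|^{2L})`, with respect to an arbitrary local defining function `r`. -/
theorem dangeloType_eq {Ω : Set (Cn n)} {r₀ r : Cn n → ℝ} {L : ℕ} {c : ℝ} (hc : 0 < c)
    (hΩ : (0 : Cn n) ∈ frontier Ω)
    (hr₀ : IsLocalDefiningFunction Ω 0 r₀) (hr : IsLocalDefiningFunction Ω 0 r)
    (hlow : ∀ᶠ z in 𝓝 (0 : Cn n), (z 0).re + c * ‖z‖ ^ (2 * L) ≤ r₀ z)
    {v : Cn n} (hv : v ≠ 0)
    (hup : (fun t : ℂ => r₀ (t • v)) =O[𝓝 0] fun t : ℂ => ‖t‖ ^ (2 * L)) :
    dangeloType r 0 = ((2 * L : ℕ) : ℝ≥0∞) := by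
  have hO1 : r =O[𝓝 0] r₀ := hr₀.isBigO hΩ hr
  have hO2 : r₀ =O[𝓝 0] r := hr.isBigO hΩ hr₀
  have hcomp : ∀ {γ : ℂ → Cn n}, AnalyticAt ℂ γ 0 → γ 0 = 0 →
      vanishingOrder (fun t => r (γ t)) = vanishingOrder (fun t => r₀ (γ t)) := by
    intro γ hγ hγ0
    have h2 : Tendsto γ (𝓝 (0 : ℂ)) (𝓝 0) := by
      have := hγ.continuousAt.tendsto
      rwa [hγ0] at this
    exact le_antisymm (vanishingOrder_mono (hO2.comp_tendsto h2))
      (vanishingOrder_mono (hO1.comp_tendsto h2))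
  unfold dangeloType
  refine le_antisymm ?_ ?_
  · refine iSup_le fun γ => iSup_le fun hγ => iSup_le fun hγ0 => iSup_le fun hnc => ?_
    obtain ⟨k, c', hc', hk, hord⟩ := exists_order hγ hnc
    have h3 := vanishingOrder_comp_le hc hlow hγ hγ0 hc' hk
    rw [hord, hcomp hγ hγ0]
    refine ENNReal.div_le_of_le_mul ?_
    calc ((vanishingOrder (fun t => r₀ (γ t)) : ℕ∞) : ℝ≥0∞)
        ≤ (((2 * L * k : ℕ) : ℕ∞) : ℝ≥0∞) := by exact_mod_cast h3
      _ = ((2 * L : ℕ) : ℝ≥0∞) * (((k : ℕ) : ℕ∞) : ℝ≥0∞) := by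
        rw [ENat.toENNReal_coe, ENat.toENNReal_coe, Nat.cast_mul (2 * L) k]
  · set γ : ℂ → Cn n := fun t => t • v with hγdef
    have hγ : AnalyticAt ℂ γ 0 := by
      rw [hγdef]
      fun_prop
    have hγ0 : γ 0 = 0 := by simp [hγdef]
    have hv0 : 0 < ‖v‖ := norm_pos_iff.mpr hv
    have hnc : ¬ ∀ᶠ t in 𝓝 0, γ t = 0 := by
      intro hcon
      have h5 : ∀ᶠ t in 𝓝[≠] (0 : ℂ), γ t = 0 := hcon.filter_mono nhdsWithin_le_nhds
      obtain ⟨t, ht1, ht2⟩ := (h5.and self_mem_nhdsWithin).exists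
      have : t • v = 0 := ht1
      rw [smul_eq_zero] at this
      exact this.elim ht2 hv
    have hden : vanishingOrder (fun t => γ t - 0) ≤ ((1 : ℕ) : ℕ∞) := by
      refine vanishingOrder_le (c := ‖v‖) hv0 ?_
      refine Eventually.frequently ?_
      filter_upwards with t
      rw [sub_zero, hγdef, norm_smul, pow_one, mul_comm]
    have hnum : ((2 * L : ℕ) : ℕ∞) ≤ vanishingOrder (fun t => r (γ t)) := by
      rw [hcomp hγ hγ0]
      exact le_vanishingOrder hup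
    refine le_iSup_of_le γ (le_iSup_of_le hγ (le_iSup_of_le hγ0 (le_iSup_of_le hnc ?_)))
    calc ((2 * L : ℕ) : ℝ≥0∞) = (((2 * L : ℕ) : ℕ∞) : ℝ≥0∞) / (((1 : ℕ) : ℕ∞) : ℝ≥0∞) := by
          simp
      _ ≤ _ := by
          refine ENNReal.div_le_div ?_ ?_
          · exact_mod_cast hnum
          · exact_mod_cast hden

end Pool.Agent.Helper63.SCV
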