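import Pool.Agent.Helper63.Domain46c
import Pool.Agent.Helper63.Type46c
import Pool.Agent.Helper63.Noncompact46c

set_option autoImplicit false
set_option linter.unusedSectionVars false

open MeasureTheory Filter Topology Asymptotics
open scoped ENNReal NNReal

namespace Pool.Agent.Helper63.SCV

section model

variable {k : ℕ}

/-- Exponents: `2` for `z₁`, `N` for `z₂`, and `1` for the other coordinates. -/
def expo (N : ℕ) (j : Fin (k + 3)) : ℕ := if j = 1 then 2 else if j = 2 then N else 1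

/-- The holomorphic functions defining the larger domain. -/
def hOne (N : ℕ) : Option (Fin (k + 3)) → Cn (k + 3) → ℂ
  | none => fun z => z 1 * z 2
  | some j => fun z => z j ^ expo N j

/-- Degrees. -/
def dOne (N : ℕ) : Option (Fin (k + 3)) → ℕ
  | none => 2
  | some j => expo N j

/-- The holomorphic functions defining the smaller domain. -/
def hTwo (M N : ℕ) : Option (Fin (k + 3)) ⊕ Fin (k + 3) → Cn (k + 3) → ℂ
  | Sum.inl i => hOne N i
  | Sum.inr j => fun z => z j ^ expo M j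

/-- Degrees. -/
def dTwo (M N : ℕ) : Option (Fin (k + 3)) ⊕ Fin (k + 3) → ℕ
  | Sum.inl i => dOne N i
  | Sum.inr j => expo M j

theorem expo_pos {N : ℕ} (hN : 2 ≤ N) (j : Fin (k + 3)) : 1 ≤ expo N j := by
  unfold expo
  split_ifs <;> omega

theorem expo_le {N : ℕ} (hN : 2 ≤ N) (j : Fin (k + 3)) : expo N j ≤ N := by
  unfold expo
  split_ifs <;> omega

theorem val_two_fin : ((2 : Fin (k + 3)) : ℕ) = 2 := by
  have h1 : ((2 : Fin (k + 3)) : ℕ) = 2 % (k + 3) := rfl
  rw [h1, Nat.mod_eq_of_lt (by omega)]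

theorem val_one_fin : ((1 : Fin (k + 3)) : ℕ) = 1 := by
  have h1 : ((1 : Fin (k + 3)) : ℕ) = 1 % (k + 3) := rfl
  rw [h1, Nat.mod_eq_of_lt (by omega)]

theorem two_ne_one_fin : (2 : Fin (k + 3)) ≠ 1 := by
  intro h
  have := congrArg Fin.val h
  rw [val_two_fin, val_one_fin] at this
  omega

theorem two_ne_zero_fin : (2 : Fin (k + 3)) ≠ 0 := by
  intro h
  have := congrArg Fin.val h
  rw [val_two_fin, Fin.val_zero] at this
  omega

theorem expo_zero (N : ℕ) : expo (k := k) N 0 = 1 := by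
  unfold expo
  have h1 : (0 : Fin (k + 3)) ≠ 1 := by simp
  have h2 : (0 : Fin (k + 3)) ≠ 2 := two_ne_zero_fin.symm
  simp [h1, h2]

theorem expo_one (N : ℕ) : expo (k := k) N 1 = 2 := by
  simp [expo]

theorem expo_two (N : ℕ) : expo (k := k) N 2 = N := by
  simp [expo, two_ne_one_fin]

theorem contDiff_coord_pow {n : ℕ} (j : Fin n) (a : ℕ) :
    ContDiff ℂ ((⊤ : ℕ∞) : WithTop ℕ∞) (fun z : Cn n => z j ^ a) := by
  fun_prop

theorem good_one {N : ℕ} (hN : 2 ≤ N) :
    Good (hOne (k := k) N) (dOne N) (expo N) where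
  smooth i := by
    rcases i with _ | j
    · show ContDiff ℂ _ (fun z : Cn (k + 3) => z 1 * z 2)
      fun_prop
    · exact contDiff_coord_pow j _
  one_le i := by
    rcases i with _ | j
    · show 1 ≤ 2
      omega
    · exact expo_pos hN j
  hom i t z := by
    rcases i with _ | j
    · show (t • z) 1 * (t • z) 2 = (t : ℂ) ^ 2 * (z 1 * z 2)
      simp only [Pi.smul_apply, Complex.real_smul]
      ring
    · show (t • z) j ^ expo N j = (t : ℂ) ^ expo N j * z j ^ expo N j
      simp only [Pi.smul_apply, Complex.real_smul, mul_pow]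
  a_zero := expo_zero N
  a_pos j := by have := expo_pos hN j; omega
  coord j := ⟨some j, fun z => norm_pow _ _⟩

theorem good_two {M N : ℕ} (hM : 2 ≤ M) (hN : 2 ≤ N) :
    Good (hTwo (k := k) M N) (dTwo M N) (expo N) where
  smooth i := by
    rcases i with i | j
    · exact (good_one hN).smooth i
    · exact contDiff_coord_pow j _
  one_le i := by
    rcases i with i | j
    · exact (good_one hN).one_le i
    · exact expo_pos hM j
  hom i t z := by
    rcases i with i | j
    · exact (good_one hN).hom i t z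
    · show (t • z) j ^ expo M j = (t : ℂ) ^ expo M j * z j ^ expo M j
      simp only [Pi.smul_apply, Complex.real_smul, mul_pow]
  a_zero := expo_zero N
  a_pos j := by have := expo_pos hN j; omega
  coord j := ⟨Sum.inl (some j), fun z => norm_pow _ _⟩

/-- `Ω₁`. -/
def OmOne (k N : ℕ) : Set (Cn (k + 3)) := dom (hOne N)

/-- `Ω₂`. -/
def OmTwo (k M N : ℕ) : Set (Cn (k + 3)) := dom (hTwo M N)

theorem rho_two (M N : ℕ) (z : Cn (k + 3)) :
    rho (hTwo M N) z = rho (hOne N) z + ∑ j, ‖z j ^ expo M j‖ ^ 2 := by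
  unfold rho
  rw [Fintype.sum_sum_type]
  simp only [hTwo]
  ring

theorem OmTwo_subset (M N : ℕ) : OmTwo k M N ⊆ OmOne k N := by
  intro z hz
  have h1 : rho (hTwo M N) z < 0 := hz
  rw [rho_two] at h1
  have h2 : 0 ≤ ∑ j, ‖z j ^ expo M j‖ ^ 2 := Finset.sum_nonneg fun i _ => by positivity
  show rho (hOne N) z < 0
  linarith

theorem frontier_inter {M N : ℕ} (hM : 2 ≤ M) (hN : 2 ≤ N) :
    frontier (OmOne k N) ∩ frontier (OmTwo k M N) = {0} := by
  ext z
  simp only [Set.mem_inter_iff, Set.mem_singleton_iff]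
  constructor
  · rintro ⟨h1, h2⟩
    have h3 : rho (hOne N) z = 0 := (good_one hN).frontier_subset h1
    have h4 : rho (hTwo M N) z = 0 := (good_two hM hN).frontier_subset h2
    rw [rho_two, h3, zero_add] at h4
    rw [Finset.sum_eq_zero_iff_of_nonneg (fun i _ => by positivity)] at h4
    funext j
    have h5 := h4 j (Finset.mem_univ j)
    have h6 : expo M j ≠ 0 := by have := expo_pos hM j; omega
    simpa [h6] using h5
  · rintro rfl
    exact ⟨(good_one hN).zero_mem_frontier, (good_two hM hN).zero_mem_frontier⟩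

/-! ### Types -/

theorem exists_coord_norm (z : Cn (k + 3)) : ∃ j, ‖z j‖ = ‖z‖ := by
  obtain ⟨j, -, hj⟩ := Finset.exists_mem_eq_sup (Finset.univ : Finset (Fin (k + 3)))
    Finset.univ_nonempty fun b => ‖z b‖₊
  refine ⟨j, ?_⟩
  rw [Pi.norm_def, hj]
  rfl

theorem low_one {N : ℕ} (hN : 2 ≤ N) :
    ∀ᶠ z in 𝓝 (0 : Cn (k + 3)), (z 0).re + 1 * ‖z‖ ^ (2 * N) ≤ rho (hOne N) z := by
  filter_upwards [Metric.ball_mem_nhds (0 : Cn (k + 3)) one_pos] with z hz
  rw [mem_ball_zero_iff] at hz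
  obtain ⟨j, hj⟩ := exists_coord_norm z
  have h1 := (good_one (k := k) hN).coord_le z j
  have h2 : ‖z‖ ^ (2 * N) ≤ (‖z j‖ ^ expo N j) ^ 2 := by
    rw [← hj, ← pow_mul]
    refine pow_le_pow_of_le_one (norm_nonneg _) (by rw [hj]; exact hz.le) ?_
    have := expo_le (k := k) hN j
    omega
  unfold rho
  linarith

theorem low_two {M N : ℕ} (hM : 2 ≤ M) :
    ∀ᶠ z in 𝓝 (0 : Cn (k + 3)), (z 0).re + 1 * ‖z‖ ^ (2 * M) ≤ rho (hTwo M N) z := by
  filter_upwards [Metric.ball_mem_nhds (0 : Cn (k + 3)) one_pos] with z hz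
  rw [mem_ball_zero_iff] at hz
  obtain ⟨j, hj⟩ := exists_coord_norm z
  rw [rho_two]
  have h1 : ‖z j ^ expo M j‖ ^ 2 ≤ ∑ j, ‖z j ^ expo M j‖ ^ 2 :=
    Finset.single_le_sum (f := fun j => ‖z j ^ expo M j‖ ^ 2) (fun i _ => by positivity)
      (Finset.mem_univ j)
  have h2 : ‖z‖ ^ (2 * M) ≤ ‖z j ^ expo M j‖ ^ 2 := by
    rw [← hj, norm_pow, ← pow_mul]
    refine pow_le_pow_of_le_one (norm_nonneg _) (by rw [hj]; exact hz.le) ?_
    have := expo_le (k := k) hM j
    omega
  have h3 : (z 0).re ≤ rho (hOne N) z := by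
    unfold rho
    have : 0 ≤ ∑ i, ‖hOne N i z‖ ^ 2 := Finset.sum_nonneg fun i _ => by positivity
    linarith
  linarith

theorem rho_one_line {N : ℕ} (hN : 2 ≤ N) (t : ℂ) :
    rho (hOne N) (t • (Pi.single 2 1 : Cn (k + 3))) = ‖t‖ ^ (2 * N) := by
  unfold rho
  have h0 : ((t • (Pi.single 2 1 : Cn (k + 3))) 0) = 0 := by
    simp [two_ne_zero_fin.symm]
  have h1 : ((t • (Pi.single 2 1 : Cn (k + 3))) 1) = 0 := by
    simp [two_ne_one_fin.symm]
  rw [h0, Complex.zero_re, zero_add, Fintype.sum_option]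
  have h3 : ‖hOne (k := k) N none (t • Pi.single 2 1)‖ ^ 2 = 0 := by
    show ‖(t • (Pi.single 2 1 : Cn (k + 3))) 1 * (t • (Pi.single 2 1 : Cn (k + 3))) 2‖ ^ 2 = 0
    rw [h1]; simp
  rw [h3, zero_add, Finset.sum_eq_single 2]
  · show ‖(t • (Pi.single 2 1 : Cn (k + 3))) 2 ^ expo N 2‖ ^ 2 = _
    rw [expo_two]
    simp [← pow_mul, mul_comm]
  · intro j _ hj
    show ‖(t • (Pi.single 2 1 : Cn (k + 3))) j ^ expo N j‖ ^ 2 = 0
    have h6 : expo N j ≠ 0 := by have := expo_pos hN j; omega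
    simp [hj, h6]
  · intro h
    exact absurd (Finset.mem_univ _) h

theorem rho_two_line {M N : ℕ} (hM : 2 ≤ M) (hN : 2 ≤ N) (t : ℂ) :
    rho (hTwo M N) (t • (Pi.single 2 1 : Cn (k + 3))) = ‖t‖ ^ (2 * N) + ‖t‖ ^ (2 * M) := by
  rw [rho_two, rho_one_line hN, Finset.sum_eq_single 2]
  · rw [expo_two]
    simp [← pow_mul, mul_comm]
  · intro j _ hj
    have h6 : expo M j ≠ 0 := by have := expo_pos hM j; omega
    simp [hj, h6]
  · intro h
    exact absurd (Finset.mem_univ _) h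

theorem single_two_ne_zero : (Pi.single 2 1 : Cn (k + 3)) ≠ 0 := by
  intro h
  have := congrFun h 2
  simp at this

theorem type_one {N : ℕ} (hN : 2 ≤ N) {r : Cn (k + 3) → ℝ}
    (hr : IsLocalDefiningFunction (OmOne k N) 0 r) : dangeloType r 0 = ((2 * N : ℕ) : ℝ≥0∞) := by
  have H := good_one (k := k) hN
  refine dangeloType_eq (c := 1) one_pos H.zero_mem_frontier
    (H.isLocalDefiningFunction H.zero_mem_frontier) hr (low_one hN) single_two_ne_zero ?_
  simp_rw [rho_one_line hN]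
  exact isBigO_refl _ _

theorem type_two {M N : ℕ} (hM : 2 ≤ M) (hMN : M < N) {r : Cn (k + 3) → ℝ}
    (hr : IsLocalDefiningFunction (OmTwo k M N) 0 r) :
    dangeloType r 0 = ((2 * M : ℕ) : ℝ≥0∞) := by
  have hN : 2 ≤ N := by omega
  have H := good_two (k := k) hM hN
  refine dangeloType_eq (c := 1) one_pos H.zero_mem_frontier
    (H.isLocalDefiningFunction H.zero_mem_frontier) hr (low_two hM) single_two_ne_zero ?_
  simp_rw [rho_two_line hM hN]
  refine IsBigO.of_bound 2 ?_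
  filter_upwards [Metric.ball_mem_nhds (0 : ℂ) one_pos] with t ht
  rw [mem_ball_zero_iff] at ht
  have h1 : ‖t‖ ^ (2 * N) ≤ ‖t‖ ^ (2 * M) :=
    pow_le_pow_of_le_one (norm_nonneg _) ht.le (by omega)
  rw [Real.norm_eq_abs, Real.norm_eq_abs, abs_of_nonneg (by positivity),
    abs_of_nonneg (by positivity)]
  linarith

end model

end Pool.Agent.Helper63.SCV
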