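import Pool.Agent.Helper63.Model46c

set_option autoImplicit false
set_option linter.unusedSectionVars false

open MeasureTheory Filter Topology Asymptotics
open scoped ENNReal NNReal

namespace Pool.Agent.Helper63.SCV

section model

variable {k : ℕ}

/-- Weights of the dilations. -/
def wt (j : Fin (k + 3)) : ℕ := if j = 0 then 4 else if j = 1 then 1 else if j = 2 then 1 else 2

theorem wt_zero : wt (k := k) 0 = 4 := by simp [wt]

theorem wt_one : wt (k := k) 1 = 1 := by simp [wt]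

theorem wt_two : wt (k := k) 2 = 1 := by
  unfold wt
  rw [if_neg two_ne_zero_fin, if_neg two_ne_one_fin, if_pos rfl]

theorem wt_ge {j : Fin (k + 3)} (hj : 3 ≤ (j : ℕ)) : wt j = 2 := by
  unfold wt
  have h0 : j ≠ 0 := by rintro rfl; simp at hj
  have h1 : j ≠ 1 := by rintro rfl; rw [val_one_fin] at hj; omega
  have h2 : j ≠ 2 := by rintro rfl; rw [val_two_fin] at hj; omega
  rw [if_neg h0, if_neg h1, if_neg h2]

theorem wt_le (j : Fin (k + 3)) : wt j ≤ 4 := by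
  unfold wt
  split_ifs <;> omega

theorem sum_wt_le : ∑ j : Fin (k + 3), wt j ≤ 4 * (k + 3) := by
  calc ∑ j : Fin (k + 3), wt j ≤ ∑ j : Fin (k + 3), 4 := Finset.sum_le_sum fun j _ => wt_le j
    _ = 4 * (k + 3) := by simp [mul_comm]

theorem two_le_wt_mul_expo {N : ℕ} (hN : 2 ≤ N) (j : Fin (k + 3)) : 2 ≤ wt j * expo N j := by
  unfold wt expo
  by_cases h0 : j = 0
  · subst h0
    have h1 : (0 : Fin (k + 3)) ≠ 1 := by simp
    simp [two_ne_zero_fin.symm]
  · by_cases h1 : j = 1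
    · simp [h1]
    · by_cases h2 : j = 2
      · simp [h2, two_ne_zero_fin, two_ne_one_fin, hN]
      · simp [h0, h1, h2]

/-- The basic test function. -/
noncomputable def Phi (w : Cn (k + 3)) : ℂ := w 1 ^ 2 * ((1 - w 0)⁻¹) ^ (2 * (k + 3))

theorem measurable_Phi : Measurable (Phi (k := k)) := by
  unfold Phi
  fun_prop

/-- The limiting model domain. -/
def DD (k : ℕ) : Set (Cn (k + 3)) :=
  {w | ‖w 1‖ ^ 4 ≤ -(w 0).re ∧ ‖w 1 * w 2‖ ^ 2 ≤ -(w 0).re ∧
    ∀ j : Fin (k + 3), 3 ≤ (j : ℕ) → ‖w j‖ ^ 2 ≤ -(w 0).re}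

theorem measurableSet_DD : MeasurableSet (DD k) := by
  have h0 : DD k = {w | ‖w 1‖ ^ 4 ≤ -(w 0).re} ∩ ({w | ‖w 1 * w 2‖ ^ 2 ≤ -(w 0).re} ∩
      ⋂ j : Fin (k + 3), ⋂ _ : 3 ≤ (j : ℕ), {w | ‖w j‖ ^ 2 ≤ -(w 0).re}) := by
    ext w
    simp [DD]
  have hc : IsClosed (DD k) := by
    rw [h0]
    refine IsClosed.inter ?_ (IsClosed.inter ?_ ?_)
    · exact isClosed_le (by fun_prop) (by fun_prop)
    · exact isClosed_le (by fun_prop) (by fun_prop)
    · exact isClosed_iInter fun j => isClosed_iInter fun _ =>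
        isClosed_le (by fun_prop) (by fun_prop)
  exact hc.measurableSet

/-- The dominating function. -/
noncomputable def psi (w : Cn (k + 3)) : ℝ := ∏ j, ((1 + ‖w j‖) ^ 2)⁻¹

theorem memLp_psi : MemLp (psi (k := k)) 2 volume := by
  have hmeas : AEStronglyMeasurable (psi (k := k)) volume := by
    have : Measurable (psi (k := k)) := by
      unfold psi
      refine Finset.measurable_fun_prod _ fun j _ => ?_
      fun_prop
    exact this.aestronglyMeasurable
  rw [memLp_two_iff_integrable_sq hmeas]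
  have h1 : (fun w : Cn (k + 3) => psi w ^ 2) =
      fun w : Cn (k + 3) => ∏ j, (1 + ‖w j‖) ^ (-(4 : ℝ)) := by
    funext w
    unfold psi
    rw [← Finset.prod_pow]
    refine Finset.prod_congr rfl fun j _ => ?_
    have h2 : 0 < 1 + ‖w j‖ := by positivity
    rw [Real.rpow_neg h2.le, inv_pow, ← pow_mul]
    norm_num
  rw [h1]
  have h3 : Integrable (fun z : ℂ => (1 + ‖z‖) ^ (-(4 : ℝ))) volume := by
    refine integrable_one_add_norm ?_
    rw [Complex.finrank_real_complex]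
    norm_num
  exact Integrable.fintype_prod (f := fun _ (z : ℂ) => (1 + ‖z‖) ^ (-(4 : ℝ))) fun _ => h3

theorem bound_Phi {w : Cn (k + 3)} (hw : w ∈ DD k) :
    ‖Phi w‖ ≤ 4 ^ (k + 3) * psi w := by
  obtain ⟨h1, h2, h3⟩ := hw
  set q : ℝ := ‖1 - w 0‖ with hq
  set s : ℝ := -(w 0).re with hs
  have hs0 : 0 ≤ s := le_trans (by positivity) h1
  have hqs : 1 + s ≤ q := by
    have : (1 - w 0).re ≤ ‖1 - w 0‖ := Complex.re_le_norm _
    simp only [Complex.sub_re, Complex.one_re] at this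
    linarith
  have hq1 : 1 ≤ q := by linarith
  have hq0 : 0 < q := by linarith
  have f0 : 1 + ‖w 0‖ ≤ 2 * q := by
    have h4 : ‖w 0‖ ^ 2 + 1 ≤ q ^ 2 := by
      rw [hq, ← Complex.normSq_eq_norm_sq, ← Complex.normSq_eq_norm_sq]
      simp only [Complex.normSq_apply, Complex.sub_re, Complex.sub_im, Complex.one_re,
        Complex.one_im]
      have : (w 0).re ≤ 0 := by linarith
      nlinarith
    have h5 : ‖w 0‖ ≤ q := by
      by_contra hcon
      push Not at hcon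
      nlinarith [norm_nonneg (w 0)]
    linarith
  have sq_to : ∀ {x : ℝ}, 0 ≤ x → x ^ 2 ≤ s → 1 + x ≤ 2 * q ∧ x ≤ q := by
    intro x hx hxs
    have : x ≤ q := by
      by_contra hcon
      push Not at hcon
      nlinarith
    exact ⟨by linarith, this⟩
  have g1 : 1 + ‖w 1‖ ≤ 2 * q ∧ ‖w 1‖ ≤ q := by
    by_cases hle : ‖w 1‖ ≤ 1
    · exact ⟨by linarith, by linarith⟩
    · push Not at hle
      refine sq_to (norm_nonneg _) ?_
      calc ‖w 1‖ ^ 2 ≤ ‖w 1‖ ^ 4 := pow_le_pow_right₀ hle.le (by norm_num)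
        _ ≤ s := h1
  have g2 : ‖w 1 * w 2‖ ≤ q := (sq_to (norm_nonneg _) h2).2
  have f12 : ‖w 1‖ * (1 + ‖w 1‖) * (1 + ‖w 2‖) ≤ (2 * q) * (2 * q) := by
    have e1 : ‖w 1‖ * (1 + ‖w 2‖) ≤ 2 * q := by
      rw [norm_mul] at g2
      have := g1.2
      nlinarith
    calc ‖w 1‖ * (1 + ‖w 1‖) * (1 + ‖w 2‖) = (1 + ‖w 1‖) * (‖w 1‖ * (1 + ‖w 2‖)) := by ring
      _ ≤ (2 * q) * (2 * q) := by
        exact mul_le_mul g1.1 e1 (by positivity) (by positivity)
  have fj : ∀ i : Fin k, 1 + ‖w i.succ.succ.succ‖ ≤ 2 * q := by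
    intro i
    refine (sq_to (norm_nonneg _) (h3 _ ?_)).1
    simp only [Fin.val_succ]
    omega
  have hprod : ‖w 1‖ * ∏ j, (1 + ‖w j‖) ≤ (2 * q) ^ (k + 3) := by
    rw [Fin.prod_univ_succ, Fin.prod_univ_succ, Fin.prod_univ_succ]
    have e1 : (Fin.succ 0 : Fin (k + 3)) = 1 := by
      apply Fin.ext; rw [val_one_fin]; simp
    have e2 : (Fin.succ (Fin.succ 0) : Fin (k + 3)) = 2 := by
      apply Fin.ext; rw [val_two_fin]; simp
    rw [e1, e2]
    have hP : ∏ i : Fin k, (1 + ‖w i.succ.succ.succ‖) ≤ (2 * q) ^ k := by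
      calc ∏ i : Fin k, (1 + ‖w i.succ.succ.succ‖) ≤ ∏ _i : Fin k, (2 * q) :=
            Finset.prod_le_prod (fun i _ => by positivity) fun i _ => fj i
        _ = (2 * q) ^ k := by simp
    have hP0 : 0 ≤ ∏ i : Fin k, (1 + ‖w i.succ.succ.succ‖) :=
      Finset.prod_nonneg fun i _ => by positivity
    calc ‖w 1‖ * ((1 + ‖w 0‖) * ((1 + ‖w 1‖) * ((1 + ‖w 2‖) *
          ∏ i : Fin k, (1 + ‖w i.succ.succ.succ‖))))
        = (1 + ‖w 0‖) * (‖w 1‖ * (1 + ‖w 1‖) * (1 + ‖w 2‖)) *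
          ∏ i : Fin k, (1 + ‖w i.succ.succ.succ‖) := by ring
      _ ≤ (2 * q) * ((2 * q) * (2 * q)) * (2 * q) ^ k := by
          refine mul_le_mul ?_ hP hP0 (by positivity)
          exact mul_le_mul f0 f12 (by positivity) (by positivity)
      _ = (2 * q) ^ (k + 3) := by ring
  -- conclude
  have hPi : 0 < ∏ j, (1 + ‖w j‖) := Finset.prod_pos fun j _ => by positivity
  have hpsi : psi w = ((∏ j, (1 + ‖w j‖)) ^ 2)⁻¹ := by
    unfold psi
    rw [Finset.prod_inv_distrib, Finset.prod_pow]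
  have hPhi : ‖Phi w‖ = ‖w 1‖ ^ 2 * (q ^ (2 * (k + 3)))⁻¹ := by
    unfold Phi
    rw [norm_mul, norm_pow, norm_pow, norm_inv, ← hq, inv_pow]
  rw [hpsi, hPhi, ← div_eq_mul_inv, ← div_eq_mul_inv, div_le_div_iff₀ (by positivity)
    (by positivity)]
  have hsq : (‖w 1‖ * ∏ j, (1 + ‖w j‖)) ^ 2 ≤ ((2 * q) ^ (k + 3)) ^ 2 :=
    pow_le_pow_left₀ (by positivity) hprod 2
  calc ‖w 1‖ ^ 2 * (∏ j, (1 + ‖w j‖)) ^ 2 = (‖w 1‖ * ∏ j, (1 + ‖w j‖)) ^ 2 := by ring
    _ ≤ ((2 * q) ^ (k + 3)) ^ 2 := hsq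
    _ = 4 ^ (k + 3) * q ^ (2 * (k + 3)) := by
        rw [mul_pow, mul_pow, ← pow_mul, ← pow_mul, mul_comm (k + 3) 2, pow_mul 2 2 (k + 3)]
        norm_num

theorem eLpNorm_Phi_DD_lt_top : eLpNorm (Phi (k := k)) 2 (volume.restrict (DD k)) < ⊤ := by
  have h1 : MemLp (fun w : Cn (k + 3) => (4 : ℝ) ^ (k + 3) * psi w) 2
      (volume.restrict (DD k)) :=
    ((memLp_psi.const_mul _).mono_measure Measure.restrict_le_self)
  have h2 : MemLp (Phi (k := k)) 2 (volume.restrict (DD k)) := by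
    refine h1.mono measurable_Phi.aestronglyMeasurable ?_
    filter_upwards [ae_restrict_mem measurableSet_DD] with w hw
    refine (bound_Phi hw).trans ?_
    exact Real.le_norm_self _
  exact h2.2

theorem OmOne_subset_preimage {N : ℕ} {m : ℝ} (hm : 0 < m) :
    OmOne k N ⊆ dil wt m ⁻¹' DD k := by
  intro z hz
  have hz' : rho (hOne N) z < 0 := hz
  unfold rho at hz'
  have hi : ∀ i, ‖hOne N i z‖ ^ 2 ≤ -(z 0).re := by
    intro i
    have h1 : ‖hOne N i z‖ ^ 2 ≤ ∑ i, ‖hOne N i z‖ ^ 2 :=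
      Finset.single_le_sum (f := fun i => ‖hOne N i z‖ ^ 2) (fun i _ => by positivity)
        (Finset.mem_univ i)
    linarith
  have hre : (dil wt m z 0).re = m ^ 4 * (z 0).re := by
    rw [dil_apply, wt_zero, ← Complex.ofReal_pow, Complex.re_ofReal_mul]
  have hm4 : 0 < m ^ 4 := by positivity
  show dil wt m z ∈ DD k
  refine ⟨?_, ?_, ?_⟩
  · rw [hre, dil_apply, wt_one, norm_mul, mul_pow, pow_one, Complex.norm_real, Real.norm_eq_abs,
      abs_of_pos hm]
    have h1 : ‖z 1 ^ expo N 1‖ ^ 2 ≤ -(z 0).re := hi (some 1)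
    rw [expo_one, norm_pow, ← pow_mul] at h1
    norm_num at h1
    nlinarith
  · rw [hre, dil_apply, dil_apply, wt_one, wt_two, pow_one]
    have h1 : ‖z 1 * z 2‖ ^ 2 ≤ -(z 0).re := hi none
    have h2 : (m : ℂ) * z 1 * ((m : ℂ) * z 2) = (m : ℂ) ^ 2 * (z 1 * z 2) := by ring
    have h3 : ‖(m : ℂ) ^ 2 * (z 1 * z 2)‖ ^ 2 = m ^ 4 * ‖z 1 * z 2‖ ^ 2 := by
      rw [norm_mul, norm_pow, Complex.norm_real, Real.norm_eq_abs, abs_of_pos hm, mul_pow,
        ← pow_mul]
    rw [h2, h3]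
    nlinarith
  · intro j hj
    rw [hre, dil_apply, wt_ge hj]
    have h1 : ‖z j ^ expo N j‖ ^ 2 ≤ -(z 0).re := hi (some j)
    have h2 : expo N j = 1 := by
      unfold expo
      have h1 : j ≠ 1 := by rintro rfl; rw [val_one_fin] at hj; omega
      have h2 : j ≠ 2 := by rintro rfl; rw [val_two_fin] at hj; omega
      rw [if_neg h1, if_neg h2]
    rw [h2, pow_one] at h1
    rw [norm_mul, norm_pow, Complex.norm_real, Real.norm_eq_abs, abs_of_pos hm, mul_pow,
      ← pow_mul]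
    norm_num
    nlinarith

theorem preimage_OmTwo_subset {M N : ℕ} (hM : 2 ≤ M) (hN : 2 ≤ N) {m : ℝ} (hm : 1 ≤ m) :
    dil wt m ⁻¹' OmTwo k M N ⊆ OmTwo k M N := by
  intro z hz
  have hm0 : 0 < m := by linarith
  have hz' : rho (hTwo M N) (dil wt m z) < 0 := hz
  unfold rho at hz'
  have hre : (dil wt m z 0).re = m ^ 4 * (z 0).re := by
    rw [dil_apply, wt_zero, ← Complex.ofReal_pow, Complex.re_ofReal_mul]
  have hcoord : ∀ {L : ℕ}, 2 ≤ L → ∀ j, m ^ 4 * ‖z j ^ expo L j‖ ^ 2 ≤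
      ‖(dil wt m z) j ^ expo L j‖ ^ 2 := by
    intro L hL j
    rw [dil_apply, norm_pow, norm_pow, norm_mul, norm_pow, Complex.norm_real,
      Real.norm_eq_abs, abs_of_pos hm0, mul_pow, mul_pow, ← pow_mul, ← pow_mul]
    refine mul_le_mul_of_nonneg_right ?_ (by positivity)
    rw [← pow_mul]
    refine pow_le_pow_right₀ hm ?_
    have h9 := two_le_wt_mul_expo (k := k) hL j
    calc 4 = 2 * 2 := by norm_num
      _ ≤ (wt j * expo L j) * 2 := Nat.mul_le_mul_right 2 h9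
      _ = wt j * (expo L j * 2) := by ring
  have hprod : m ^ 4 * ‖z 1 * z 2‖ ^ 2 = ‖(dil wt m z) 1 * (dil wt m z) 2‖ ^ 2 := by
    rw [dil_apply, dil_apply, wt_one, wt_two, pow_one]
    have h2 : (m : ℂ) * z 1 * ((m : ℂ) * z 2) = (m : ℂ) ^ 2 * (z 1 * z 2) := by ring
    rw [h2, norm_mul ((m : ℂ) ^ 2), norm_pow, Complex.norm_real, Real.norm_eq_abs,
      abs_of_pos hm0, mul_pow, ← pow_mul]
  have hterm : ∀ i, m ^ 4 * ‖hTwo M N i z‖ ^ 2 ≤ ‖hTwo M N i (dil wt m z)‖ ^ 2 := by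
    intro i
    rcases i with (_ | j) | j
    · exact hprod.le
    · exact hcoord hN j
    · exact hcoord hM j
  have hsum : m ^ 4 * ∑ i, ‖hTwo M N i z‖ ^ 2 ≤ ∑ i, ‖hTwo M N i (dil wt m z)‖ ^ 2 := by
    rw [Finset.mul_sum]
    exact Finset.sum_le_sum fun i _ => hterm i
  show rho (hTwo M N) z < 0
  unfold rho
  rw [hre] at hz'
  have hm4 : 0 < m ^ 4 := by positivity
  by_contra hcon
  push Not at hcon
  nlinarith

theorem eLpNorm_Phi_OmTwo_ne_zero {M N : ℕ} (hM : 2 ≤ M) (hN : 2 ≤ N) :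
    eLpNorm (Phi (k := k)) 2 (volume.restrict (OmTwo k M N)) ≠ 0 := by
  have H := good_two (k := k) hM hN
  intro hcon
  rw [eLpNorm_eq_zero_iff measurable_Phi.aestronglyMeasurable (by norm_num)] at hcon
  -- a nonempty open subset of `Ω₂` where `Φ` does not vanish
  set V : Set (Cn (k + 3)) := OmTwo k M N ∩ {w | w 1 ≠ 0} with hV
  have hVo : IsOpen V := H.isOpen_dom.inter (isOpen_ne_fun (by fun_prop) (by fun_prop))
  have hVne : V.Nonempty := by
    have h01 : (0 : Fin (k + 3)) ≠ 1 := by simp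
    obtain ⟨ε, hε, h1⟩ := H.neg_small (Pi.single 0 (-1) + Pi.single 1 1) (by simp [h01])
    refine ⟨(ε / 2) • (Pi.single 0 (-1) + Pi.single 1 1), h1 _ (by linarith) (by linarith), ?_⟩
    show ((ε / 2) • (Pi.single 0 (-1) + Pi.single 1 1 : Cn (k + 3))) 1 ≠ 0
    simp [h01.symm, hε.ne']
  have hVpos : 0 < volume V := hVo.measure_pos _ hVne
  have hV0 : volume V = 0 := by
    have h2 : ∀ᵐ w ∂(volume : Measure (Cn (k + 3))), w ∈ OmTwo k M N → Phi w = 0 := by
      have h3 := (ae_restrict_iff' H.isOpen_dom.measurableSet).mp hcon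
      exact h3
    have h4 : V ⊆ {w | ¬ (w ∈ OmTwo k M N → Phi w = 0)} := by
      rintro w ⟨hw1, hw2⟩ hcon2
      have h5 := hcon2 hw1
      have h6 : (w 0).re < 0 := by
        have h7 : rho (hTwo M N) w < 0 := hw1
        unfold rho at h7
        have : 0 ≤ ∑ i, ‖hTwo M N i w‖ ^ 2 := Finset.sum_nonneg fun i _ => by positivity
        linarith
      have h8 : (1 - w 0) ≠ 0 := by
        intro h9
        have := congrArg Complex.re h9
        simp at this
        linarith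
      unfold Phi at h5
      rw [mul_eq_zero] at h5
      rcases h5 with h5 | h5
      · exact hw2 (by simpa using h5)
      · exact h8 (inv_eq_zero.mp (by simpa using h5))
    exact measure_mono_null h4 h2
  exact absurd hV0 hVpos.ne'

/-- Non-compactness of the restriction operator for the model pair. -/
theorem not_compact {M N : ℕ} (hM : 2 ≤ M) (hN : 2 ≤ N) :
    ¬ RestrictionIsCompact (OmOne k N) (OmTwo k M N) := by
  have H1 := good_one (k := k) hN
  have H2 := good_two (k := k) hM hN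
  set E : ℕ := ∑ j : Fin (k + 3), wt j with hE
  set g : ℕ → Cn (k + 3) → ℂ := fun m z =>
    ((((m : ℝ) + 1) ^ E : ℝ) : ℂ) • Phi (dil wt ((m : ℝ) + 1) z) with hg
  have hmpos : ∀ m : ℕ, (0 : ℝ) < (m : ℝ) + 1 := fun m => by positivity
  have hm1 : ∀ m : ℕ, (1 : ℝ) ≤ (m : ℝ) + 1 := fun m => by
    have : (0 : ℝ) ≤ m := Nat.cast_nonneg m
    linarith
  have hre1 : ∀ {z : Cn (k + 3)}, z ∈ OmOne k N → (z 0).re < 0 := by
    intro z hz
    have h7 : rho (hOne N) z < 0 := hz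
    unfold rho at h7
    have : 0 ≤ ∑ i, ‖hOne N i z‖ ^ 2 := Finset.sum_nonneg fun i _ => by positivity
    linarith
  refine not_restrictionIsCompact_of_seq (OmTwo_subset (k := k) M N) H1.isOpen_dom
    H2.isOpen_dom g ?_
    (K := eLpNorm (Phi (k := k)) 2 (volume.restrict (DD k)))
    (κ := eLpNorm (Phi (k := k)) 2 (volume.restrict (OmTwo k M N)))
    eLpNorm_Phi_DD_lt_top.ne (eLpNorm_Phi_OmTwo_ne_zero hM hN) ?_ ?_ ?_
  · -- holomorphic
    intro m z hz
    have h1 : (1 - dil wt ((m : ℝ) + 1) z 0) ≠ 0 := by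
      intro h9
      have h10 := congrArg Complex.re h9
      rw [Complex.sub_re, dil_apply, wt_zero, ← Complex.ofReal_pow, Complex.re_ofReal_mul] at h10
      have h11 := hre1 hz
      have h12 : (0 : ℝ) < ((m : ℝ) + 1) ^ 4 := by positivity
      simp only [Complex.one_re, Complex.zero_re] at h10
      nlinarith
    have h2 : DifferentiableAt ℂ (fun z : Cn (k + 3) => Phi (dil wt ((m : ℝ) + 1) z)) z := by
      unfold Phi
      have h3 : (fun z : Cn (k + 3) => (dil wt ((m : ℝ) + 1) z) 1 ^ 2 *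
          ((1 - (dil wt ((m : ℝ) + 1) z) 0)⁻¹) ^ (2 * (k + 3))) =
          fun z : Cn (k + 3) => ((((m : ℝ) + 1 : ℝ) : ℂ) ^ wt (1 : Fin (k + 3)) * z 1) ^ 2 *
          ((1 - (((m : ℝ) + 1 : ℝ) : ℂ) ^ wt (0 : Fin (k + 3)) * z 0)⁻¹) ^ (2 * (k + 3)) := by
        funext z
        rw [dil_apply, dil_apply]
      rw [h3]
      rw [dil_apply] at h1
      refine DifferentiableAt.mul (by fun_prop) (DifferentiableAt.pow ?_ _)
      exact DifferentiableAt.inv (by fun_prop) h1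
    exact (h2.const_smul (((((m : ℝ) + 1) ^ E : ℝ) : ℂ))).differentiableWithinAt
  · -- upper bound
    intro m
    calc eLpNorm (g m) 2 (volume.restrict (OmOne k N))
        ≤ eLpNorm (g m) 2 (volume.restrict (dil wt ((m : ℝ) + 1) ⁻¹' DD k)) :=
          eLpNorm_mono_measure _ (Measure.restrict_mono (OmOne_subset_preimage (hmpos m)) le_rfl)
      _ = eLpNorm (Phi (k := k)) 2 (volume.restrict (DD k)) :=
          eLpNorm_dil wt (hmpos m) Phi measurable_Phi measurableSet_DD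
  · -- lower bound
    intro m
    calc eLpNorm (Phi (k := k)) 2 (volume.restrict (OmTwo k M N))
        = eLpNorm (g m) 2 (volume.restrict (dil wt ((m : ℝ) + 1) ⁻¹' OmTwo k M N)) :=
          (eLpNorm_dil wt (hmpos m) Phi measurable_Phi H2.isOpen_dom.measurableSet).symm
      _ ≤ eLpNorm (g m) 2 (volume.restrict (OmTwo k M N)) :=
          eLpNorm_mono_measure _
            (Measure.restrict_mono (preimage_OmTwo_subset hM hN (hm1 m)) le_rfl)
  · -- pointwise limit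
    intro z hz
    have hz0 : (z 0).re < 0 := hre1 (OmTwo_subset M N hz)
    set s : ℝ := -(z 0).re with hs
    have hs0 : 0 < s := by linarith
    set C : ℝ := ‖z 1‖ ^ 2 * (s ^ (2 * (k + 3)))⁻¹ with hC
    have hC0 : 0 ≤ C := by positivity
    have hbound : ∀ m : ℕ, ‖g m z‖ ≤ C / ((m : ℝ) + 1) := by
      intro m
      set μ : ℝ := (m : ℝ) + 1 with hμ
      have hμ1 : 1 ≤ μ := hm1 m
      have hμ0 : 0 < μ := hmpos m
      have h1 : μ ^ 4 * s ≤ ‖1 - dil wt μ z 0‖ := by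
        have h2 : (1 - dil wt μ z 0).re ≤ ‖1 - dil wt μ z 0‖ := Complex.re_le_norm _
        rw [Complex.sub_re, dil_apply, wt_zero, ← Complex.ofReal_pow, Complex.re_ofReal_mul,
          Complex.one_re] at h2
        rw [dil_apply, wt_zero, ← Complex.ofReal_pow]
        nlinarith
      have h3 : ‖g m z‖ = μ ^ E * ((μ * ‖z 1‖) ^ 2 *
          (‖1 - dil wt μ z 0‖ ^ (2 * (k + 3)))⁻¹) := by
        simp only [hg]
        rw [norm_smul, Complex.norm_real, Real.norm_eq_abs, ← hμ, abs_of_pos (by positivity)]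
        unfold Phi
        rw [norm_mul, norm_pow, norm_pow, norm_inv, inv_pow, dil_apply wt μ z 1, wt_one, pow_one,
          norm_mul, Complex.norm_real, Real.norm_eq_abs, abs_of_pos hμ0]
      rw [h3]
      have h4 : (‖1 - dil wt μ z 0‖ ^ (2 * (k + 3)))⁻¹ ≤ ((μ ^ 4 * s) ^ (2 * (k + 3)))⁻¹ :=
        inv_anti₀ (by positivity) (pow_le_pow_left₀ (by positivity) h1 _)
      have h5 : E + 3 ≤ 8 * (k + 3) := by
        have := sum_wt_le (k := k)
        omega
      calc μ ^ E * ((μ * ‖z 1‖) ^ 2 * (‖1 - dil wt μ z 0‖ ^ (2 * (k + 3)))⁻¹)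
          ≤ μ ^ E * ((μ * ‖z 1‖) ^ 2 * ((μ ^ 4 * s) ^ (2 * (k + 3)))⁻¹) := by gcongr
        _ = C * (μ ^ (E + 2) * (μ ^ (8 * (k + 3)))⁻¹) := by
            rw [hC, mul_pow (μ ^ 4) s, mul_inv, ← pow_mul, pow_add]
            have : 4 * (2 * (k + 3)) = 8 * (k + 3) := by ring
            rw [this]
            ring
        _ ≤ C * μ⁻¹ := by
            refine mul_le_mul_of_nonneg_left ?_ hC0
            rw [← div_eq_mul_inv, div_le_iff₀ (by positivity)]
            have h6 : μ ^ (E + 3) ≤ μ ^ (8 * (k + 3)) := pow_le_pow_right₀ hμ1 h5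
            have h7 : μ ^ (E + 3) = μ * μ ^ (E + 2) := by ring
            rw [h7] at h6
            rw [inv_mul_eq_div, le_div_iff₀ hμ0]
            linarith
        _ = C / μ := by rw [div_eq_mul_inv]
    have hlim : Tendsto (fun m : ℕ => C / ((m : ℝ) + 1)) atTop (𝓝 0) :=
      tendsto_const_div_atTop_nhds_zero_nat C |>.comp (tendsto_add_atTop_nat 1) |>.congr
        (fun m => by simp)
    exact squeeze_zero_norm hbound hlim

end model

/-- Main theorem for Q1. -/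
theorem main_Q1 (n M N : ℕ) (hn : 3 ≤ n) (hM : 2 ≤ M) (hMN : M < N) :
    ∃ (Ω₁ Ω₂ : Set (Cn n)) (p : Cn n),
      IsSmoothBoundedPseudoconvex Ω₁ ∧ IsSmoothBoundedPseudoconvex Ω₂ ∧ Ω₂ ⊆ Ω₁ ∧
      frontier Ω₁ ∩ frontier Ω₂ = {p} ∧
      ¬ RestrictionIsCompact Ω₁ Ω₂ ∧
      (∀ r : Cn n → ℝ, IsLocalDefiningFunction Ω₁ p r → dangeloType r p = ((2 * N : ℕ) : ℝ≥0∞)) ∧
      (∀ r : Cn n → ℝ, IsLocalDefiningFunction Ω₂ p r → dangeloType r p = ((2 * M : ℕ) : ℝ≥0∞)) := by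
  obtain ⟨k, rfl⟩ := Nat.exists_eq_add_of_le' hn
  have hN : 2 ≤ N := by omega
  exact ⟨OmOne k N, OmTwo k M N, 0,
    (good_one hN).isSmoothBoundedPseudoconvex, (good_two hM hN).isSmoothBoundedPseudoconvex,
    OmTwo_subset M N, frontier_inter hM hN, not_compact hM hN, fun r hr => type_one hN hr,
    fun r hr => type_two hM hMN hr⟩

end Pool.Agent.Helper63.SCV
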