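import Pool.Agent.Helper63.Smv46c
import Pool.Agent.Helper63.Noncompact46c

set_option autoImplicit false
set_option linter.unusedSectionVars false

open MeasureTheory Filter Topology Asymptotics Metric
open scoped ENNReal NNReal

namespace Pool.Agent.Helper63.SCV

variable {n : ℕ}

/-- The squared `L²` norm as a lower integral. -/
noncomputable def mass (Ω : Set (Cn n)) (f : Cn n → ℂ) : ℝ≥0∞ := ∫⁻ z in Ω, ‖f z‖ₑ ^ 2

theorem measurable_indicator_of_continuousOn {X : Type*} [TopologicalSpace X]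
    [MeasurableSpace X] [OpensMeasurableSpace X] {Ω : Set X} (hΩ : IsOpen Ω)
    {f : X → ℂ} (hf : ContinuousOn f Ω) : Measurable (Ω.indicator f) := by
  classical
  have h1 : Ω.indicator f = Ω.piecewise f (fun _ => 0) := by
    funext z
    by_cases hz : z ∈ Ω <;> simp [hz]
  rw [h1]
  exact hf.measurable_piecewise continuousOn_const hΩ.measurableSet

theorem pointwise_bound {Ω : Set (Cn n)} (hΩ : IsOpen Ω) {f : Cn n → ℂ}
    (hf : DifferentiableOn ℂ f Ω) {w : Cn n} {s : ℝ} (hb : ball w s ⊆ Ω) :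
    ‖f w‖ₑ ^ 2 * volume (ball (0 : Cn n) s) ≤ mass Ω f := by
  by_cases hs : 0 < s
  swap
  · have : ball (0 : Cn n) s = ∅ := ball_eq_empty.mpr (not_lt.mp hs)
    rw [this]; simp
  have hwΩ : w ∈ Ω := hb (mem_ball_self hs)
  set g : Cn n → ℂ := Ω.indicator f with hg
  have hgm : Measurable g := measurable_indicator_of_continuousOn hΩ hf.continuousOn
  have hmem : ∀ u ∈ ball (0 : Cn n) s, w + u ∈ Ω := by
    intro u hu
    refine hb ?_
    rw [mem_ball_iff_norm, add_sub_cancel_left]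
    rwa [mem_ball_zero_iff] at hu
  have hd : DifferentiableOn ℂ (fun u => g (w + u)) (ball 0 s) := by
    have h1 : DifferentiableOn ℂ (fun u => f (w + u)) (ball 0 s) :=
      hf.comp (f := fun u => w + u) (by fun_prop) hmem
    refine h1.congr fun u hu => ?_
    rw [hg, Set.indicator_of_mem (hmem u hu)]
  have h2 := smv_ball (h := fun u => g (w + u)) (s := s)
    (hgm.comp (measurable_const_add w)) hd
  have h3 : ‖(fun u => g (w + u)) 0‖ₑ = ‖f w‖ₑ := by
    simp only [add_zero, hg, Set.indicator_of_mem hwΩ]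
  rw [h3] at h2
  refine h2.trans ?_
  calc ∫⁻ u in ball 0 s, ‖g (w + u)‖ₑ ^ 2 ≤ ∫⁻ u, ‖g (w + u)‖ₑ ^ 2 :=
        setLIntegral_le_lintegral _ _
    _ = ∫⁻ z, ‖g z‖ₑ ^ 2 := lintegral_add_left_eq_self (fun z => ‖g z‖ₑ ^ 2) w
    _ = ∫⁻ z, Ω.indicator (fun z => ‖f z‖ₑ ^ 2) z := by
        refine lintegral_congr fun z => ?_
        by_cases hz : z ∈ Ω
        · simp [hg, hz]
        · simp [hg, hz]
    _ = mass Ω f := by
        rw [lintegral_indicator hΩ.measurableSet]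
        rfl

/-- Real form of the pointwise bound. -/
noncomputable def bnd (n : ℕ) (C : ℝ≥0∞) (s : ℝ) : ℝ :=
  Real.sqrt (C / volume (ball (0 : Cn n) s)).toReal

theorem norm_le_bnd {Ω : Set (Cn n)} (hΩ : IsOpen Ω) {f : Cn n → ℂ}
    (hf : DifferentiableOn ℂ f Ω) {C : ℝ≥0∞} (hC : C ≠ ⊤) (hm : mass Ω f ≤ C)
    {w : Cn n} {s : ℝ} (hs : 0 < s) (hb : ball w s ⊆ Ω) : ‖f w‖ ≤ bnd n C s := by
  have h1 := (pointwise_bound hΩ hf hb).trans hm
  have hv0 : volume (ball (0 : Cn n) s) ≠ 0 := (measure_ball_pos volume _ hs).ne'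
  have hvt : volume (ball (0 : Cn n) s) ≠ ⊤ := measure_ball_lt_top.ne
  have h2 : ‖f w‖ₑ ^ 2 ≤ C / volume (ball (0 : Cn n) s) :=
    (ENNReal.le_div_iff_mul_le (Or.inl hv0) (Or.inl hvt)).mpr h1
  have h3 : (C / volume (ball (0 : Cn n) s)) ≠ ⊤ := ENNReal.div_ne_top hC hv0
  have h4 := ENNReal.toReal_mono h3 h2
  rw [ENNReal.toReal_pow, toReal_enorm] at h4
  exact Real.le_sqrt_of_sq_le h4

theorem bnd_nonneg (n : ℕ) (C : ℝ≥0∞) (s : ℝ) : 0 ≤ bnd n C s := Real.sqrt_nonneg _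

/-- Local estimates for bounded holomorphic functions. -/
theorem schwarz_one {f : Cn n → ℂ} {w : Cn n} {s M : ℝ} (hs : 0 < s)
    (hf : DifferentiableOn ℂ f (ball w s)) (hM : ∀ z ∈ ball w s, ‖f z‖ ≤ M) :
    ∀ z ∈ ball w s, ‖f z - f w‖ ≤ 2 * M / s * ‖z - w‖ := by
  intro z hz
  have hmaps : Set.MapsTo f (ball w s) (closedBall (f w) (2 * M)) := by
    intro u hu
    rw [mem_closedBall, dist_eq_norm]
    calc ‖f u - f w‖ ≤ ‖f u‖ + ‖f w‖ := norm_sub_le _ _
      _ ≤ M + M := add_le_add (hM u hu) (hM w (mem_ball_self hs))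
      _ = 2 * M := by ring
  have := Complex.dist_le_div_mul_dist_of_mapsTo_ball hf hmaps hz
  rwa [dist_eq_norm, dist_eq_norm] at this

theorem schwarz_fderiv {f : Cn n → ℂ} {w : Cn n} {s M : ℝ} (hs : 0 < s)
    (hf : DifferentiableOn ℂ f (ball w s)) (hM : ∀ z ∈ ball w s, ‖f z‖ ≤ M) :
    ‖fderiv ℂ f w‖ ≤ 2 * M / s := by
  have hmaps : Set.MapsTo f (ball w s) (closedBall (f w) (2 * M)) := by
    intro u hu
    rw [mem_closedBall, dist_eq_norm]
    calc ‖f u - f w‖ ≤ ‖f u‖ + ‖f w‖ := norm_sub_le _ _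
      _ ≤ M + M := add_le_add (hM u hu) (hM w (mem_ball_self hs))
      _ = 2 * M := by ring
  exact Complex.norm_fderiv_le_div_of_mapsTo_ball hf hmaps hs

theorem schwarz_two {f : Cn n → ℂ} {w : Cn n} {s M : ℝ} (hs : 0 < s)
    (hf : DifferentiableOn ℂ f (ball w s)) (hM : ∀ z ∈ ball w s, ‖f z‖ ≤ M) :
    ∀ z ∈ ball w s, ‖f z - f w - fderiv ℂ f w (z - w)‖ ≤ 4 * M * (‖z - w‖ / s) ^ 2 := by
  intro z hz
  have hM0 : 0 ≤ M := (norm_nonneg _).trans (hM w (mem_ball_self hs))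
  have hA := schwarz_fderiv hs hf hM
  set A := fderiv ℂ f w with hAdef
  set g : Cn n → ℂ := fun z => f z - A (z - w) with hg
  have hgd : DifferentiableOn ℂ g (ball w s) := by
    refine hf.sub ?_
    exact (A.differentiable.comp (by fun_prop : Differentiable ℂ fun z : Cn n => z - w)).differentiableOn
  have hgw : g w = f w := by simp [hg]
  have hmaps : Set.MapsTo g (ball w s) (closedBall (g w) (4 * M)) := by
    intro u hu
    rw [mem_closedBall, dist_eq_norm, hgw]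
    have h1 : ‖A (u - w)‖ ≤ 2 * M := by
      refine (A.le_opNorm _).trans ?_
      rw [mem_ball, dist_eq_norm] at hu
      calc ‖A‖ * ‖u - w‖ ≤ (2 * M / s) * s :=
            mul_le_mul hA hu.le (norm_nonneg _) (by positivity)
        _ = 2 * M := by field_simp
    calc ‖g u - f w‖ = ‖f u - A (u - w) - f w‖ := rfl
      _ ≤ ‖f u - A (u - w)‖ + ‖f w‖ := norm_sub_le _ _
      _ ≤ ‖f u‖ + ‖A (u - w)‖ + ‖f w‖ := by
          gcongr
          exact norm_sub_le _ _
      _ ≤ M + 2 * M + M := by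
          gcongr
          · exact hM u hu
          · exact hM w (mem_ball_self hs)
      _ = 4 * M := by ring
  have hdiff : DifferentiableAt ℂ f w := hf.differentiableAt (ball_mem_nhds _ hs)
  have hlo : (g · - g w) =o[𝓝 w] (fun u ↦ ‖u - w‖ ^ 1) := by
    have h1 := hdiff.hasFDerivAt.isLittleO
    simp only [pow_one]
    rw [isLittleO_norm_right]
    refine h1.congr_left fun u => ?_
    simp only [hg, sub_self, map_zero, sub_zero]
    ring
  have h2 := Complex.dist_le_mul_div_pow_of_mapsTo_ball_of_isLittleO hgd hmaps hlo hz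
  rw [dist_eq_norm, dist_eq_norm, hgw] at h2
  have h3 : g z - f w = f z - f w - A (z - w) := by simp only [hg]; ring
  rw [h3] at h2
  exact h2

/-- A Montel type theorem for sequences bounded in `A²(Ω)`. -/
theorem montel {Ω : Set (Cn n)} (hΩ : IsOpen Ω) {f : ℕ → Cn n → ℂ}
    (hf : ∀ j, DifferentiableOn ℂ (f j) Ω) {C : ℝ≥0∞} (hC : C ≠ ⊤)
    (hm : ∀ j, mass Ω (f j) ≤ C) :
    ∃ (g : Cn n → ℂ) (φ : ℕ → ℕ), StrictMono φ ∧ DifferentiableOn ℂ g Ω ∧
      ∀ w ∈ Ω, Tendsto (fun j => f (φ j) w) atTop (𝓝 (g w)) := by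
  classical
  -- local bounds
  have hloc : ∀ w ∈ Ω, ∃ s > 0, ∃ M : ℝ, ball w s ⊆ Ω ∧ ∀ j, ∀ z ∈ ball w s, ‖f j z‖ ≤ M := by
    intro w hw
    obtain ⟨s, hs, hsΩ⟩ := Metric.isOpen_iff.mp hΩ w hw
    refine ⟨s / 2, by positivity, bnd n C (s / 2), (ball_subset_ball (by linarith)).trans hsΩ, ?_⟩
    intro j z hz
    refine norm_le_bnd hΩ (hf j) hC (hm j) (by positivity) ?_
    intro u hu
    refine hsΩ ?_
    rw [mem_ball] at hu hz ⊢
    calc dist u w ≤ dist u z + dist z w := dist_triangle _ _ _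
      _ < s := by linarith
  -- a dense sequence
  set D : ℕ → Cn n := TopologicalSpace.denseSeq (Cn n) with hD
  have hbd : ∀ i, ∃ M : ℝ, ∀ j, ‖(if D i ∈ Ω then f j (D i) else 0)‖ ≤ M := by
    intro i
    by_cases hi : D i ∈ Ω
    · obtain ⟨s, hs, M, -, hM⟩ := hloc _ hi
      exact ⟨M, fun j => by rw [if_pos hi]; exact hM j _ (mem_ball_self hs)⟩
    · exact ⟨0, fun j => by rw [if_neg hi]; simp⟩
  choose Mi hMi using hbd
  have hK : IsCompact (Set.pi Set.univ fun i : ℕ => closedBall (0 : ℂ) (Mi i)) :=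
    isCompact_univ_pi fun i => isCompact_closedBall _ _
  obtain ⟨a, -, φ, hφ, hlim⟩ := hK.tendsto_subseq
    (x := fun j i => if D i ∈ Ω then f j (D i) else 0)
    (fun j i _ => by rw [mem_closedBall_zero_iff]; exact hMi i j)
  rw [tendsto_pi_nhds] at hlim
  have hlimD : ∀ i, D i ∈ Ω → Tendsto (fun j => f (φ j) (D i)) atTop (𝓝 (a i)) := by
    intro i hi
    have := hlim i
    simpa only [Function.comp_def, if_pos hi] using this
  -- pointwise convergence everywhere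
  have hcauchy : ∀ w ∈ Ω, CauchySeq fun j => f (φ j) w := by
    intro w hw
    obtain ⟨s, hs, M, hsΩ, hM⟩ := hloc w hw
    have hM0 : 0 ≤ M := (norm_nonneg _).trans (hM 0 w (mem_ball_self hs))
    rw [Metric.cauchySeq_iff]
    intro ε hε
    -- choose a dense point near `w`
    set δ : ℝ := min s (ε * s / (8 * (M + 1))) with hδ
    have hδ0 : 0 < δ := lt_min hs (by positivity)
    obtain ⟨i, hi⟩ := (TopologicalSpace.denseRange_denseSeq (Cn n)).exists_dist_lt w hδ0
    have hDi : D i ∈ ball w s := by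
      rw [mem_ball, dist_comm]
      exact hi.trans_le (min_le_left _ _)
    have hclose : ∀ j, ‖f j (D i) - f j w‖ ≤ ε / 4 := by
      intro j
      have h1 := schwarz_one hs ((hf j).mono hsΩ) (hM j) _ hDi
      refine h1.trans ?_
      have h2 : ‖D i - w‖ ≤ ε * s / (8 * (M + 1)) := by
        rw [← dist_eq_norm, dist_comm]
        exact (hi.trans_le (min_le_right _ _)).le
      calc 2 * M / s * ‖D i - w‖ ≤ 2 * M / s * (ε * s / (8 * (M + 1))) := by gcongr
        _ = ε / 4 * (M / (M + 1)) := by field_simp; ring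
        _ ≤ ε / 4 * 1 := by
            gcongr
            rw [div_le_one (by positivity)]
            linarith
        _ = ε / 4 := mul_one _
    have hc := (hlimD i (hsΩ hDi)).cauchySeq
    rw [Metric.cauchySeq_iff] at hc
    obtain ⟨N, hN⟩ := hc (ε / 4) (by positivity)
    refine ⟨N, fun j hj k hk => ?_⟩
    have h3 := hN j hj k hk
    have h4 := hclose (φ j)
    have h5 := hclose (φ k)
    rw [dist_eq_norm] at h3 ⊢
    calc ‖f (φ j) w - f (φ k) w‖
        = ‖-(f (φ j) (D i) - f (φ j) w) + (f (φ j) (D i) - f (φ k) (D i)) +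
            (f (φ k) (D i) - f (φ k) w)‖ := by congr 1; ring
      _ ≤ ‖-(f (φ j) (D i) - f (φ j) w)‖ + ‖f (φ j) (D i) - f (φ k) (D i)‖ +
            ‖f (φ k) (D i) - f (φ k) w‖ := norm_add₃_le
      _ < ε := by rw [norm_neg]; linarith
  have hlimΩ : ∀ w, ∃ b : ℂ, w ∈ Ω → Tendsto (fun j => f (φ j) w) atTop (𝓝 b) := by
    intro w
    by_cases hw : w ∈ Ω
    · obtain ⟨b, hb⟩ := cauchySeq_tendsto_of_complete (hcauchy w hw)
      exact ⟨b, fun _ => hb⟩
    · exact ⟨0, fun h => absurd h hw⟩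
  choose g hg using hlimΩ
  refine ⟨g, φ, hφ, ?_, fun w hw => hg w hw⟩
  -- differentiability of the limit
  intro w hw
  refine DifferentiableAt.differentiableWithinAt ?_
  obtain ⟨s, hs, M, hsΩ, hM⟩ := hloc w hw
  have hM0 : 0 ≤ M := (norm_nonneg _).trans (hM 0 w (mem_ball_self hs))
  have hA : ∀ j, fderiv ℂ (f (φ j)) w ∈ closedBall (0 : Cn n →L[ℂ] ℂ) (2 * M / s) := by
    intro j
    rw [mem_closedBall_zero_iff]
    exact schwarz_fderiv hs ((hf _).mono hsΩ) (hM _)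
  obtain ⟨A, -, ψ, hψ, hAlim⟩ := (isCompact_closedBall (0 : Cn n →L[ℂ] ℂ) (2 * M / s)).tendsto_subseq hA
  have hest : ∀ z ∈ ball w s, ‖g z - g w - A (z - w)‖ ≤ 4 * M * (‖z - w‖ / s) ^ 2 := by
    intro z hz
    have h1 : Tendsto (fun j => ‖f (φ (ψ j)) z - f (φ (ψ j)) w -
        fderiv ℂ (f (φ (ψ j))) w (z - w)‖) atTop (𝓝 ‖g z - g w - A (z - w)‖) := by
      have h2 : Tendsto (fun j => f (φ (ψ j)) z) atTop (𝓝 (g z)) :=
        (hg z (hsΩ hz)).comp hψ.tendsto_atTop
      have h3 : Tendsto (fun j => f (φ (ψ j)) w) atTop (𝓝 (g w)) :=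
        (hg w hw).comp hψ.tendsto_atTop
      have h4 : Tendsto (fun j => fderiv ℂ (f (φ (ψ j))) w (z - w)) atTop (𝓝 (A (z - w))) :=
        ((ContinuousLinearMap.apply ℂ ℂ (z - w)).continuous.tendsto A).comp hAlim
      exact ((h2.sub h3).sub h4).norm
    refine le_of_tendsto' h1 fun j => ?_
    exact schwarz_two hs ((hf _).mono hsΩ) (hM _) z hz
  refine ⟨A, ?_⟩
  rw [hasFDerivAt_iff_isLittleO]
  have hO : (fun z => g z - g w - A (z - w)) =O[𝓝 w] fun z => ‖z - w‖ ^ 2 := by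
    refine IsBigO.of_bound (4 * M / s ^ 2) ?_
    filter_upwards [ball_mem_nhds w hs] with z hz
    refine (hest z hz).trans (le_of_eq ?_)
    rw [norm_pow, norm_norm, div_pow]
    ring
  refine hO.trans_isLittleO ?_
  have h5 : (fun z : Cn n => ‖z - w‖ ^ 2) =o[𝓝 w] fun z => ‖z - w‖ ^ 1 := by
    have h6 : Tendsto (fun z : Cn n => ‖z - w‖) (𝓝 w) (𝓝 0) := by
      have : Continuous fun z : Cn n => ‖z - w‖ := by fun_prop
      simpa using this.tendsto w
    have h7 := (isLittleO_pow_pow (𝕜 := ℝ) (m := 1) (n := 2) (by norm_num)).comp_tendsto h6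
    exact h7
  simp only [pow_one] at h5
  exact h5.of_norm_right

end Pool.Agent.Helper63.SCV
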