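import Pool.Agent.Helper63.Defs46c

set_option autoImplicit false
set_option linter.unusedSectionVars false

open MeasureTheory Filter Topology Asymptotics Metric
open scoped ENNReal NNReal

namespace Pool.Agent.Helper63.SCV

section general

variable {X : Type*} [NormedAddCommGroup X] [NormedSpace ℂ X] [MeasurableSpace X] [BorelSpace X]
  [SecondCountableTopology X]

/-- One-variable step. -/
theorem smv_circle {g : ℂ → ℂ} (hg : DifferentiableOn ℂ g (closedBall 0 1)) :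
    ‖g 0‖ₑ ^ 2 * ENNReal.ofReal (2 * Real.pi) ≤
      ∫⁻ θ in Set.Ioc 0 (2 * Real.pi), ‖g (circleMap 0 1 θ)‖ₑ ^ 2 := by
  have h1 : Real.circleAverage (fun z => g z ^ 2) 0 1 = g 0 ^ 2 := by
    refine DiffContOnCl.circleAverage (f := fun z => g z ^ 2) ?_
    refine DifferentiableOn.diffContOnCl ?_
    rw [abs_one, closure_ball (0 : ℂ) one_ne_zero]
    exact hg.pow 2
  rw [Real.circleAverage_def] at h1
  have h2 : g 0 ^ 2 * ((2 * Real.pi : ℝ) : ℂ) = ∫ θ in (0 : ℝ)..(2 * Real.pi),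
      (fun z => g z ^ 2) (circleMap 0 1 θ) := by
    rw [← h1]
    have hpi : ((2 * Real.pi : ℝ) : ℂ) ≠ 0 := by
      exact_mod_cast (by positivity : (2 * Real.pi : ℝ) ≠ 0)
    rw [Complex.real_smul, mul_comm, Complex.ofReal_inv, ← mul_assoc, mul_inv_cancel₀ hpi,
      one_mul]
  have h3 : ‖g 0‖ₑ ^ 2 * ENNReal.ofReal (2 * Real.pi) =
      ‖g 0 ^ 2 * ((2 * Real.pi : ℝ) : ℂ)‖ₑ := by
    rw [enorm_mul, enorm_pow]
    congr 1
    rw [← ofReal_norm, Complex.norm_real, Real.norm_eq_abs, abs_of_pos (by positivity)]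
  rw [h3, h2, intervalIntegral.integral_of_le (by positivity)]
  refine (enorm_integral_le_lintegral_enorm _).trans ?_
  refine lintegral_mono fun θ => ?_
  simp only [enorm_pow, le_refl]

theorem smv_general (μ : Measure X) [SFinite μ]
    (hrot : ∀ c : ℂ, ‖c‖ = 1 → MeasurePreserving (fun u : X => c • u) μ μ)
    {s : ℝ} {h : X → ℂ} (hm : Measurable h) (hd : DifferentiableOn ℂ h (ball 0 s)) :
    ‖h 0‖ₑ ^ 2 * μ (ball 0 s) ≤ ∫⁻ u in ball 0 s, ‖h u‖ₑ ^ 2 ∂μ := by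
  -- pointwise inequality
  have h1 : ∀ u ∈ ball (0 : X) s, ‖h 0‖ₑ ^ 2 * ENNReal.ofReal (2 * Real.pi) ≤
      ∫⁻ θ in Set.Ioc 0 (2 * Real.pi), ‖h (circleMap 0 1 θ • u)‖ₑ ^ 2 := by
    intro u hu
    have hg : DifferentiableOn ℂ (fun ζ : ℂ => h (ζ • u)) (closedBall 0 1) := by
      refine hd.comp (f := fun ζ : ℂ => ζ • u) (by fun_prop) ?_
      intro ζ hζ
      rw [mem_closedBall_zero_iff] at hζ
      rw [mem_ball_zero_iff] at hu ⊢
      rw [norm_smul]
      calc ‖ζ‖ * ‖u‖ ≤ 1 * ‖u‖ := mul_le_mul_of_nonneg_right hζ (norm_nonneg _)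
        _ < s := by rwa [one_mul]
    have := smv_circle hg
    simpa only [zero_smul] using this
  have hmeas : Measurable (fun p : X × ℝ => ‖h (circleMap 0 1 p.2 • p.1)‖ₑ ^ 2) := by
    have hc : Continuous (fun p : X × ℝ => circleMap 0 1 p.2 • p.1) := by fun_prop
    exact ((hm.comp hc.measurable).enorm).pow_const 2
  have h2 : (‖h 0‖ₑ ^ 2 * μ (ball 0 s)) * ENNReal.ofReal (2 * Real.pi) ≤
      (∫⁻ u in ball 0 s, ‖h u‖ₑ ^ 2 ∂μ) * ENNReal.ofReal (2 * Real.pi) := by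
    calc (‖h 0‖ₑ ^ 2 * μ (ball 0 s)) * ENNReal.ofReal (2 * Real.pi)
        = ∫⁻ _ in ball (0 : X) s, ‖h 0‖ₑ ^ 2 * ENNReal.ofReal (2 * Real.pi) ∂μ := by
          rw [setLIntegral_const]
          ring
      _ ≤ ∫⁻ u in ball (0 : X) s, (∫⁻ θ : ℝ in Set.Ioc (0 : ℝ) (2 * Real.pi),
            ‖h (circleMap 0 1 θ • u)‖ₑ ^ 2 ∂volume) ∂μ :=
          setLIntegral_mono' measurableSet_ball h1
      _ = ∫⁻ θ : ℝ in Set.Ioc (0 : ℝ) (2 * Real.pi), (∫⁻ u in ball (0 : X) s,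
            ‖h (circleMap 0 1 θ • u)‖ₑ ^ 2 ∂μ) ∂volume :=
          lintegral_lintegral_swap hmeas.aemeasurable
      _ = ∫⁻ _ : ℝ in Set.Ioc (0 : ℝ) (2 * Real.pi), (∫⁻ u in ball 0 s, ‖h u‖ₑ ^ 2 ∂μ)
            ∂volume := by
          refine lintegral_congr fun θ => ?_
          have hθ : ‖circleMap 0 1 θ‖ = 1 := by simp
          have hpre : (fun u : X => circleMap 0 1 θ • u) ⁻¹' ball 0 s = ball 0 s := by
            ext u
            simp only [Set.mem_preimage, mem_ball_zero_iff, norm_smul, hθ, one_mul]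
          have := (hrot _ hθ).setLIntegral_comp_preimage (s := ball (0 : X) s)
            (f := fun u => ‖h u‖ₑ ^ 2) measurableSet_ball (hm.enorm.pow_const 2)
          rw [hpre] at this
          exact this
      _ = (∫⁻ u in ball 0 s, ‖h u‖ₑ ^ 2 ∂μ) * ENNReal.ofReal (2 * Real.pi) := by
          rw [setLIntegral_const, Real.volume_Ioc, sub_zero]
  have hpos : ENNReal.ofReal (2 * Real.pi) ≠ 0 := by
    simp [Real.pi_pos]
  exact (ENNReal.mul_le_mul_iff_left hpos ENNReal.ofReal_ne_top).mp h2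

end general

theorem rot_complex (c : ℂ) (hc : ‖c‖ = 1) :
    MeasurePreserving (fun u : ℂ => c • u) volume volume := by
  have h1 : c ∈ Submonoid.unitSphere ℂ := mem_sphere_zero_iff_norm.mpr hc
  have h2 := (rotation (⟨c, h1⟩ : Circle)).measurePreserving
  exact h2

theorem rot_Cn {n : ℕ} (c : ℂ) (hc : ‖c‖ = 1) :
    MeasurePreserving (fun u : Cn n => c • u) volume volume := by
  have h0 : LinearMap.det (((c • (LinearMap.id : Cn n →ₗ[ℂ] Cn n))).restrictScalars ℝ)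
      = Complex.normSq (c ^ n) := by
    rw [LinearMap.det_restrictScalars, LinearMap.det_smul, LinearMap.det_id, mul_one,
      Algebra.norm_complex_eq, Module.finrank_fin_fun]
    rfl
  have hn : Complex.normSq (c ^ n) = 1 := by
    rw [Complex.normSq_eq_norm_sq, norm_pow, hc]; simp
  have h1 : LinearMap.det (((c • (LinearMap.id : Cn n →ₗ[ℂ] Cn n))).restrictScalars ℝ) ≠ 0 := by
    rw [h0, hn]; exact one_ne_zero
  have h2 := Measure.map_linearMap_addHaar_eq_smul_addHaar (volume : Measure (Cn n)) h1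
  rw [h0, hn, inv_one, abs_one, ENNReal.ofReal_one, one_smul] at h2
  refine ⟨by fun_prop, ?_⟩
  exact h2

/-- Sub-mean value inequality on discs. -/
theorem smv_disc {s : ℝ} {h : ℂ → ℂ} (hm : Measurable h)
    (hd : DifferentiableOn ℂ h (ball 0 s)) :
    ‖h 0‖ₑ ^ 2 * volume (ball (0 : ℂ) s) ≤ ∫⁻ u in ball 0 s, ‖h u‖ₑ ^ 2 :=
  smv_general volume rot_complex hm hd

/-- Sub-mean value inequality on (sup-norm) balls of `ℂⁿ`. -/
theorem smv_ball {n : ℕ} {s : ℝ} {h : Cn n → ℂ} (hm : Measurable h)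
    (hd : DifferentiableOn ℂ h (ball 0 s)) :
    ‖h 0‖ₑ ^ 2 * volume (ball (0 : Cn n) s) ≤ ∫⁻ u in ball 0 s, ‖h u‖ₑ ^ 2 :=
  smv_general volume rot_Cn hm hd

end Pool.Agent.Helper63.SCV
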