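import Pool.Agent.Helper63.Defs46c

set_option autoImplicit false
set_option linter.unusedSectionVars false

open MeasureTheory Filter Topology Asymptotics Metric
open scoped ENNReal NNReal

namespace Pool.Agent.Helper63.SCV

variable {n : ℕ}

/-- Uniform second order Taylor expansion near `p`. -/
theorem taylor_two {φ : Cn n → ℝ} (hφ : ContDiff ℝ 2 φ) (p : Cn n) :
    (fun x : Cn n × Cn n => φ (x.1 + x.2) - φ x.1 - fderiv ℝ φ x.1 x.2 -
      (1 / 2) * fderiv ℝ (fderiv ℝ φ) p x.2 x.2) =o[𝓝 (p, 0)] fun x => ‖x.2‖ ^ 2 := by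
  have h1 : ContDiff ℝ 1 (fderiv ℝ φ) := hφ.fderiv_right (by norm_num)
  have hs : HasStrictFDerivAt (fderiv ℝ φ) (fderiv ℝ (fderiv ℝ φ) p) p :=
    h1.contDiffAt.hasStrictFDerivAt (by norm_num)
  set H := fderiv ℝ (fderiv ℝ φ) p with hH
  refine IsLittleO.of_bound fun ε hε => ?_
  have h2 := hs.isLittleO.bound hε
  rw [nhds_prod_eq, Filter.eventually_prod_self_iff'] at h2
  obtain ⟨W, hW, hWW⟩ := h2
  obtain ⟨η, hη, hball⟩ := Metric.mem_nhds_iff.mp hW
  have h3 : ball p (η / 2) ×ˢ ball (0 : Cn n) (η / 2) ∈ 𝓝 (p, (0 : Cn n)) :=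
    prod_mem_nhds (ball_mem_nhds _ (by positivity)) (ball_mem_nhds _ (by positivity))
  filter_upwards [h3] with x hx
  obtain ⟨w, u⟩ := x
  obtain ⟨hw, hu⟩ := hx
  simp only at hw hu ⊢
  rw [mem_ball_zero_iff] at hu
  have hseg : ∀ t ∈ Set.Icc (0 : ℝ) 1, w + t • u ∈ ball p η := by
    intro t ht
    rw [mem_ball, dist_eq_norm] at hw ⊢
    calc ‖w + t • u - p‖ = ‖(w - p) + t • u‖ := by congr 1; abel
      _ ≤ ‖w - p‖ + ‖t • u‖ := norm_add_le _ _
      _ = ‖w - p‖ + t * ‖u‖ := by rw [norm_smul, Real.norm_eq_abs, abs_of_nonneg ht.1]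
      _ ≤ ‖w - p‖ + 1 * ‖u‖ := by gcongr; exact ht.2
      _ < η := by linarith
  have hwη : w ∈ ball p η := by simpa using hseg 0 ⟨le_rfl, zero_le_one⟩
  set ψ : ℝ → ℝ := fun t => φ (w + t • u) - t * fderiv ℝ φ w u - t ^ 2 / 2 * H u u with hψ
  set ψ' : ℝ → ℝ := fun t => (fderiv ℝ φ (w + t • u) - fderiv ℝ φ w - H (t • u)) u with hψ'
  have hderiv : ∀ t ∈ Set.Icc (0 : ℝ) 1, HasDerivWithinAt ψ (ψ' t) (Set.Icc 0 1) t := by
    intro t _
    refine HasDerivAt.hasDerivWithinAt ?_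
    have e1 : HasDerivAt (fun t : ℝ => w + t • u) u t := by
      simpa using ((hasDerivAt_id t).smul_const u).const_add w
    have e2 : HasDerivAt (fun t : ℝ => φ (w + t • u)) (fderiv ℝ φ (w + t • u) u) t := by
      have e3 : HasFDerivAt φ (fderiv ℝ φ (w + t • u)) (w + t • u) :=
        ((hφ.differentiable (by norm_num)) _).hasFDerivAt
      exact e3.comp_hasDerivAt t e1
    have e4 : HasDerivAt (fun t : ℝ => t * fderiv ℝ φ w u) (fderiv ℝ φ w u) t := by
      simpa using (hasDerivAt_id t).mul_const (fderiv ℝ φ w u)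
    have e5 : HasDerivAt (fun t : ℝ => t ^ 2 / 2 * H u u) (t * H u u) t := by
      have := (((hasDerivAt_pow 2 t).div_const 2).mul_const (H u u))
      simpa using this
    have e6 := (e2.sub e4).sub e5
    refine e6.congr_deriv ?_
    simp only [hψ', sub_apply, map_smul, smul_apply,
      smul_eq_mul]
  have hbound : ∀ t ∈ Set.Ico (0 : ℝ) 1, ‖ψ' t‖ ≤ ε * ‖u‖ ^ 2 := by
    intro t ht
    have ht' : t ∈ Set.Icc (0 : ℝ) 1 := ⟨ht.1, ht.2.le⟩
    have h4 := hWW _ (hball (hseg t ht')) _ (hball hwη)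
    simp only [add_sub_cancel_left] at h4
    calc ‖ψ' t‖ ≤ ‖fderiv ℝ φ (w + t • u) - fderiv ℝ φ w - H (t • u)‖ * ‖u‖ :=
          ContinuousLinearMap.le_opNorm _ _
      _ ≤ (ε * ‖t • u‖) * ‖u‖ := by gcongr
      _ = ε * t * ‖u‖ ^ 2 := by
          rw [norm_smul, Real.norm_eq_abs, abs_of_nonneg ht.1]; ring
      _ ≤ ε * 1 * ‖u‖ ^ 2 := by
          gcongr
          exact ht.2.le
      _ = ε * ‖u‖ ^ 2 := by ring
  have h5 := norm_image_sub_le_of_norm_deriv_le_segment_01' hderiv hbound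
  have h6 : ψ 1 - ψ 0 = φ (w + u) - φ w - fderiv ℝ φ w u - (1 / 2) * H u u := by
    simp only [hψ, one_smul, zero_smul, add_zero]
    ring
  rw [h6] at h5
  rw [norm_pow, norm_norm]
  exact h5

/-- The complex number `a(v) - i a(iv)` attached to a real linear functional. -/
noncomputable def cx (a : Cn n →L[ℝ] ℝ) (v : Cn n) : ℂ := (a v : ℂ) - Complex.I * (a (Complex.I • v) : ℂ)

theorem apply_smul_eq (a : Cn n →L[ℝ] ℝ) (c : ℂ) (v : Cn n) : a (c • v) = (c * cx a v).re := by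
  have h1 : c • v = c.re • v + c.im • (Complex.I • v) := by
    funext j
    simp only [Pi.smul_apply, Pi.add_apply, smul_eq_mul, Complex.real_smul]
    conv_lhs => rw [← Complex.re_add_im c]
    ring
  rw [h1, map_add, map_smul, map_smul]
  simp only [cx, smul_eq_mul, Complex.mul_re, Complex.sub_re, Complex.ofReal_re,
    Complex.sub_im, Complex.ofReal_im, Complex.I_re, Complex.I_im, Complex.mul_im]
  ring

theorem apply_combo (a : Cn n →L[ℝ] ℝ) (ξ ν : Cn n) (α ζ : ℂ) (h : cx a ξ + α * cx a ν = 0) :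
    a (ζ • ξ + (ζ * α) • ν) = 0 := by
  rw [map_add, apply_smul_eq, apply_smul_eq, ← Complex.add_re]
  have : ζ * cx a ξ + ζ * α * cx a ν = ζ * (cx a ξ + α * cx a ν) := by ring
  rw [this, h, mul_zero, Complex.zero_re]

/-- Decomposition of a real quadratic form on a complex line. -/
theorem quad_decomp (H : Cn n →L[ℝ] Cn n →L[ℝ] ℝ) (ξ : Cn n) (ζ : ℂ) :
    (1 / 2) * H (ζ • ξ) (ζ • ξ) =
      (1 / 4) * (H ξ ξ + H (Complex.I • ξ) (Complex.I • ξ)) * ‖ζ‖ ^ 2 +
      (((((H ξ ξ - H (Complex.I • ξ) (Complex.I • ξ)) / 4 : ℝ) : ℂ) -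
        Complex.I * (((H ξ (Complex.I • ξ) + H (Complex.I • ξ) ξ) / 4 : ℝ) : ℂ)) * ζ ^ 2).re := by
  have h1 : ζ • ξ = ζ.re • ξ + ζ.im • (Complex.I • ξ) := by
    funext j
    simp only [Pi.smul_apply, Pi.add_apply, smul_eq_mul, Complex.real_smul]
    conv_lhs => rw [← Complex.re_add_im ζ]
    ring
  have h2 : ‖ζ‖ ^ 2 = ζ.re ^ 2 + ζ.im ^ 2 := by
    rw [← Complex.normSq_eq_norm_sq, Complex.normSq_apply]; ring
  rw [h1, h2]
  simp only [map_add, map_smul, add_apply, smul_apply,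
    smul_eq_mul, Complex.mul_re, Complex.sub_re, Complex.ofReal_re, Complex.sub_im,
    Complex.ofReal_im, Complex.I_re, Complex.I_im, Complex.mul_im, pow_two]
  ring

end Pool.Agent.Helper63.SCV
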